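import Pool.Agent.P.MP_3ac48a_al.ClStep

/-!
The base level: a binary tree on one piece whose trace algebra has no atoms modulo finite sets.
-/

namespace Pool.Agent.P.MP_3ac48a_al.Cl

open Set Function Classical

set_option linter.unusedSectionVars false

noncomputable section

variable {X : Type} [Nonempty X]

namespace Pair

variable {B : Set (Set X)} {r : X → X → Prop} {W : Set X} {A : ℕ → Set X} (H : Pair B r W A)
include H

theorem many {D : Set X} (hD : D.Infinite) (hB : D ∈ B) (hW : D ⊆ W) {F : Set X}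
    (hF : F.Finite) : ∃ x ∈ D, ∀ f ∈ F, ¬ r x f := by
  by_contra hn
  push Not at hn
  have hr := H.eqv
  refine hD (((hF.inter_of_left W).biUnion (t := fun f => {z ∈ D | r f z})
    fun f hf => ?_).subset fun x hx => ?_)
  · have h1 : ∀ g, ∃ C ∈ B, g ∈ W → ¬ r f g → Sat r C ∧ f ∈ C ∧ g ∉ C := fun g => by
      by_cases h : g ∈ W ∧ ¬ r f g
      · obtain ⟨C, h1, h2⟩ := H.e2 f hf.2 g h.1 h.2
        exact ⟨C, h1, fun _ _ => h2⟩
      · exact ⟨W, H.memW, fun h1 h2 => absurd ⟨h1, h2⟩ h⟩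
    choose C h2 h3 using h1
    have h4 := H.alg.inter hB (H.alg.all hF (p := fun g z => g ∈ W → ¬ r f g → z ∈ C g)
      fun g _ => H.alg.fn (h2 g) fun q => g ∈ W → ¬ r f g → q)
    refine (H.e5 _ h4 f hf.2 fun z hz => ?_).subset fun z hz =>
      ⟨hz.1, fun g _ h5 h6 => (h3 g h5 h6).1 hz.2 (h3 g h5 h6).2.1⟩
    obtain ⟨g, h5, h6⟩ := hn z hz.1
    have h7 := H.satW h6 (hW hz.1)
    by_contra h8
    have h9 : ¬ r f g := fun h => h8 (hr.trans h (hr.symm h6))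
    exact (h3 g h7 h9).2.2 ((h3 g h7 h9).1 h6 (hz.2 g h5 h7 h9))
  · obtain ⟨f, h1, h2⟩ := hn x hx
    exact mem_biUnion (x := f) ⟨h1, H.satW h2 (hW hx)⟩ ⟨hx, hr.symm h2⟩

theorem split {D : Set X} (hD : D.Infinite) (hB : D ∈ B) (hW : D ⊆ W) :
    ∃ k, (D ∩ A k).Infinite ∧ (D \ A k).Infinite := by
  have hr := H.eqv
  obtain ⟨F, hF, h1⟩ := H.e1 D hB
  have h2 : ∀ x ∈ D, (∀ f ∈ F, ¬ r x f) → ∀ y, r x y → y ∈ D := fun x hx h y hy => by
    by_contra h2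
    obtain ⟨f, h3, h4⟩ := h1 x (hW hx) y hy hx h2
    exact h f h3 h4
  obtain ⟨x, hx, hx'⟩ := H.many hD hB hW hF
  obtain ⟨y, hy, hy'⟩ := H.many hD hB hW (hF.insert x)
  obtain ⟨C, h3, h4, h5, h6⟩ := H.e2 x (hW hx) y (hW hy)
    fun h => hy' x (mem_insert _ _) (hr.symm h)
  obtain ⟨k, hk⟩ := H.enum _ (H.alg.inter h3 H.memW) inter_subset_right
  refine ⟨k, (H.e6 x (hW hx)).mono fun z hz => ?_, (H.e6 y (hW hy)).mono fun z hz => ?_⟩
  · rw [hk]
    exact ⟨h2 x hx hx' z hz, h4 hz h5, H.satW hz (hW hx)⟩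
  · rw [hk]
    exact ⟨h2 y hy (fun f hf => hy' f (mem_insert_of_mem _ hf)) z hz,
      fun h => h6 (h4 (hr.symm hz) h.1)⟩

theorem base {ι : X → ℕ} (hι : Injective ι) : ∃ ch : Bool → X → X, Lvl ι B Eq W ch := by
  let Adm : Set X → Prop := fun D => D.Infinite ∧ D ∈ B ∧ D ⊆ W
  obtain ⟨κ, k1, k2⟩ : ∃ κ : Set X → ℕ, (∀ D, Adm D → (D ∩ A (κ D)).Infinite ∧
      (D \ A (κ D)).Infinite) ∧ ∀ D k, (D ∩ A k).Infinite → (D \ A k).Infinite → κ D ≤ k :=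
    ⟨fun D => sInf {k | (D ∩ A k).Infinite ∧ (D \ A k).Infinite},
      fun D hD => Nat.sInf_mem (H.split hD.1 hD.2.1 hD.2.2), fun D k h1 h2 => Nat.sInf_le ⟨h1, h2⟩⟩
  obtain ⟨E, hE⟩ : ∃ E : Set X → X → Bool → Set X,
      ∀ D y c z, z ∈ E D y c ↔ (z ∈ D ∧ (z ∈ A (κ D) ↔ c = true)) ∧ z ≠ y :=
    ⟨fun D y c => {z | _}, fun _ _ _ _ => Iff.rfl⟩
  have wI : W.Infinite := (H.e6 _ H.neW.choose_spec).mono fun z hz => H.satW hz H.neW.choose_spec
  have adm : ∀ D y c, Adm D → Adm (E D y c) := fun D y c hD => by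
    refine ⟨?_, ?_, fun z hz => hD.2.2 ((hE _ _ _ _).1 hz).1.1⟩
    · cases c
      · exact ((k1 D hD).2.sdiff (finite_singleton y)).mono fun z hz =>
          (hE _ _ _ _).2 ⟨⟨hz.1.1, by simpa using hz.1.2⟩, hz.2⟩
      · exact ((k1 D hD).1.sdiff (finite_singleton y)).mono fun z hz =>
          (hE _ _ _ _).2 ⟨⟨hz.1.1, by simpa using hz.1.2⟩, hz.2⟩
    · have h1 := H.alg.diff (H.alg.inter hD.2.1 (H.alg.fn (H.memA (κ D)) fun q => q ↔ c = true))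
        (H.alg.fin (finite_singleton y))
      refine (?_ : _ = E D y c) ▸ h1
      ext z
      exact (hE _ _ _ _).symm
  refine Dec.lvl (r := Eq) (Adm := Adm) (E := E) ⟨fun h => h.1.nonempty, fun _ _ _ h hx => h ▸ hx,
    fun h => h.2.1, fun c hD _ => adm _ _ c hD, fun _ hy hz => ?_, fun _ hy hy' h h' => ?_,
    fun {D z} _ hz h => ?_, fun _ _ => (finite_singleton _).subset fun y hy => hy.1.symm,
    fun d hd C hC => ?_⟩ hι eq_equivalence H.alg ⟨wI, H.memW, Subset.rfl⟩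
  · obtain ⟨h1, h2⟩ := (hE _ _ _ _).1 hz
    exact ⟨h1.1, fun h => h2 (h.symm.trans hy)⟩
  · exact ⟨hy.symm.trans hy', Bool.eq_iff_iff.2
      (((hE _ _ _ _).1 h).1.2.symm.trans ((hE _ _ _ _).1 h').1.2)⟩
  · exact ⟨_, decide (z ∈ A (κ D)), rfl, (hE _ _ _ _).2 ⟨⟨hz, by simp⟩, Ne.symm h⟩⟩
  · obtain ⟨k, hk⟩ := H.enum _ (H.alg.inter hC H.memW) inter_subset_right
    have s1 : ∀ j, ∃ c : Bool, ∀ z ∈ d (j + 1),
        (z ∈ d j ∧ (z ∈ A (κ (d j)) ↔ c = true)) ∧ z ≠ mn ι (d j) := fun j => by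
      obtain ⟨-, y, c, rfl, h⟩ := hd j
      exact ⟨c, fun z hz => (hE _ _ _ _).1 (h ▸ hz)⟩
    have s2 : Antitone d := antitone_nat_of_succ_le fun j z hz =>
      ((s1 j).choose_spec z hz).1.1
    have s3 := le_branch (f := fun j => ι (mn ι (d j))) fun j => by
      have h1 := (s1 j).choose_spec _ (mn_mem ι (hd (j + 1)).1.1.nonempty)
      exact lt_of_not hι eq_equivalence h1.1.1 h1.2.symm
    have s4 := le_branch (f := fun j => κ (d j)) fun j => by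
      obtain ⟨h1, h2⟩ := k1 _ (hd (j + 1)).1
      have h3 := s2 (Nat.le_succ j)
      refine lt_of_le_of_ne (k2 _ _ (h1.mono (inter_subset_inter_left _ h3))
        (h2.mono (sdiff_subset_sdiff_left h3))) fun e => ?_
      obtain ⟨c, hc⟩ := s1 j
      obtain ⟨x, hx⟩ := h1.nonempty
      obtain ⟨y, hy⟩ := h2.nonempty
      rw [← e] at hx hy
      exact hy.2 ((hc y hy.1).1.2.2 ((hc x hx.1).1.2.1 hx.2))
    have s5 : ∀ F : Set X, F.Finite → ∃ j, k + 1 ≤ j ∧ ∀ z ∈ d j, z ∉ F := fun F hF => by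
      obtain ⟨n, hn⟩ := exists_bound ι hF
      refine ⟨k + 1 + n, by omega, fun z hz h => ?_⟩
      have h1 := mn_le ι hz
      have h2 := hn z h
      have h3 := s3 (k + 1 + n)
      omega
    have s6 : ∀ j, ∀ z ∈ d j, z ∈ C ↔ z ∈ A k := fun j z hz => by
      rw [hk]
      exact ⟨fun h => ⟨h, (hd j).1.2.2 hz⟩, fun h => h.1⟩
    by_cases h1 : (d (k + 1) ∩ A k).Finite
    · obtain ⟨j, h2, h3⟩ := s5 _ h1
      exact ⟨j, fun x hx _ _ h => absurd ⟨s2 h2 hx, (s6 j x hx).1 h⟩ (h3 x hx)⟩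
    · by_cases h2 : (d (k + 1) \ A k).Finite
      · obtain ⟨j, h3, h4⟩ := s5 _ h2
        refine ⟨j, fun _ _ y hy _ => (s6 j y hy).2 ?_⟩
        by_contra h5
        exact h4 y hy ⟨s2 h3 hy, h5⟩
      · have h3 := k2 _ _ h1 h2
        have h4 := s4 (k + 1)
        omega

end Pair

end

end Pool.Agent.P.MP_3ac48a_al.Cl
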