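import Mathlib

/-!
Basic tools: least elements along an enumeration, algebras of sets, and a matching lemma.
-/

namespace Pool.Agent.P.MP_3ac48a_al.Cl

open Set Function Classical

noncomputable section

variable {X : Type}

/-- An element of `D` of least index. -/
def mn [Nonempty X] (ι : X → ℕ) (D : Set X) : X :=
  Classical.epsilon fun x => x ∈ D ∧ ∀ y ∈ D, ι x ≤ ι y

theorem mn_spec [Nonempty X] (ι : X → ℕ) {D : Set X} (h : D.Nonempty) :
    mn ι D ∈ D ∧ ∀ y ∈ D, ι (mn ι D) ≤ ι y := by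
  apply Classical.epsilon_spec (p := fun x => x ∈ D ∧ ∀ y ∈ D, ι x ≤ ι y)
  obtain ⟨x, hx, h'⟩ := (InvImage.wf ι wellFounded_lt).has_min D h
  exact ⟨x, hx, fun y hy => not_lt.1 (h' y hy)⟩

theorem mn_mem [Nonempty X] (ι : X → ℕ) {D : Set X} (h : D.Nonempty) : mn ι D ∈ D :=
  (mn_spec ι h).1

theorem mn_le [Nonempty X] (ι : X → ℕ) {D : Set X} {y : X} (h : y ∈ D) : ι (mn ι D) ≤ ι y :=
  (mn_spec ι ⟨y, h⟩).2 y h

theorem mn_eq [Nonempty X] {ι : X → ℕ} (hι : Injective ι) {D E : Set X} (h : E ⊆ D)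
    (hm : mn ι D ∈ E) : mn ι E = mn ι D :=
  hι (le_antisymm (mn_le ι hm) (mn_le ι (h (mn_mem ι ⟨_, hm⟩))))

theorem exists_bound (ι : X → ℕ) {F : Set X} (h : F.Finite) : ∃ n, ∀ x ∈ F, ι x < n := by
  obtain ⟨n, hn⟩ := (h.image ι).bddAbove
  exact ⟨n + 1, fun x hx => Nat.lt_succ_of_le (hn (mem_image_of_mem ι hx))⟩

theorem finite_le {ι : X → ℕ} (hι : Injective ι) (n : ℕ) : {x | ι x ≤ n}.Finite :=
  (finite_Iic n).preimage hι.injOn

/-- A Boolean algebra of sets that contains the finite sets. -/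
structure IsAlg (B : Set (Set X)) : Prop where
  compl : ∀ {A}, A ∈ B → Aᶜ ∈ B
  union : ∀ {A C}, A ∈ B → C ∈ B → A ∪ C ∈ B
  fin : ∀ {A}, A.Finite → A ∈ B

namespace IsAlg

variable {B : Set (Set X)} (h : IsAlg B) {A C : Set X}
include h

theorem empty : (∅ : Set X) ∈ B := h.fin finite_empty

theorem univ : (univ : Set X) ∈ B := by simpa using h.compl h.empty

theorem inter (hA : A ∈ B) (hC : C ∈ B) : A ∩ C ∈ B := by
  have := h.compl (h.union (h.compl hA) (h.compl hC))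
  rwa [← inter_eq_compl_compl_union_compl] at this

theorem diff (hA : A ∈ B) (hC : C ∈ B) : A \ C ∈ B := h.inter hA (h.compl hC)

theorem biUnion {I : Type} {s : Set I} (hs : s.Finite) {f : I → Set X} (hf : ∀ i ∈ s, f i ∈ B) :
    (⋃ i ∈ s, f i) ∈ B := by
  induction s, hs using Set.Finite.induction_on with
  | empty => simpa using h.empty
  | insert _ _ ih =>
    rw [biUnion_insert]
    exact h.union (hf _ (mem_insert _ _)) (ih fun i hi => hf i (mem_insert_of_mem _ hi))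

theorem all {I : Type} {s : Set I} (hs : s.Finite) {p : I → X → Prop}
    (hf : ∀ i ∈ s, {z | p i z} ∈ B) : {z | ∀ i ∈ s, p i z} ∈ B := by
  have := h.compl (h.biUnion hs (f := fun i => {z | p i z}ᶜ) fun i hi => h.compl (hf i hi))
  have e : {z | ∀ i ∈ s, p i z} = (⋃ i ∈ s, {z | p i z}ᶜ)ᶜ := by
    ext z
    simp
  rwa [e]

theorem fn (hA : A ∈ B) (φ : Prop → Prop) : {z | φ (z ∈ A)} ∈ B := by
  have e : ∀ z, φ (z ∈ A) ↔ (z ∈ A ∧ φ True) ∨ (z ∉ A ∧ φ False) := fun z => by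
    by_cases hz : z ∈ A <;> simp [hz]
  simp only [e]
  by_cases h1 : φ True <;> by_cases h2 : φ False
  · simpa [h1, h2, _root_.em] using h.univ
  · simpa [h1, h2] using hA
  · simp only [h1, h2, and_false, and_true, false_or]
    exact h.compl hA
  · simpa [h1, h2] using h.empty

end IsAlg

theorem exists_inj {ι : X → ℕ} (hι : Injective ι) (T : ℕ → Set X) (hT : ∀ n, (T n).Infinite) :
    ∃ g : ℕ → X, Injective g ∧ ∀ n, g n ∈ T n := by
  have h1 : ∀ n a, ∃ z ∈ T n, a < ι z := fun n a => by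
    obtain ⟨z, hz, hz'⟩ := (hT n).exists_notMem_finite (finite_le hι a)
    exact ⟨z, hz, not_le.1 hz'⟩
  choose c hc hc' using h1
  let g : ℕ → X := fun n => Nat.rec (c 0 0) (fun n z => c (n + 1) (ι z)) n
  have hg : StrictMono (ι ∘ g) := strictMono_nat_of_lt_succ fun n => hc' (n + 1) _
  refine ⟨g, hg.injective.of_comp, fun n => ?_⟩
  cases n with
  | zero => exact hc 0 0
  | succ n => exact hc (n + 1) _

theorem finite_pat (A : ℕ → Set X) (P : Set X) (m : ℕ) :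
    {x ∈ P | {z ∈ P | ∀ k < m, z ∈ A k ↔ x ∈ A k}.Finite}.Finite := by
  refine Set.Finite.of_finite_fibers (fun x => fun k : Fin m => x ∈ A k) (toFinite _) ?_
  rintro _ ⟨x, hx, rfl⟩
  refine hx.2.subset fun z hz => ⟨hz.1.1, fun k hk => ?_⟩
  exact (congrFun hz.2 ⟨k, hk⟩).to_iff

theorem exists_close {ι : X → ℕ} (hι : Injective ι) (A : ℕ → Set X) {P Y : Set X}
    (hP : P.Infinite)
    (h : ∀ m x, {z ∈ P | ∀ k < m, z ∈ A k ↔ x ∈ A k}.Infinite →
      {z ∈ Y | ∀ k < m, z ∈ A k ↔ x ∈ A k}.Infinite) :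
    ∃ f : P → Y, Injective f ∧ ∀ k, {x : P | ¬ (x.1 ∈ A k ↔ (f x).1 ∈ A k)}.Finite := by
  let Q : X → ℕ → Prop := fun x m => {z ∈ P | ∀ k < m, z ∈ A k ↔ x ∈ A k}.Infinite
  let l : X → ℕ := fun x => Nat.findGreatest (Q x) (ι x)
  have hQ : ∀ x, Q x (l x) := fun x =>
    Nat.findGreatest_spec (P := Q x) (Nat.zero_le _) (by simpa [Q] using hP)
  have : Nonempty X := ⟨hP.nonempty.choose⟩
  obtain ⟨g, hg, hgT⟩ := exists_inj hι
    (fun n => {z ∈ Y | ∀ k < l (invFun ι n), z ∈ A k ↔ invFun ι n ∈ A k}) fun n => h _ _ (hQ _)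
  refine ⟨fun x => ⟨g (ι x), (hgT _).1⟩, fun x y hxy => ?_, fun k => ?_⟩
  · exact Subtype.ext (hι (hg (congrArg Subtype.val hxy)))
  · refine (((finite_le hι k).union (finite_pat A P (k + 1))).preimage
      Subtype.val_injective.injOn).subset fun x hx => ?_
    by_contra hn
    simp only [mem_preimage, mem_union, mem_ofPred_eq, not_or, not_le, not_and] at hn
    have h1 : k + 1 ≤ l x := Nat.le_findGreatest hn.1 (hn.2 x.2)
    have h2 := (hgT (ι x)).2
    rw [leftInverse_invFun hι x] at h2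
    exact hx (h2 k h1).symm

theorem exists_match {ι : X → ℕ} (hι : Injective ι) {B : Set (Set X)} (hB : IsAlg B)
    (A : ℕ → Set X) (hA : ∀ k, A k ∈ B) {P Y : Set X} (hP : P.Infinite)
    (h : ∀ C ∈ B, (C ∩ P).Finite ↔ (C ∩ Y).Finite) :
    ∃ β : X → X, BijOn β P Y ∧ ∀ k, {x ∈ P | ¬ (x ∈ A k ↔ β x ∈ A k)}.Finite := by
  have hY : Y.Infinite := fun hY => hP (by simpa [hY] using h _ hB.univ)
  have hm : ∀ m x, {z | ∀ k ∈ Iio m, z ∈ A k ↔ x ∈ A k} ∈ B := fun m x =>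
    hB.all (finite_Iio m) fun k _ => hB.fn (hA k) fun p => p ↔ x ∈ A k
  have e : ∀ (m : ℕ) (x : X) (S : Set X), {z ∈ S | ∀ k < m, z ∈ A k ↔ x ∈ A k} =
      {z | ∀ k ∈ Iio m, z ∈ A k ↔ x ∈ A k} ∩ S := fun m x S => by
    ext z
    simp [and_comm]
  obtain ⟨f, hf, hf'⟩ := exists_close hι A hP (Y := Y) fun m x hx => by
    rw [e] at hx ⊢
    exact fun h' => hx ((h _ (hm m x)).2 h')
  obtain ⟨g, hg, hg'⟩ := exists_close hι A hY (Y := P) fun m x hx => by
    rw [e] at hx ⊢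
    exact fun h' => hx ((h _ (hm m x)).1 h')
  obtain ⟨b, hb, hb'⟩ := Function.Embedding.schroeder_bernstein_of_rel hf hg
    (fun x y => y = f x ∨ x = g y) (fun _ => Or.inl rfl) (fun _ => Or.inr rfl)
  refine ⟨fun x => if hx : x ∈ P then (b ⟨x, hx⟩).1 else x, ⟨fun x hx => ?_, fun x hx y hy hxy => ?_,
    fun y hy => ?_⟩, fun k => ?_⟩
  · simp only [hx, dif_pos]
    exact (b ⟨x, hx⟩).2
  · simp only [hx, hy, dif_pos] at hxy
    exact congrArg Subtype.val (hb.1 (Subtype.ext hxy))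
  · obtain ⟨x, hx⟩ := hb.2 ⟨y, hy⟩
    exact ⟨x.1, x.2, by simp [x.2, hx]⟩
  · refine (((hf' k).union ((hg' k).preimage hb.1.injOn)).image Subtype.val).subset ?_
    rintro x ⟨hx, hx'⟩
    simp only [hx, dif_pos] at hx'
    refine ⟨⟨x, hx⟩, ?_, rfl⟩
    rcases hb' ⟨x, hx⟩ with h1 | h1
    · left
      rwa [h1] at hx'
    · right
      simp only [mem_preimage, mem_ofPred_eq, ← h1]
      exact fun h2 => hx' h2.symm

end

end Pool.Agent.P.MP_3ac48a_al.Cl
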