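import Pool.Agent.P.MP_3ac48a_al.ClBasic

/-!
From a one-step decomposition of admissible sets to a tree of pieces.
-/

namespace Pool.Agent.P.MP_3ac48a_al.Cl

open Set Function Classical Relation

set_option linter.unusedSectionVars false

noncomputable section

variable {X : Type} [Nonempty X]

/-- `D` is a union of `r`-classes. -/
def Sat (r : X → X → Prop) (D : Set X) : Prop := ∀ ⦃x y⦄, r x y → x ∈ D → y ∈ D

/-- `A` does not split `D`. -/
def NS (A D : Set X) : Prop := ∀ ⦃x⦄, x ∈ D → ∀ ⦃y⦄, y ∈ D → x ∈ A → y ∈ A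

theorem NS.mono {A D D' : Set X} (h : NS A D) (h' : D' ⊆ D) : NS A D' :=
  fun _ hx _ hy => h (h' hx) (h' hy)

theorem NS.iff {A D : Set X} (h : NS A D) {x y : X} (hx : x ∈ D) (hy : y ∈ D) : x ∈ A ↔ y ∈ A :=
  ⟨h hx hy, h hy hx⟩

/-- One-step decompositions. -/
structure Dec (ι : X → ℕ) (B : Set (Set X)) (r : X → X → Prop) {C : Type}
    (Adm : Set X → Prop) (E : Set X → X → C → Set X) : Prop where
  ne : ∀ {D}, Adm D → D.Nonempty
  sat : ∀ {D}, Adm D → Sat r D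
  mem : ∀ {D}, Adm D → D ∈ B
  adm : ∀ {D y} c, Adm D → r (mn ι D) y → Adm (E D y c)
  sub : ∀ {D y c z}, Adm D → r (mn ι D) y → z ∈ E D y c → z ∈ D ∧ ¬ r (mn ι D) z
  disj : ∀ {D y y' c c' z}, Adm D → r (mn ι D) y → r (mn ι D) y' → z ∈ E D y c →
    z ∈ E D y' c' → y = y' ∧ c = c'
  cov : ∀ {D z}, Adm D → z ∈ D → ¬ r (mn ι D) z → ∃ y c, r (mn ι D) y ∧ z ∈ E D y c
  fin : ∀ {D A}, Adm D → A ∈ B →
    {y | r (mn ι D) y ∧ ∃ c, ¬ NS A (insert y (E D y c))}.Finite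
  br : ∀ d : ℕ → Set X, (∀ j, Adm (d j) ∧ ∃ y c, r (mn ι (d j)) y ∧ d (j + 1) = E (d j) y c) →
    ∀ A ∈ B, ∃ j, NS A (d j)

/-- A level of the tree on the set `W`. -/
structure Lvl (ι : X → ℕ) (B : Set (Set X)) (r : X → X → Prop) {C : Type} (W : Set X)
    (ch : C → X → X) : Prop where
  mem : ∀ {y} c, y ∈ W → ch c y ∈ W
  inj : ∀ {y y' c c'}, y ∈ W → y' ∈ W → ch c y = ch c' y' → c = c' ∧ y = y'
  root : ∀ {y} c, y ∈ W → mn ι {z | r (ch c y) z} = ch c y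
  nr : ∀ {y} c, y ∈ W → ch c y ≠ mn ι W
  ind : ∀ Pr : X → Prop, (∀ x ∈ W, Pr (mn ι {z | r x z}) → Pr x) →
    (∀ y ∈ W, ∀ c, Pr y → Pr (ch c y)) → Pr (mn ι W) → ∀ x ∈ W, Pr x
  cut : ∀ A ∈ B, {y ∈ W | ∃ c, ¬ (ch c y ∈ A ↔ y ∈ A)}.Finite
  tr : ∀ A F : Set X, F.Finite → (∀ x ∈ W, ∀ y, r x y → x ∈ A → y ∉ A → ∃ f ∈ F, r x f) →
    (∀ y ∈ W, y ∉ F → ∀ c, ch c y ∈ A ↔ y ∈ A) →
    (∀ x ∈ W, ∃ A' ∈ B, ∀ y, r x y → (y ∈ A ↔ y ∈ A')) → A ∩ W ∈ B

/-- Passing to a child. -/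
def St (ι : X → ℕ) (r : X → X → Prop) {C : Type} (E : Set X → X → C → Set X) (D D' : Set X) :
    Prop := ∃ y c, r (mn ι D) y ∧ D' = E D y c

namespace Dec

variable {ι : X → ℕ} {B : Set (Set X)} {r : X → X → Prop} {C : Type}
  {Adm : Set X → Prop} {E : Set X → X → C → Set X} (H : Dec ι B r Adm E)
  (hι : Injective ι) (hr : Equivalence r) {D D' D1 D2 : Set X}
include H

theorem st (hD : Adm D) (h : St ι r E D D') :
    Adm D' ∧ D' ⊆ D ∧ ∀ z ∈ D', ¬ r (mn ι D) z := by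
  obtain ⟨y, c, hy, rfl⟩ := h
  exact ⟨H.adm c hD hy, fun z hz => (H.sub hD hy hz).1, fun z hz => (H.sub hD hy hz).2⟩

theorem rtg (hD : Adm D) (h : ReflTransGen (St ι r E) D D') : Adm D' ∧ D' ⊆ D := by
  induction h with
  | refl => exact ⟨hD, Subset.rfl⟩
  | tail _ h ih => exact ⟨(H.st ih.1 h).1, (H.st ih.1 h).2.1.trans ih.2⟩

theorem st_eq (hD : Adm D) (h1 : St ι r E D D1) (h2 : St ι r E D D2) {z : X} (z1 : z ∈ D1)
    (z2 : z ∈ D2) : D1 = D2 := by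
  obtain ⟨y, c, hy, rfl⟩ := h1
  obtain ⟨y', c', hy', rfl⟩ := h2
  obtain ⟨rfl, rfl⟩ := H.disj hD hy hy' z1 z2
  rfl

theorem lam (h1 : ReflTransGen (St ι r E) D D1) {z : X} (z1 : z ∈ D1) (z2 : z ∈ D2) :
    Adm D → ReflTransGen (St ι r E) D D2 →
      ReflTransGen (St ι r E) D1 D2 ∨ ReflTransGen (St ι r E) D2 D1 := by
  induction h1 using ReflTransGen.head_induction_on with
  | refl => exact fun _ h => Or.inl h
  | head h h' ih =>
    intro hD h2
    rcases h2.cases_head with rfl | ⟨D3, h3, h4⟩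
    · exact Or.inr (h'.head h)
    · have e := H.st_eq hD h h3 ((H.rtg (H.st hD h).1 h').2 z1) ((H.rtg (H.st hD h3).1 h4).2 z2)
      subst e
      exact ih (H.st hD h).1 h4

theorem eq_of_rtg (hD : Adm D1) (h : ReflTransGen (St ι r E) D1 D2)
    (hm : r (mn ι D1) (mn ι D2)) : D1 = D2 := by
  rcases h.cases_head with h | ⟨D3, h3, h4⟩
  · exact h
  · have h5 := H.rtg (H.st hD h3).1 h4
    exact absurd hm ((H.st hD h3).2.2 _ (h5.2 (mn_mem ι (H.ne h5.1))))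

include hr

theorem uniq (hD : Adm D) (h1 : ReflTransGen (St ι r E) D D1)
    (h2 : ReflTransGen (St ι r E) D D2) (hm : r (mn ι D1) (mn ι D2)) : D1 = D2 := by
  have a1 := (H.rtg hD h1).1
  have a2 := (H.rtg hD h2).1
  rcases H.lam h1 (H.sat a1 hm (mn_mem ι (H.ne a1))) (mn_mem ι (H.ne a2)) hD h2 with h | h
  · exact H.eq_of_rtg a1 h hm
  · exact (H.eq_of_rtg a2 h (hr.symm hm)).symm

include hι

theorem st_lt (hD : Adm D) (h : St ι r E D D') : ι (mn ι D) < ι (mn ι D') := by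
  obtain ⟨h1, h2, h3⟩ := H.st hD h
  have h4 := mn_mem ι (H.ne h1)
  refine lt_of_le_of_ne (mn_le ι (h2 h4)) fun e => h3 _ h4 ?_
  rw [hι e]
  exact hr.refl _

theorem down {Q : Set X → Prop} (n : ℕ) (h0 : ∀ D, Adm D → n ≤ ι (mn ι D) → Q D)
    (h1 : ∀ D, Adm D → (∀ D', St ι r E D D' → Q D') → Q D) (hD : Adm D) : Q D := by
  have key : ∀ k D, Adm D → n ≤ ι (mn ι D) + k → Q D := by
    intro k
    induction k with
    | zero => exact h0
    | succ k ih =>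
      intro D hD h
      refine h1 D hD fun D' h' => ih D' (H.st hD h').1 ?_
      have := H.st_lt hι hr hD h'
      omega
  exact key n D hD (Nat.le_add_left _ _)

theorem ex (hD : Adm D) {x : X} :
    x ∈ D → ∃ D', ReflTransGen (St ι r E) D D' ∧ r (mn ι D') x := by
  refine H.down hι hr (Q := fun D => x ∈ D → ∃ D', ReflTransGen (St ι r E) D D' ∧ r (mn ι D') x)
    (ι x + 1) (fun D _ h hx => ?_) (fun D hD h hx => ?_) hD
  · have := mn_le ι hx
    omega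
  · by_cases h1 : r (mn ι D) x
    · exact ⟨D, .refl, h1⟩
    · obtain ⟨y, c, hy, hz⟩ := H.cov hD hx h1
      obtain ⟨D', h2, h3⟩ := h _ ⟨y, c, hy, rfl⟩ hz
      exact ⟨D', h2.head ⟨y, c, hy, rfl⟩, h3⟩

omit hι hr in
theorem konig [Finite C] (hD : Adm D) {A : Set X} (hA : A ∈ B) :
    {D' | ReflTransGen (St ι r E) D D' ∧ ¬ NS A D'}.Finite := by
  let Bad : Set X → Prop := fun D =>
    Adm D ∧ ¬ {D' | ReflTransGen (St ι r E) D D' ∧ ¬ NS A D'}.Finite
  have h1 : ∀ D, Bad D → ∃ D', St ι r E D D' ∧ Bad D' := by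
    intro D hD
    by_contra hn
    push Not at hn
    apply hD.2
    have f1 := ((H.fin hD.1 hA).prod (finite_univ (α := C))).biUnion
      (t := fun p => {D' | ReflTransGen (St ι r E) (E D p.1 p.2) D' ∧ ¬ NS A D'})
      fun p hp => by
        by_contra h
        exact hn _ ⟨p.1, p.2, hp.1.1, rfl⟩ ⟨H.adm _ hD.1 hp.1.1, h⟩
    refine (f1.insert D).subset ?_
    rintro D' ⟨h2, h3⟩
    rcases h2.cases_head with rfl | ⟨_, ⟨y, c, hy, rfl⟩, h4⟩
    · exact mem_insert _ _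
    · refine mem_insert_of_mem _ (mem_biUnion (x := (y, c)) ⟨⟨hy, c, fun h => h3 ?_⟩, trivial⟩
        ⟨h4, h3⟩)
      exact h.mono ((H.rtg (H.adm c hD.1 hy) h4).2.trans (subset_insert _ _))
  by_contra hn
  choose nx h2 h3 using h1
  let d : ℕ → {D // Bad D} := fun n => Nat.rec ⟨D, hD, hn⟩ (fun _ p => ⟨nx p.1 p.2, h3 _ _⟩) n
  obtain ⟨j, hj⟩ := H.br (fun j => (d j).1) (fun j => ⟨(d j).2.1, h2 _ (d j).2⟩) A hA
  refine (d j).2.2 (finite_empty.subset ?_)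
  rintro D' ⟨h4, h5⟩
  exact h5 (hj.mono (H.rtg (d j).2.1 h4).2)

theorem lvl [Finite C] (hB : IsAlg B) {W : Set X} (hW : Adm W) :
    ∃ ch : C → X → X, Lvl ι B r W ch := by
  have h0 : ∀ x, ∃ D, x ∈ W → ReflTransGen (St ι r E) W D ∧ r (mn ι D) x := fun x => by
    by_cases hx : x ∈ W
    · obtain ⟨D, hD⟩ := H.ex hι hr hW hx
      exact ⟨D, fun _ => hD⟩
    · exact ⟨W, fun h => absurd h hx⟩
  choose N hN using h0
  have aN : ∀ {y}, y ∈ W → Adm (N y) := fun hy => (H.rtg hW (hN _ hy).1).1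
  have mN : ∀ {y}, y ∈ W → y ∈ N y := fun hy => H.sat (aN hy) (hN _ hy).2 (mn_mem ι (H.ne (aN hy)))
  have sN : ∀ {y} c, y ∈ W → St ι r E (N y) (E (N y) y c) := fun c hy => ⟨_, c, (hN _ hy).2, rfl⟩
  have rE : ∀ {y} c, y ∈ W → ReflTransGen (St ι r E) W (E (N y) y c) := fun c hy =>
    (hN _ hy).1.tail (sN c hy)
  have mE : ∀ {y} c, y ∈ W → mn ι (E (N y) y c) ∈ E (N y) y c := fun c hy =>
    mn_mem ι (H.ne (H.rtg hW (rE c hy)).1)
  have eN : ∀ {D y}, ReflTransGen (St ι r E) W D → r (mn ι D) y → y ∈ D ∧ N y = D := by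
    intro D y h hy
    have a := H.rtg hW h
    have h1 := H.sat a.1 hy (mn_mem ι (H.ne a.1))
    exact ⟨h1, H.uniq hr hW (hN _ (a.2 h1)).1 h (hr.trans (hN _ (a.2 h1)).2 (hr.symm hy))⟩
  have eR : ∀ {D x}, Adm D → r (mn ι D) x → mn ι {z | r x z} = mn ι D := fun hD hx =>
    mn_eq hι (fun z hz => H.sat hD (hr.trans hx hz) (mn_mem ι (H.ne hD))) (hr.symm hx)
  have ind : ∀ D0, ReflTransGen (St ι r E) W D0 → ∀ Pr : X → Prop,
      (∀ x ∈ D0, Pr (mn ι {z | r x z}) → Pr x) →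
      (∀ y ∈ D0, ∀ c, Pr y → Pr (mn ι (E (N y) y c))) → Pr (mn ι D0) → ∀ x ∈ D0, Pr x := by
    intro D0 h0 Pr p1 p2 p3 x hx
    have a0 := (H.rtg hW h0).1
    have key : ∀ D, ReflTransGen (St ι r E) D0 D → ∀ y, r (mn ι D) y → Pr y := by
      intro D h
      induction h with
      | refl => exact fun y hy => p1 y (eN h0 hy).1 (by rwa [eR a0 hy])
      | tail h h' ih =>
        obtain ⟨y, c, hy, rfl⟩ := h'
        intro z hz
        have h1 := h.tail (⟨y, c, hy, rfl⟩ : St ι r E _ _)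
        obtain ⟨h2, h3⟩ := eN (h0.trans h) hy
        refine p1 z ((H.rtg a0 h1).2 (eN (h0.trans h1) hz).1) ?_
        rw [eR (H.rtg a0 h1).1 hz, ← h3]
        exact p2 y ((H.rtg a0 h).2 h2) c (ih y hy)
    obtain ⟨D, h1, h2⟩ := H.ex hι hr a0 hx
    exact key D h1 x h2
  refine ⟨fun c y => mn ι (E (N y) y c), fun c hy => (H.rtg hW (rE c hy)).2 (mE c hy), ?_,
    fun c hy => eR (H.rtg hW (rE c hy)).1 (hr.refl _), fun {y} c hy h => ?_, ind W .refl,
    fun A hA => ?_, ?_⟩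
  · have half : ∀ {y y' c c'}, y ∈ W → y' ∈ W → mn ι (E (N y) y c) = mn ι (E (N y') y' c') →
        ReflTransGen (St ι r E) (N y) (N y') → N y = N y' := by
      intro y y' c c' hy hy' h h1
      rcases h1.cases_head with h1 | ⟨D, h2, h3⟩
      · exact h1
      · exfalso
        have e1 := H.uniq hr hW (rE c hy) (rE c' hy') (h ▸ hr.refl _)
        have s1 := (H.rtg (H.st (aN hy) h2).1 h3).2
        have s2 := H.st (aN hy') (sN c' hy')
        have e2 := H.st_eq (aN hy) h2 (sN c hy) (s1 (s2.2.1 (h ▸ mE c' hy'))) (mE c hy)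
        rw [e2, e1] at s1
        exact s2.2.2 _ (s1 (mn_mem ι (H.ne (aN hy')))) (hr.refl _)
    intro y y' c c' hy hy' h
    have e : N y = N y' := by
      rcases H.lam (hN _ hy).1 ((H.st (aN hy) (sN c hy)).2.1 (mE c hy))
        (h ▸ (H.st (aN hy') (sN c' hy')).2.1 (mE c' hy')) hW (hN _ hy').1 with h1 | h1
      · exact half hy hy' h h1
      · exact (half hy' hy h.symm h1).symm
    have h2 := mE c' hy'
    rw [← h, ← e] at h2
    exact (H.disj (aN hy) (hN _ hy).2 (e ▸ (hN _ hy').2) (mE c hy) h2).symm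
  · have e := H.uniq hr hW (rE c hy) .refl (h ▸ hr.refl _)
    have := H.st_lt hι hr (aN hy) (sN c hy)
    rw [e] at this
    exact absurd (mn_le ι ((H.rtg hW (hN _ hy).1).2 (mn_mem ι (H.ne (aN hy))))) (not_le.2 this)
  · refine ((H.konig hW hA).biUnion fun D hD => H.fin (H.rtg hW hD.1).1 hA).subset ?_
    rintro y ⟨hy, c, hc⟩
    have h1 : ¬ NS A (insert y (E (N y) y c)) := fun h =>
      hc (h.iff (mem_insert_of_mem _ (mE c hy)) (mem_insert _ _))
    refine mem_biUnion (x := N y) ⟨(hN _ hy).1, fun h => h1 (h.mono ?_)⟩ ⟨(hN _ hy).2, c, h1⟩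
    exact insert_subset (mN hy) (H.st (aN hy) (sN c hy)).2.1
  · intro A F hF p1 p2 p3
    have ns : ∀ D, ReflTransGen (St ι r E) W D → (∀ f ∈ F, f ∉ D) → NS A D := by
      intro D h hf
      have a := H.rtg hW h
      have key := ind D h (fun x => x ∈ A ↔ mn ι D ∈ A) (fun x hx h1 => ?_)
        (fun y hy c h1 => (p2 y (a.2 hy) (fun h2 => hf y h2 hy) c).trans h1) Iff.rfl
      · exact fun x hx y hy h1 => (key y hy).2 ((key x hx).1 h1)
      · have h2 : r x (mn ι {z | r x z}) := mn_mem ι (D := {z | r x z}) ⟨x, hr.refl x⟩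
        refine Iff.trans ⟨fun h3 => ?_, fun h3 => ?_⟩ h1
        · by_contra h4
          obtain ⟨f, h5, h6⟩ := p1 x (a.2 hx) _ h2 h3 h4
          exact hf f h5 (H.sat a.1 h6 hx)
        · by_contra h4
          obtain ⟨f, h5, h6⟩ := p1 _ (a.2 (H.sat a.1 h2 hx)) _ (hr.symm h2) h3 h4
          exact hf f h5 (H.sat a.1 (hr.trans h2 h6) hx)
    obtain ⟨n, hn⟩ := exists_bound ι hF
    refine H.down hι hr (Q := fun D => ReflTransGen (St ι r E) W D → A ∩ D ∈ B) n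
      (fun D hD h h1 => ?_) (fun D hD ih h1 => ?_) hW .refl
    · have h2 := ns D h1 fun f hf h3 => absurd (hn f hf) (not_lt.2 (h.trans (mn_le ι h3)))
      by_cases h3 : mn ι D ∈ A
      · rw [inter_eq_self_of_subset_right fun z hz => h2 (mn_mem ι (H.ne hD)) hz h3]
        exact H.mem hD
      · rw [eq_empty_of_forall_notMem (s := A ∩ D)
          fun z hz => h3 (h2 hz.2 (mn_mem ι (H.ne hD)) hz.1)]
        exact hB.empty
    · have s := (H.rtg hW h1).2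
      obtain ⟨A', hA', h2⟩ := p3 _ (s (mn_mem ι (H.ne hD)))
      have f1 : {y | r (mn ι D) y ∧ ∃ c, ∃ f ∈ F, f ∈ E D y c}.Finite := by
        refine (hF.biUnion (t := fun f => {y | r (mn ι D) y ∧ ∃ c, f ∈ E D y c})
          fun f _ => Set.Subsingleton.finite ?_).subset ?_
        · rintro y ⟨hy, c, hc⟩ y' ⟨hy', c', hc'⟩
          exact (H.disj hD hy hy' hc hc').1
        · rintro y ⟨hy, c, f, hf, hc⟩
          exact mem_biUnion hf ⟨hy, c, hc⟩
      have f2 := ((((H.fin hD hA').union f1).union hF).inter_of_left {y | r (mn ι D) y}).prod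
        (finite_univ (α := C))
      have m1 := hB.biUnion f2 (f := fun p => E D p.1 p.2) fun p hp => H.mem (H.adm _ hD hp.1.2)
      have m2 := hB.biUnion f2 (f := fun p => A ∩ E D p.1 p.2) fun p hp =>
        ih _ ⟨p.1, p.2, hp.1.2, rfl⟩ (h1.tail ⟨p.1, p.2, hp.1.2, rfl⟩)
      have m3 := hB.union (hB.diff (hB.inter hA' (H.mem hD)) m1) m2
      have key : ∀ z ∈ D, (∀ p ∈ (({y | r (mn ι D) y ∧ ∃ c, ¬ NS A' (insert y (E D y c))} ∪
          {y | r (mn ι D) y ∧ ∃ c, ∃ f ∈ F, f ∈ E D y c} ∪ F) ∩ {y | r (mn ι D) y}) ×ˢ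
          (univ : Set C), z ∉ E D p.1 p.2) → (z ∈ A ↔ z ∈ A') := by
        intro z hz h3
        by_cases h4 : r (mn ι D) z
        · exact h2 z h4
        obtain ⟨y, c, hy, hc⟩ := H.cov hD hz h4
        have h5 := fun h => h3 (y, c) ⟨⟨h, hy⟩, trivial⟩ hc
        simp only [mem_union, mem_ofPred_eq, imp_false, not_or, not_and, not_exists, not_not] at h5
        obtain ⟨h6, h7⟩ := eN h1 hy
        have h8 := h1.tail (⟨y, c, hy, rfl⟩ : St ι r E _ _)
        have h9 := p2 y (s h6) h5.2 c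
        simp only [h7] at h9
        rw [(ns _ h8 fun f hf => h5.1.2 hy c f hf).iff hc (mn_mem ι ⟨z, hc⟩), h9, h2 y hy]
        exact (h5.1.1 hy c).iff (mem_insert _ _) (mem_insert_of_mem _ hc)
      refine (?_ : _ = A ∩ D) ▸ m3
      ext z
      simp only [mem_union, mem_sdiff, mem_iUnion, mem_inter_iff (a := A), mem_inter_iff (a := A'),
        exists_prop, not_exists, not_and]
      constructor
      · rintro (⟨⟨h3, h4⟩, h5⟩ | ⟨p, hp, h3, h4⟩)
        · exact ⟨(key z h4 h5).2 h3, h4⟩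
        · exact ⟨h3, (H.sub hD hp.1.2 h4).1⟩
      · rintro ⟨h3, h4⟩
        by_contra h5
        rw [not_or, not_exists] at h5
        exact h5.1 ⟨⟨(key z h4 fun p hp h => h5.2 p ⟨hp, h3, h⟩).1 h3, h4⟩,
          fun p hp h => h5.2 p ⟨hp, h3, h⟩⟩

end Dec

end

end Pool.Agent.P.MP_3ac48a_al.Cl
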