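import Mathlib

namespace Pool.Agent.P.MP_3ac48a_al

open Set

/-- `A ⊆ G` is left `G`-commensurated: `gA ∆ A` is finite for every `g`. -/
def IsCommensurated (G : Type) [Group G] (A : Set G) : Prop :=
  ∀ g : G, (symmDiff ((fun x => g * x) '' A) A).Finite

theorem isCommensurated_iff (G : Type) [Group G] (A : Set G) :
    IsCommensurated G A ↔ ∀ g : G, {x | ¬ (g * x ∈ A ↔ x ∈ A)}.Finite := by
  have key : ∀ g : G, symmDiff ((fun x => g * x) '' A) A = {x | ¬ (g⁻¹ * x ∈ A ↔ x ∈ A)} := by
    intro g
    ext x
    simp only [Set.image_mul_left, Set.mem_symmDiff, mem_preimage, mem_ofPred_eq]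
    tauto
  constructor
  · intro h g
    have := h g⁻¹
    rwa [key, inv_inv] at this
  · intro h g
    rw [key]
    exact h g⁻¹

theorem supClosed_comm (G : Type) [Group G] : SupClosed {A : Set G | IsCommensurated G A} := by
  intro A hA B hB
  simp only [mem_ofPred_eq, isCommensurated_iff] at hA hB ⊢
  intro g
  refine ((hA g).union (hB g)).subset ?_
  intro x hx
  simp only [mem_ofPred_eq, sup_eq_union, mem_union] at hx ⊢
  tauto

theorem infClosed_comm (G : Type) [Group G] : InfClosed {A : Set G | IsCommensurated G A} := by
  intro A hA B hB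
  simp only [mem_ofPred_eq, isCommensurated_iff] at hA hB ⊢
  intro g
  refine ((hA g).union (hB g)).subset ?_
  intro x hx
  simp only [mem_ofPred_eq, inf_eq_inter, mem_union, mem_inter_iff] at hx ⊢
  tauto

theorem compl_comm (G : Type) [Group G] {A : Set G} (hA : IsCommensurated G A) :
    IsCommensurated G Aᶜ := by
  simp only [isCommensurated_iff] at hA ⊢
  intro g
  refine (hA g).subset ?_
  intro x hx
  simp only [mem_ofPred_eq, mem_compl_iff] at hx ⊢
  tauto

theorem bot_comm (G : Type) [Group G] : IsCommensurated G ⊥ := by
  simp [isCommensurated_iff]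

/-- The Boolean algebra of left `G`-commensurated subsets of `G`. -/
def commAlg (G : Type) [Group G] : BooleanSubalgebra (Set G) where
  carrier := {A | IsCommensurated G A}
  supClosed' := supClosed_comm G
  infClosed' := infClosed_comm G
  compl_mem' := compl_comm G
  bot_mem' := bot_comm G

theorem coe_symmDiff {G : Type} [Group G] (a b : commAlg G) :
    ((symmDiff a b : commAlg G) : Set G) = symmDiff (a : Set G) (b : Set G) := by
  simp [symmDiff]

theorem fin_add (G : Type) [Group G] {a b : AsBoolRing (commAlg G)}
    (ha : ((ofBoolRing a : commAlg G) : Set G).Finite)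
    (hb : ((ofBoolRing b : commAlg G) : Set G).Finite) :
    ((ofBoolRing (a + b) : commAlg G) : Set G).Finite := by
  rw [ofBoolRing_add, coe_symmDiff]
  exact (ha.union hb).subset symmDiff_le_sup

theorem fin_zero (G : Type) [Group G] :
    ((ofBoolRing (0 : AsBoolRing (commAlg G)) : commAlg G) : Set G).Finite := by
  simp

theorem fin_smul (G : Type) [Group G] (c : AsBoolRing (commAlg G)) {a : AsBoolRing (commAlg G)}
    (ha : ((ofBoolRing a : commAlg G) : Set G).Finite) :
    ((ofBoolRing (c • a) : commAlg G) : Set G).Finite := by
  rw [smul_eq_mul, ofBoolRing_mul]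
  exact ha.subset inf_le_right

/-- The ideal of finite subsets, in the Boolean ring (sum: symmetric difference, product:
intersection) of the Boolean algebra of commensurated subsets. -/
def finIdeal (G : Type) [Group G] : Ideal (AsBoolRing (commAlg G)) where
  carrier := {a | ((ofBoolRing a : commAlg G) : Set G).Finite}
  add_mem' := fin_add G
  zero_mem' := fin_zero G
  smul_mem' := fin_smul G

/-- The space of ends: the Stone space (prime ideals, Stone = Zariski topology) of the Boolean
algebra of commensurated subsets modulo finite subsets. -/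
def Ends (G : Type) [Group G] : TopCat :=
  TopCat.of (PrimeSpectrum (AsBoolRing (commAlg G) ⧸ finIdeal G))

end Pool.Agent.P.MP_3ac48a_al
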