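import Pool.Agent.P.MP_3ac48a_al.ClTower
import Pool.Agent.P.MP_3ac48a_al.Defs

/-!
The tower of a countable group.
-/

namespace Pool.Agent.P.MP_3ac48a_al.Cl

open Set Function Classical

noncomputable section

variable {G : Type} [Group G]

/-- The commensurated subsets. -/
def Com (G : Type) [Group G] : Set (Set G) := {A | IsCommensurated G A}

theorem mem_Com {A : Set G} : A ∈ Com G ↔ ∀ g : G, {x | ¬ (g * x ∈ A ↔ x ∈ A)}.Finite :=
  isCommensurated_iff G A

theorem com_alg : IsAlg (Com G) :=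
  ⟨fun h => compl_comm G h, fun h h' => supClosed_comm G h h', fun {A} h => mem_Com.2 fun g =>
    (h.union (h.preimage (mul_right_injective g).injOn)).subset fun x hx => by
      by_contra h1
      exact hx (iff_of_false (fun h2 => h1 (Or.inr h2)) fun h2 => h1 (Or.inl h2))⟩

/-- `A` is invariant under left multiplication by the elements of `S`. -/
def Inva (S A : Set G) : Prop := ∀ s ∈ S, ∀ x, s * x ∈ A ↔ x ∈ A

/-- No commensurated `S`-invariant set separates `x` from `y`. -/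
def Rel (S : Set G) (x y : G) : Prop := ∀ A ∈ Com G, Inva S A → (x ∈ A ↔ y ∈ A)

variable {S S' A : Set G} {x y s : G}

theorem rel_eqv (S : Set G) : Equivalence (Rel S) :=
  ⟨fun _ _ _ _ => Iff.rfl, fun h A h1 h2 => (h A h1 h2).symm,
    fun h h' A h1 h2 => (h A h1 h2).trans (h' A h1 h2)⟩

theorem Rel.mono (h : Rel S x y) (hS : S ⊆ S') : Rel S' x y :=
  fun A h1 h2 => h A h1 fun s hs => h2 s (hS hs)

theorem rel_mul (hs : s ∈ S) (x : G) : Rel S x (s * x) := fun _ _ h => (h s hs x).symm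

theorem Rel.right (h : Rel S x y) (g : G) : Rel S (x * g) (y * g) := fun A h1 h2 => by
  refine h {z | z * g ∈ A} (mem_Com.2 fun a => ?_) fun s hs z => ?_
  · refine ((mem_Com.1 h1 a).preimage (mul_left_injective g).injOn).subset fun z hz => ?_
    simpa [mul_assoc] using hz
  · simpa [mul_assoc] using h2 s hs (z * g)

theorem rel_sep (h : ¬ Rel S x y) : ∃ C ∈ Com G, Inva S C ∧ x ∈ C ∧ y ∉ C := by
  unfold Rel at h
  push Not at h
  obtain ⟨C, h1, h2, h3 | h3⟩ := h
  · exact ⟨C, h1, h2, h3⟩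
  · exact ⟨Cᶜ, com_alg.compl h1, fun s hs z => not_congr (h2 s hs z), h3.1, not_not.2 h3.2⟩

theorem rel_split (hS : S.Finite) (hA : A ∈ Com G) : FinSplit (Rel S) A := by
  have hF := hS.biUnion fun s _ => mem_Com.1 hA s
  refine ⟨_, hF, fun x y h hx hy => ?_⟩
  by_contra hn
  have h1 : ∀ f, ∃ C ∈ Com G, Inva S C ∧ x ∈ C ∧ (¬ Rel S x f → f ∉ C) := fun f => by
    by_cases h : Rel S x f
    · exact ⟨univ, com_alg.univ, fun _ _ _ => Iff.rfl, trivial, fun h' => absurd h h'⟩
    · obtain ⟨C, h1, h2, h3, h4⟩ := rel_sep h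
      exact ⟨C, h1, h2, h3, fun _ => h4⟩
  choose C h2 h3 h4 h5 using h1
  refine hy ((h _ (com_alg.inter hA (com_alg.all hF (p := fun f z => z ∈ C f) fun f _ => h2 f))
    fun s hs z => ?_).1 ⟨hx, fun f _ => h4 f⟩).1
  have h6 : s * z ∈ {z | ∀ f ∈ ⋃ s ∈ S, {x | ¬ (s * x ∈ A ↔ x ∈ A)}, z ∈ C f} ↔
      z ∈ {z | ∀ f ∈ ⋃ s ∈ S, {x | ¬ (s * x ∈ A ↔ x ∈ A)}, z ∈ C f} :=
    forall₂_congr fun f _ => h3 f s hs z
  rw [mem_inter_iff, mem_inter_iff, h6]
  refine and_congr_left fun h7 => ?_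
  by_contra h8
  have h9 : z ∈ ⋃ s ∈ S, {x | ¬ (s * x ∈ A ↔ x ∈ A)} := mem_biUnion hs h8
  exact h5 z (fun h => hn ⟨z, h9, h⟩) (h7 z h9)

theorem countable_image_of_factor {α β γ : Type} [Nonempty α] {s : Set α} (f : α → β)
    (g : α → γ) (hg : (g '' s).Countable) (h : ∀ a ∈ s, ∀ b ∈ s, g a = g b → f a = f b) :
    (f '' s).Countable := by
  refine (hg.image (f ∘ invFunOn g s)).mono ?_
  rintro _ ⟨a, ha, rfl⟩
  exact ⟨g a, mem_image_of_mem g ha, h _ (invFunOn_apply_mem ha) _ ha (invFunOn_apply_eq ha)⟩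

theorem rel_count [Countable G] (hS : S.Finite) (x : G) :
    ((fun A => A ∩ {z | Rel S x z}) '' Com G).Countable := by
  have := hS.to_subtype
  refine countable_image_of_factor _
    (fun A => (x ∈ A, fun s : S => {z | ¬ (s.1 * z ∈ A ↔ z ∈ A)})) ?_ fun A hA B hB h => ?_
  · refine ((countable_univ (α := Prop)).prod (countable_univ_pi (s := fun _ : S =>
      {F : Set G | F.Finite}) fun _ => Set.Countable.ofPred_finite)).mono ?_
    rintro _ ⟨A, hA, rfl⟩
    exact ⟨trivial, fun s _ => mem_Com.1 hA s⟩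
  · obtain ⟨h1, h2⟩ := Prod.mk.inj h
    have h3 : {z | z ∈ A ↔ z ∈ B} ∈ Com G := by
      have h3 := com_alg.union (com_alg.inter hA hB) (com_alg.compl (com_alg.union hA hB))
      refine (?_ : _ = {z | z ∈ A ↔ z ∈ B}) ▸ h3
      ext z
      simp only [mem_union, mem_inter_iff, mem_compl_iff, mem_ofPred_eq]
      tauto
    ext z
    refine and_congr_left fun hz => (hz _ h3 fun s hs w => ?_).1 h1.to_iff
    have h4 := Set.ext_iff.1 (congrFun h2 ⟨s, hs⟩) w
    simp only [mem_ofPred_eq] at h4 ⊢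
    tauto

theorem exists_not_rel [Countable G] (h : ¬ (Com G).Countable) (hS : S.Finite) :
    ∃ s, ¬ Rel S 1 s := by
  by_contra hn
  push Not at hn
  refine h ((rel_count hS 1).mono fun A hA => ?_)
  exact ⟨A, hA, inter_eq_self_of_subset_left fun z _ => hn z⟩

theorem group_tree [Countable G] (h1 : ¬ (Com G).Countable) {S0 : Set G} (h0 : S0.Finite)
    (h2 : {y | Rel S0 1 y}.Infinite) : ∃ T : TreeStr G, ∀ A, T.Good A ↔ A ∈ Com G := by
  obtain ⟨g, hg⟩ := exists_surjective_nat G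
  have h3 := fun (S : Set G) (hS : S.Finite) => exists_not_rel h1 hS
  choose! t ht using h3
  let S : ℕ → Set G := fun n => Nat.rec S0 (fun n T => insert (g n) (insert (t T) T)) n
  have e : ∀ n, S (n + 1) = insert (g n) (insert (t (S n)) (S n)) := fun _ => rfl
  have fS : ∀ n, (S n).Finite := fun n => by
    induction n with
    | zero => exact h0
    | succ n ih => exact (ih.insert _).insert _
  have mS : Monotone S := monotone_nat_of_le_succ fun n =>
    (subset_insert _ _).trans (subset_insert _ _)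
  have gS : ∀ a, ∃ n, a ∈ S (n + 1) := fun a => by
    obtain ⟨n, rfl⟩ := hg a
    exact ⟨n, mem_insert _ _⟩
  refine Tower.tree (R := fun n => Rel (S n)) ⟨com_alg, fun n => rel_eqv _,
    fun n x y h => h.mono (mS n.le_succ), fun x y => ?_, fun n A hA => rel_split (fS n) hA,
    fun n x y h => ?_, fun n => rel_count (fS n), fun A p1 p2 => mem_Com.2 fun a => ?_,
    fun n A hA p hp => ?_, fun n x => ?_⟩
  · obtain ⟨n, hn⟩ := gS (y * x⁻¹)
    exact ⟨n + 1, by simpa using rel_mul hn x⟩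
  · obtain ⟨C, h3, h4, h5⟩ := rel_sep h
    exact ⟨C, h3, fun a b hab => (hab C h3 h4).1, h5⟩
  · obtain ⟨n, hn⟩ := gS a
    obtain ⟨F, hF, h3⟩ := p1 n
    choose A' h4 h5 using p2 n
    refine (hF.biUnion fun f _ => mem_Com.1 (h4 f) a).subset fun z hz => ?_
    have h6 := rel_mul hn z
    obtain ⟨f, h7, h8⟩ : ∃ f ∈ F, Rel (S (n + 1)) z f := by
      by_cases h : z ∈ A
      · exact h3 _ _ h6 h fun h' => hz (iff_of_true h' h)
      · obtain ⟨f, h7, h8⟩ := h3 _ _ ((rel_eqv _).symm h6) (by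
          by_contra h'
          exact hz (iff_of_false h' h)) h
        exact ⟨f, h7, (rel_eqv _).trans h6 h8⟩
    refine mem_biUnion h7 fun h => hz ?_
    have h9 := (rel_eqv _).symm h8
    rw [h5 f _ ((rel_eqv _).trans h9 h6), h5 f _ h9]
    exact h
  · refine (mem_Com.1 hA (t (S n))).subset fun z hz h => ht _ (fS n) ?_
    have h3 := hp _ (h.2 hz.1) ((rel_eqv _).trans hz.2
      (rel_mul (mem_insert_of_mem _ (mem_insert _ _)) z))
    simpa using ((rel_eqv _).trans ((rel_eqv _).symm (hp z hz.1 hz.2)) h3).right z⁻¹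
  · refine (h2.image (mul_left_injective x).injOn).mono ?_
    rintro _ ⟨y, hy, rfl⟩
    simpa using (Rel.mono hy (mS n.zero_le)).right x

end

end Pool.Agent.P.MP_3ac48a_al.Cl
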