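import Pool.Agent.P.MP_3ac48a_al.Tree

/-!
The coloured tree structure on the free product of countably many copies of `ℤ × ℤ`.
-/

namespace Pool.Agent.P.MP_3ac48a_al

open Set Monoid Monoid.CoprodI

/-- `A ⊆ H × Y` agrees, off a finite set, with a union of fibres `H × {y}`. -/
def AlmFib {H Y : Type} (A : Set (H × Y)) : Prop :=
  ∃ S : Set Y, {p : H × Y | ¬ (p ∈ A ↔ p.2 ∈ S)}.Finite

theorem AlmFib.almInv {H Y : Type} {A : Set (H × Y)} (h : AlmFib A) (f : H → H)
    (hf : Function.Injective f) : AlmInv A (fun p => (f p.1, p.2)) := by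
  obtain ⟨S, hS⟩ := h
  have hinj : Function.Injective (fun p : H × Y => (f p.1, p.2)) := by
    intro p q hpq
    simp only [Prod.mk.injEq] at hpq
    exact Prod.ext (hf hpq.1) hpq.2
  refine (hS.union (hS.preimage hinj.injOn)).subset ?_
  intro p hp
  simp only [mem_ofPred_eq, mem_union, mem_preimage] at hp ⊢
  tauto

theorem almFib_of_succ {Y : Type} {A : Set (ℕ × Y)}
    (h : AlmInv A (fun p => (p.1 + 1, p.2))) : AlmFib A := by
  classical
  obtain ⟨N, hN⟩ : ∃ N : ℕ, ∀ p : ℕ × Y, ¬ ((p.1 + 1, p.2) ∈ A ↔ p ∈ A) → p.1 < N := by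
    obtain ⟨N, hN⟩ := (h.image Prod.fst).bddAbove
    exact ⟨N + 1, fun p hp => Nat.lt_succ_of_le (hN ⟨p, hp, rfl⟩)⟩
  refine ⟨{y | (N, y) ∈ A}, ?_⟩
  have hF : ((Set.Iio N) ×ˢ (Prod.snd '' {p : ℕ × Y | ¬ ((p.1 + 1, p.2) ∈ A ↔ p ∈ A)})).Finite :=
    (Set.finite_Iio N).prod (h.image Prod.snd)
  refine hF.subset ?_
  rintro ⟨n, y⟩ hp
  simp only [mem_ofPred_eq] at hp
  have h1 : ∀ m, (N + m, y) ∈ A ↔ (N, y) ∈ A := by
    intro m
    induction m with
    | zero => rfl
    | succ m ih =>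
      rw [← ih]
      by_contra h2
      have := hN (N + m, y) h2
      simp at this
  refine ⟨?_, ?_⟩
  · simp only [mem_Iio]
    by_contra h2
    obtain ⟨m, rfl⟩ := Nat.exists_eq_add_of_le (not_lt.mp h2)
    exact hp (h1 m)
  · by_contra h2
    have h3 : ∀ m, ((m + 1, y) ∈ A ↔ (m, y) ∈ A) := by
      intro m
      by_contra h4
      exact h2 ⟨(m, y), h4, rfl⟩
    have h4 : ∀ m, ((m, y) ∈ A ↔ (0, y) ∈ A) := by
      intro m
      induction m with
      | zero => rfl
      | succ m ih => rw [h3, ih]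
    exact hp ((h4 n).trans (h4 N).symm)

theorem int_const {P : ℤ → Prop} (h : ∀ a, P (a + 1) ↔ P a) (a b : ℤ) : P a ↔ P b := by
  have h0 : ∀ a, P a ↔ P 0 := by
    intro a
    induction a using Int.induction_on with
    | zero => rfl
    | succ n ih => rw [h, ih]
    | pred n ih => rw [← ih, ← h (-(n : ℤ) - 1)]; simp
  rw [h0 a, h0 b]

theorem almFib_of_int {Y : Type} {A : Set ((ℤ × ℤ) × Y)}
    (h1 : AlmInv A (fun p => ((p.1.1 + 1, p.1.2), p.2)))
    (h2 : AlmInv A (fun p => ((p.1.1, p.1.2 + 1), p.2))) : AlmFib A := by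
  classical
  have hU := h1.union h2
  obtain ⟨R, hR⟩ : ∃ R : ℤ, ∀ p : (ℤ × ℤ) × Y,
      (¬ (((p.1.1 + 1, p.1.2), p.2) ∈ A ↔ p ∈ A) ∨ ¬ (((p.1.1, p.1.2 + 1), p.2) ∈ A ↔ p ∈ A)) →
        |p.1.1| < R ∧ |p.1.2| < R := by
    obtain ⟨R, hR⟩ := (hU.image (fun p => max |p.1.1| |p.1.2|)).bddAbove
    refine ⟨R + 1, fun p hp => ?_⟩
    have := hR ⟨p, hp, rfl⟩
    simp only [max_le_iff] at this
    omega
  refine ⟨{y | ((R, R), y) ∈ A}, ?_⟩
  have hF : (((Set.Ioo (-R) R) ×ˢ (Set.Ioo (-R) R)) ×ˢ (Prod.snd '' ({p : (ℤ × ℤ) × Y |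
      ¬ (((p.1.1 + 1, p.1.2), p.2) ∈ A ↔ p ∈ A)} ∪
      {p : (ℤ × ℤ) × Y | ¬ (((p.1.1, p.1.2 + 1), p.2) ∈ A ↔ p ∈ A)}))).Finite :=
    ((Set.finite_Ioo _ _).prod (Set.finite_Ioo _ _)).prod (hU.image Prod.snd)
  refine hF.subset ?_
  rintro ⟨⟨a, b⟩, y⟩ hp
  simp only [mem_ofPred_eq] at hp
  have hv : ∀ a : ℤ, R ≤ |a| → ∀ b c : ℤ, ((a, b), y) ∈ A ↔ ((a, c), y) ∈ A := by
    intro a ha
    refine int_const (P := fun b => ((a, b), y) ∈ A) fun b => ?_
    by_contra h3
    have := (hR ((a, b), y) (Or.inr h3)).1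
    simp only at this
    omega
  have hh : ∀ b : ℤ, R ≤ |b| → ∀ a c : ℤ, ((a, b), y) ∈ A ↔ ((c, b), y) ∈ A := by
    intro b hb
    refine int_const (P := fun a => ((a, b), y) ∈ A) fun a => ?_
    by_contra h3
    have := (hR ((a, b), y) (Or.inl h3)).2
    simp only at this
    omega
  have hRR : R ≤ |R| := le_abs_self R
  refine ⟨⟨?_, ?_⟩, ?_⟩
  · by_contra h3
    have h4 : R ≤ |a| := by
      simp only [mem_Ioo, not_and_or, not_lt] at h3
      rcases h3 with h3 | h3
      · exact le_abs.mpr (Or.inr (by omega))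
      · exact le_abs.mpr (Or.inl h3)
    exact hp ((hv a h4 b R).trans (hh R hRR a R))
  · by_contra h3
    have h4 : R ≤ |b| := by
      simp only [mem_Ioo, not_and_or, not_lt] at h3
      rcases h3 with h3 | h3
      · exact le_abs.mpr (Or.inr (by omega))
      · exact le_abs.mpr (Or.inl h3)
    exact hp ((hh b h4 a R).trans (hv R hRR b R))
  · by_contra h3
    have h4 : ∀ b a c : ℤ, ((a, b), y) ∈ A ↔ ((c, b), y) ∈ A := by
      intro b
      refine int_const (P := fun a => ((a, b), y) ∈ A) fun a => ?_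
      by_contra h5
      exact h3 ⟨((a, b), y), Or.inl h5, rfl⟩
    exact hp ((h4 b a R).trans (hv R hRR b R))

theorem AlmInv.equiv_iff {X Y : Type} (e : X ≃ Y) {A : Set Y} {f : X → X} {g : Y → Y}
    (h : ∀ x, e (f x) = g (e x)) : AlmInv (e ⁻¹' A) f ↔ AlmInv A g := by
  unfold AlmInv
  have : {x | ¬ (f x ∈ e ⁻¹' A ↔ x ∈ e ⁻¹' A)} = e ⁻¹' {y | ¬ (g y ∈ A ↔ y ∈ A)} := by
    ext x
    simp only [mem_preimage, mem_ofPred_eq, h]
  rw [this]
  exact ⟨fun h => Finite.of_preimage h e.surjective, fun h => h.preimage e.injective.injOn⟩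

theorem AlmFib.equiv {H H' Y : Type} (e : H ≃ H') {A : Set (H' × Y)}
    (h : AlmFib ((e.prodCongr (Equiv.refl Y)) ⁻¹' A)) : AlmFib A := by
  obtain ⟨S, hS⟩ := h
  refine ⟨S, Finite.of_preimage (f := e.prodCongr (Equiv.refl Y)) ?_ (Equiv.surjective _)⟩
  exact hS

/-- The group `ℤ²`, written multiplicatively. -/
abbrev Z2 : Type := Multiplicative (ℤ × ℤ)

/-- The constant family. -/
abbrev Fam : ℕ → Type := fun _ => Z2

theorem exists_enum : ∃ e : ℕ ≃ Z2, e 0 = 1 := by
  have e0 : ℕ ≃ Z2 := (Denumerable.eqv (ℤ × ℤ)).symm.trans Multiplicative.ofAdd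
  exact ⟨e0.trans (Equiv.mulRight (e0 0)⁻¹), by simp⟩

noncomputable def enum : ℕ ≃ Z2 := exists_enum.choose

theorem enum_zero : enum 0 = 1 := exists_enum.choose_spec

/-- one-endedness of `ℤ²`, with parameters: translations versus the successor of an enumeration -/
theorem z2_iff {Y : Type} (A : Set (Z2 × Y)) :
    AlmInv A (fun p => (enum (enum.symm p.1 + 1), p.2)) ↔
      ∀ h : Z2, AlmInv A (fun p => (h * p.1, p.2)) := by
  constructor
  · intro hA h
    have h1 : AlmFib A := by
      refine AlmFib.equiv enum (almFib_of_succ ?_)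
      refine (AlmInv.equiv_iff (enum.prodCongr (Equiv.refl Y)) ?_).mpr hA
      intro x
      simp
    exact h1.almInv (fun z => h * z) (mul_right_injective h)
  · intro hA
    have h1 : AlmFib A := by
      refine AlmFib.equiv (Multiplicative.ofAdd (α := ℤ × ℤ)) (almFib_of_int ?_ ?_)
      · refine (AlmInv.equiv_iff ((Multiplicative.ofAdd (α := ℤ × ℤ)).prodCongr (Equiv.refl Y))
          ?_).mpr (hA (Multiplicative.ofAdd (1, 0)))
        rintro ⟨⟨a, b⟩, y⟩
        simp only [Equiv.prodCongr_apply, Equiv.coe_refl, Prod.map_apply, id_eq, ← ofAdd_add,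
          Prod.mk_add_mk, add_zero, add_comm]
      · refine (AlmInv.equiv_iff ((Multiplicative.ofAdd (α := ℤ × ℤ)).prodCongr (Equiv.refl Y))
          ?_).mpr (hA (Multiplicative.ofAdd (0, 1)))
        rintro ⟨⟨a, b⟩, y⟩
        simp only [Equiv.prodCongr_apply, Equiv.coe_refl, Prod.map_apply, id_eq, ← ofAdd_add,
          Prod.mk_add_mk, add_zero, add_comm]
    refine h1.almInv (fun z => enum (enum.symm z + 1)) ?_
    intro a b hab
    simpa using hab

/-- words not starting with a letter of index `n` -/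
abbrev Tail (n : ℕ) : Type := {w : Word Fam // Word.fstIdx w ≠ some n}

/-- decomposition of a word as head and tail -/
noncomputable def pr (n : ℕ) : Z2 × Tail n ≃ Word Fam where
  toFun p := Word.rcons ⟨p.1, p.2.1, p.2.2⟩
  invFun w := ((Word.equivPair n w).head, ⟨(Word.equivPair n w).tail, (Word.equivPair n w).fstIdx_ne⟩)
  left_inv p := by
    have := (Word.equivPair n).apply_symm_apply (⟨p.1, p.2.1, p.2.2⟩ : Word.Pair Fam n)
    rw [Word.equivPair_symm] at this
    simp only [this]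
  right_inv w := (Word.equivPair n).symm_apply_apply w

theorem pr_smul (n : ℕ) (h : Z2) (p : Z2 × Tail n) :
    pr n (h * p.1, p.2) = (CoprodI.of (M := Fam) (i := n) h) • pr n p := by
  have h1 : ∀ q : Z2 × Tail n, pr n q = (CoprodI.of (M := Fam) (i := n) q.1) • q.2.1 :=
    fun q => Word.rcons_eq_smul (M := Fam) (i := n) ⟨q.1, q.2.1, q.2.2⟩
  rw [h1, h1, map_mul, mul_smul]

theorem pr_one (n : ℕ) (y : Tail n) : pr n (1, y) = y.1 := by
  simp [pr, Word.rcons]

theorem fstIdx_pr (n : ℕ) (p : Z2 × Tail n) (h : p.1 ≠ 1) : Word.fstIdx (pr n p) = some n := by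
  simp only [pr, Word.rcons, Equiv.coe_fn_mk, dif_neg h]
  exact Word.fstIdx_cons _ _ _ _

/-- child of colour `n` -/
noncomputable def wchild (n : ℕ) (w : Word Fam) : Word Fam :=
  pr n (enum (enum.symm ((pr n).symm w).1 + 1), ((pr n).symm w).2)

theorem enum_succ_ne (k : ℕ) : enum (k + 1) ≠ 1 := by
  rw [← enum_zero]
  intro h
  have := enum.injective h
  omega

theorem fstIdx_wchild (n : ℕ) (w : Word Fam) : Word.fstIdx (wchild n w) = some n :=
  fstIdx_pr _ _ (enum_succ_ne _)

/-- The tree structure on reduced words. -/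
noncomputable def wordTree : TreeStr (Word Fam) where
  root := Word.empty
  child := wchild
  inj := by
    intro k x k' x' h
    have h1 : k = k' := by
      have := congrArg Word.fstIdx h
      rw [fstIdx_wchild, fstIdx_wchild] at this
      exact Option.some.inj this
    subst h1
    refine ⟨rfl, ?_⟩
    have h2 := (pr k).injective h
    simp only [Prod.mk.injEq, EmbeddingLike.apply_eq_iff_eq, Nat.add_right_cancel_iff] at h2
    exact (pr k).symm.injective (Prod.ext h2.1 h2.2)
  ne_root := by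
    intro k x h
    have := congrArg Word.fstIdx h
    rw [fstIdx_wchild] at this
    simp [Word.fstIdx, Word.empty] at this
  ind := by
    intro P h1 h2 w
    induction w using Word.consRecOn with
    | empty => exact h1
    | cons i m w hw hm ih =>
      have h3 : ∀ j : ℕ, P (pr i (enum j, ⟨w, hw⟩)) := by
        intro j
        induction j with
        | zero => rw [enum_zero, pr_one]; exact ih
        | succ j ihj =>
          have := h2 i _ ihj
          simpa [wchild] using this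
      have h4 := h3 (enum.symm m)
      rw [Equiv.apply_symm_apply] at h4
      simpa [pr, Word.rcons, hm] using h4

theorem word_good_iff (A : Set (Word Fam)) :
    wordTree.Good A ↔ ∀ g : CoprodI Fam, AlmInv A (fun x => g • x) := by
  have key : ∀ n : ℕ, AlmInv A (wchild n) ↔
      ∀ h : Z2, AlmInv A (fun x => (CoprodI.of (M := Fam) (i := n) h) • x) := by
    intro n
    rw [← AlmInv.equiv_iff (pr n) (f := fun p => (enum (enum.symm p.1 + 1), p.2))
      (by intro p; simp [wchild]), z2_iff]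
    refine forall_congr' fun h => AlmInv.equiv_iff (pr n) fun p => pr_smul n h p
  constructor
  · intro hA g
    have : g ∈ almStab (CoprodI Fam) A := by
      induction g using CoprodI.induction_on with
      | one => exact one_mem _
      | of i m => exact (key i).mp (hA i) m
      | mul x y hx hy => exact mul_mem hx hy
    exact this
  · intro hA n
    exact (key n).mpr fun h => hA _

end Pool.Agent.P.MP_3ac48a_al
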