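import Pool.Agent.P.MP_3ac48a_al.Tree

/-!
The coloured tree structure on the free group of countably infinite rank.
-/

namespace Pool.Agent.P.MP_3ac48a_al

open Set FreeGroup

/-- code of a letter -/
def code (l : ℕ × Bool) : ℕ := 2 * l.1 + (if l.2 then 1 else 0)

/-- letter with a given code -/
def letter (m : ℕ) : ℕ × Bool := (m / 2, decide (m % 2 = 1))

theorem code_letter (m : ℕ) : code (letter m) = m := by
  unfold code letter
  by_cases h : m % 2 = 1
  · simp [h]; omega
  · simp [h]; omega

theorem letter_code (l : ℕ × Bool) : letter (code l) = l := by
  obtain ⟨a, b⟩ := l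
  unfold code letter
  cases b
  · simp
  · simp; omega

theorem letter_injective : Function.Injective letter := fun a b h => by
  rw [← code_letter a, h, code_letter]

/-- The code of the `k`-th letter that can be put in front of the word `L`. -/
def shift (L : List (ℕ × Bool)) (k : ℕ) : ℕ :=
  match L with
  | [] => k
  | l :: _ => if k < code (l.1, !l.2) then k else k + 1

theorem shift_injective (L : List (ℕ × Bool)) : Function.Injective (shift L) := by
  intro a b h
  cases L with
  | nil => exact h
  | cons l L =>
    simp only [shift] at h
    split_ifs at h <;> omega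

theorem shift_cases (L : List (ℕ × Bool)) (k : ℕ) : shift L k = k ∨ shift L k = k + 1 := by
  cases L with
  | nil => exact Or.inl rfl
  | cons l L =>
    simp only [shift]
    split_ifs <;> simp

theorem isReduced_shift {L : List (ℕ × Bool)} (hL : IsReduced L) (k : ℕ) :
    IsReduced (letter (shift L k) :: L) := by
  cases L with
  | nil => exact IsReduced.singleton
  | cons l L =>
    rw [isReduced_cons_cons]
    refine ⟨fun h1 => ?_, hL⟩
    by_contra h2
    have h3 : letter (shift (l :: L) k) = (l.1, !l.2) := by
      refine Prod.ext h1 ?_
      simp only
      revert h2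
      cases (letter (shift (l :: L) k)).2 <;> cases l.2 <;> simp
    have h4 : shift (l :: L) k = code (l.1, !l.2) := by
      rw [← h3, code_letter]
    simp only [shift] at h4
    split_ifs at h4 <;> omega

theorem exists_shift {L : List (ℕ × Bool)} {l : ℕ × Bool} (h : IsReduced (l :: L)) :
    ∃ k, shift L k = code l := by
  cases L with
  | nil => exact ⟨_, rfl⟩
  | cons l' L =>
    rw [isReduced_cons_cons] at h
    have h1 : code l ≠ code (l'.1, !l'.2) := by
      intro h2
      have h3 : l = (l'.1, !l'.2) := by rw [← letter_code l, h2, letter_code]
      have h4 := h.1 (by rw [h3])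
      rw [h3] at h4
      simp at h4
    rcases lt_or_gt_of_ne h1 with h2 | h2
    · exact ⟨code l, by simp [shift, h2]⟩
    · refine ⟨code l - 1, ?_⟩
      simp only [shift]
      rw [if_neg (by omega)]
      omega

/-- child of colour `k` in the free group -/
def fchild (k : ℕ) (x : FreeGroup ℕ) : FreeGroup ℕ :=
  FreeGroup.mk (letter (shift x.toWord k) :: x.toWord)

theorem toWord_fchild (k : ℕ) (x : FreeGroup ℕ) :
    (fchild k x).toWord = letter (shift x.toWord k) :: x.toWord := by
  rw [fchild, toWord_mk, (isReduced_shift isReduced_toWord k).reduce_eq]

theorem fchild_eq (k : ℕ) (x : FreeGroup ℕ) :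
    fchild k x = FreeGroup.mk [letter (shift x.toWord k)] * x := by
  conv_rhs => rw [← mk_toWord (x := x)]
  rw [mul_mk, toWord_mk, reduce_toWord]
  rfl

theorem exists_fchild {l : ℕ × Bool} {x : FreeGroup ℕ} (h : IsReduced (l :: x.toWord)) :
    ∃ k, (k = code l ∨ k + 1 = code l) ∧ fchild k x = FreeGroup.mk [l] * x := by
  obtain ⟨k, hk⟩ := exists_shift h
  refine ⟨k, ?_, ?_⟩
  · rcases shift_cases x.toWord k with h1 | h1 <;> omega
  · rw [fchild_eq, hk, letter_code]

/-- The tree structure on the free group. -/
def freeTree : TreeStr (FreeGroup ℕ) where
  root := 1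
  child := fchild
  inj := by
    intro k x k' x' h
    have h1 := congrArg toWord h
    rw [toWord_fchild, toWord_fchild] at h1
    obtain ⟨h2, h3⟩ := List.cons.inj h1
    have h4 : x = x' := toWord_injective h3
    subst h4
    exact ⟨shift_injective _ (letter_injective h2), rfl⟩
  ne_root := by
    intro k x h
    have h1 := congrArg toWord h
    rw [toWord_fchild, toWord_one] at h1
    exact List.cons_ne_nil _ _ h1
  ind := by
    intro P h1 h2 x
    have key : ∀ L : List (ℕ × Bool), IsReduced L → P (FreeGroup.mk L) := by
      intro L
      induction L with
      | nil => intro _; exact h1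
      | cons l L ih =>
        intro hL
        have hL' : IsReduced L := List.IsChain.tail hL
        have h3 : (FreeGroup.mk L).toWord = L := by rw [toWord_mk, hL'.reduce_eq]
        obtain ⟨k, -, hk⟩ := exists_fchild (l := l) (x := FreeGroup.mk L) (by rw [h3]; exact hL)
        have h4 := h2 k _ (ih hL')
        rw [hk, mul_mk] at h4
        exact h4
    have := key x.toWord isReduced_toWord
    rwa [mk_toWord] at this

theorem free_good_iff (A : Set (FreeGroup ℕ)) :
    freeTree.Good A ↔ ∀ g : FreeGroup ℕ, AlmInv A (fun x => g • x) := by
  constructor
  · intro hA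
    have hgen : ∀ a : ℕ, FreeGroup.of a ∈ almStab (FreeGroup ℕ) A := by
      intro a
      rw [mem_almStab]
      have f1 := hA (code (a, true))
      have f2 := hA (code (a, true) - 1)
      have f3 := (hA (code (a, false))).preimage
        (f := fun x => FreeGroup.of a * x) (mul_right_injective _).injOn
      have f4 := (hA (code (a, false) - 1)).preimage
        (f := fun x => FreeGroup.of a * x) (mul_right_injective _).injOn
      refine (((f1.union f2).union f3).union f4).subset ?_
      intro x hx
      simp only [mem_ofPred_eq, mem_union, mem_preimage, smul_eq_mul, freeTree] at hx ⊢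
      by_cases hr : IsReduced ((a, true) :: x.toWord)
      · obtain ⟨k, hk1, hk2⟩ := exists_fchild hr
        have h5 : FreeGroup.mk [(a, true)] = FreeGroup.of a := rfl
        rw [h5] at hk2
        rcases hk1 with hk1 | hk1
        · left; left; left
          rw [← hk1, hk2]; exact hx
        · left; left; right
          have : code (a, true) - 1 = k := by omega
          rw [this, hk2]; exact hx
      · -- the word of `x` starts with the inverse letter
        obtain ⟨L, hL⟩ : ∃ L, x.toWord = (a, false) :: L := by
          have hx' : IsReduced x.toWord := isReduced_toWord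
          cases hw : x.toWord with
          | nil => rw [hw] at hr; exact absurd IsReduced.singleton hr
          | cons l L =>
            rw [hw] at hr hx'
            rw [isReduced_cons_cons] at hr
            have h6 : ¬ (a = l.1 → true = l.2) := fun h => hr ⟨h, hx'⟩
            push Not at h6
            obtain ⟨a', b'⟩ := l
            simp only at h6
            obtain ⟨rfl, h7⟩ := h6
            cases b'
            · exact ⟨L, rfl⟩
            · exact absurd rfl h7
        have hx' : IsReduced ((a, false) :: L) := hL ▸ isReduced_toWord
        have hL' : IsReduced L := List.IsChain.tail hx'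
        have h3 : (FreeGroup.mk L).toWord = L := by rw [toWord_mk, hL'.reduce_eq]
        have h8 : x = FreeGroup.mk [(a, false)] * FreeGroup.mk L := by
          rw [mul_mk, ← mk_toWord (x := x), hL]; rfl
        have h9 : FreeGroup.mk [(a, false)] = (FreeGroup.of a)⁻¹ := rfl
        have h10 : FreeGroup.of a * x = FreeGroup.mk L := by
          rw [h8, h9, mul_inv_cancel_left]
        obtain ⟨k, hk1, hk2⟩ := exists_fchild (l := (a, false)) (x := FreeGroup.mk L)
          (by rw [h3]; exact hx')
        rw [← h8] at hk2
        rw [h10] at hx ⊢
        rcases hk1 with hk1 | hk1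
        · left; right
          rw [← hk1, hk2]; tauto
        · right
          have : code (a, false) - 1 = k := by omega
          rw [this, hk2]; tauto
    intro g
    have : g ∈ almStab (FreeGroup ℕ) A := by
      induction g using FreeGroup.induction_on with
      | C1 => exact one_mem _
      | of a => exact hgen a
      | inv_of a h => exact inv_mem h
      | mul x y hx hy => exact mul_mem hx hy
    exact this
  · intro hA k
    have f1 := hA (FreeGroup.mk [letter k])
    have f2 := hA (FreeGroup.mk [letter (k + 1)])
    refine (f1.union f2).subset ?_
    intro x hx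
    simp only [mem_ofPred_eq, mem_union, smul_eq_mul, freeTree, fchild_eq] at hx ⊢
    rcases shift_cases x.toWord k with h | h
    · left; rwa [h] at hx
    · right; rwa [h] at hx

end Pool.Agent.P.MP_3ac48a_al
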