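import Pool.Agent.P.MP_3ac48a_al.Defs
import Pool.Agent.P.MP_3ac48a_al.Free
import Pool.Agent.P.MP_3ac48a_al.Coprod

namespace Pool.Agent.P.MP_3ac48a_al

open Set

theorem homeo_of_equiv {G H : Type} [Group G] [Group H] (e : G ≃ H)
    (he : ∀ B : Set H, IsCommensurated G (e ⁻¹' B) ↔ IsCommensurated H B) :
    Nonempty (Ends G ≃ₜ Ends H) := by
  let φ : AsBoolRing (commAlg H) ≃+* AsBoolRing (commAlg G) :=
    { toFun := fun b => toBoolRing ⟨e ⁻¹' ((ofBoolRing b : commAlg H) : Set H),
        (he _).mpr (ofBoolRing b).2⟩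
      invFun := fun a => toBoolRing ⟨e.symm ⁻¹' ((ofBoolRing a : commAlg G) : Set G),
        (he _).mp (by
          have h : IsCommensurated G ((ofBoolRing a : commAlg G) : Set G) := (ofBoolRing a).2
          simpa using h)⟩
      left_inv := by
        intro b
        apply ofBoolRing.injective
        apply Subtype.ext
        simp
      right_inv := by
        intro a
        apply ofBoolRing.injective
        apply Subtype.ext
        simp
      map_mul' := by
        intro a b
        apply ofBoolRing.injective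
        apply Subtype.ext
        simp
      map_add' := by
        intro a b
        apply ofBoolRing.injective
        apply Subtype.ext
        simp only [ofBoolRing_add, ofBoolRing_toBoolRing, coe_symmDiff, preimage_symmDiff] }
  have hφ : finIdeal G = (finIdeal H).map (φ : AsBoolRing (commAlg H) →+* AsBoolRing (commAlg G)) := by
    rw [Ideal.map_comap_of_equiv]
    ext a
    rw [Ideal.mem_comap]
    change ((ofBoolRing a : commAlg G) : Set G).Finite ↔
      (e.symm ⁻¹' ((ofBoolRing a : commAlg G) : Set G)).Finite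
    exact ⟨fun h => h.preimage e.symm.injective.injOn,
      fun h => Finite.of_preimage h e.symm.surjective⟩
  exact ⟨(PrimeSpectrum.homeomorphOfRingEquiv (Ideal.quotientEquiv _ _ φ hφ)).symm⟩

theorem main :
    Nonempty (Ends (FreeGroup ℕ) ≃ₜ Ends (Monoid.CoprodI fun _ : ℕ => Multiplicative (ℤ × ℤ))) := by
  obtain ⟨e, he⟩ := TreeStr.exists_equiv_good freeTree wordTree
  let w : Monoid.CoprodI Fam ≃ Monoid.CoprodI.Word Fam := Monoid.CoprodI.Word.equiv
  refine homeo_of_equiv (e.trans w.symm) fun B => ?_
  have h1 : (e.trans w.symm) ⁻¹' B = e ⁻¹' (w.symm ⁻¹' B) := rfl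
  rw [h1, isCommensurated_iff, isCommensurated_iff]
  have h2 := free_good_iff (e ⁻¹' (w.symm ⁻¹' B))
  have h3 := word_good_iff (w.symm ⁻¹' B)
  refine (h2.symm.trans ((he _).trans h3)).trans (forall_congr' fun g => ?_)
  refine AlmInv.equiv_iff w.symm (g := fun x => g * x) fun x => ?_
  exact Monoid.CoprodI.Word.prod_smul g x

end Pool.Agent.P.MP_3ac48a_al
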