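import Pool.Agent.P.MP_3ac48a_al.ClTop
import Pool.Agent.P.MP_3ac48a_al.Main

/-!
The classification of separable non-metrizable spaces of ends of countable groups.
-/

namespace Pool.Agent.P.MP_3ac48a_al.Cl

open Set Function Classical TopologicalSpace

noncomputable section

variable {G : Type} [Group G]

theorem exists_ad : ∃ K : Set ℕ → Set ℕ, (∀ I, (K I).Infinite) ∧
    ∀ I J, I ≠ J → (K I ∩ K J).Finite := by
  obtain ⟨e, he⟩ := exists_injective_nat (ℕ × Finset ℕ)
  refine ⟨fun I => range fun n => e (n, (Finset.range n).filter (· ∈ I)), fun I =>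
    infinite_range_of_injective fun m n h => (Prod.mk.inj (he h)).1, fun I J h => ?_⟩
  obtain ⟨m, hm⟩ : ∃ m, ¬ (m ∈ I ↔ m ∈ J) := not_forall.1 fun h' => h (Set.ext h')
  refine ((finite_Iic m).image fun n => e (n, (Finset.range n).filter (· ∈ I))).subset ?_
  rintro _ ⟨⟨n, rfl⟩, n', h1⟩
  obtain ⟨rfl, h2⟩ := Prod.mk.inj (he h1)
  refine ⟨n', mem_Iic.2 (not_lt.1 fun h3 => hm ?_), rfl⟩
  simpa [h3] using (Finset.ext_iff.1 h2 m).symm

theorem lf_not_sep [Countable G] [Infinite G] (h : ∀ S : Set G, S.Finite → {y | Rel S 1 y}.Finite) :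
    ¬ SeparableSpace (Ends G) := by
  obtain ⟨g, hg⟩ := exists_surjective_nat G
  have h1 : ∀ k x, {y | Rel (g '' Iic k) x y}.Finite := fun k x =>
    ((h _ ((finite_Iic k).image g)).image (· * x)).subset fun y hy =>
      ⟨y * x⁻¹, by simpa using Rel.right hy x⁻¹, by simp⟩
  obtain ⟨f, -, hf⟩ := exists_seq_of_forall_finset_exists (fun _ : ℕ × G => True)
    (fun p q => p.1 < q.1 ∧ ¬ Rel (g '' Iic q.1) p.2 q.2) fun s _ => by
      obtain ⟨n, hn⟩ := exists_bound Prod.fst s.finite_toSet
      obtain ⟨y, hy⟩ := (s.finite_toSet.biUnion fun p _ => h1 n p.2).exists_notMem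
      exact ⟨(n, y), trivial, fun p hp => ⟨hn p hp, fun h => hy (mem_biUnion hp h)⟩⟩
  have h2 := le_branch (f := fun n => (f n).1) fun n => (hf n (n + 1) n.lt_succ_self).1
  obtain ⟨C, hC⟩ : ∃ C : ℕ → Set G, ∀ n y, y ∈ C n ↔ Rel (g '' Iic (f n).1) (f n).2 y :=
    ⟨fun n => {y | _}, fun _ _ => Iff.rfl⟩
  have c1 : ∀ n, (C n).Finite := fun n => (h1 _ _).subset fun y hy => (hC n y).1 hy
  have c2 : ∀ n, (f n).2 ∈ C n := fun n => (hC _ _).2 ((rel_eqv _).refl _)
  have c3 : ∀ m n y, y ∈ C m → y ∈ C n → m = n := by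
    have key : ∀ m n y, y ∈ C m → y ∈ C n → ¬ m < n := fun m n y h3 h4 h5 =>
      (hf m n h5).2 ((rel_eqv _).trans (((hC _ _).1 h3).mono
        (image_mono (Iic_subset_Iic.2 (hf m n h5).1.le))) ((rel_eqv _).symm ((hC _ _).1 h4)))
    exact fun m n y h3 h4 => le_antisymm (not_lt.1 (key n m y h4 h3)) (not_lt.1 (key m n y h3 h4))
  obtain ⟨K, k1, k2⟩ := exists_ad
  refine not_sep (fun I => ⋃ k ∈ K I, C k) (fun I => mem_Com.2 fun a => ?_) (fun I => ?_)
    fun I J hIJ => ((k2 I J hIJ).biUnion fun k _ => c1 k).subset ?_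
  · obtain ⟨m, rfl⟩ := hg a
    refine ((finite_Iio m).biUnion fun k _ =>
      (c1 k).union ((c1 k).preimage (mul_right_injective (g m)).injOn)).subset fun z hz => ?_
    by_contra h3
    simp only [mem_iUnion, not_exists, mem_union, not_or, mem_preimage, mem_Iio] at h3
    refine hz ?_
    simp only [mem_iUnion]
    refine exists₂_congr fun k _ => ?_
    by_cases h4 : k < m
    · exact iff_of_false (h3 k h4).2 (h3 k h4).1
    · have h5 := rel_mul (mem_image_of_mem g (show m ∈ Iic (f k).1 from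
        (not_lt.1 h4).trans (h2 k))) z
      rw [hC, hC]
      exact ⟨fun h => (rel_eqv _).trans h ((rel_eqv _).symm h5), fun h => (rel_eqv _).trans h h5⟩
  · refine ((k1 I).image (f := fun n => (f n).2) fun m _ n _ h3 => ?_).mono ?_
    · exact c3 m n _ (c2 m) (by
        dsimp only at h3
        rw [h3]
        exact c2 n)
    · rintro _ ⟨k, hk, rfl⟩
      exact mem_biUnion hk (c2 k)
  · rintro z ⟨h3, h4⟩
    obtain ⟨k, h5, h6⟩ := mem_iUnion₂.1 h3
    obtain ⟨k', h7, h8⟩ := mem_iUnion₂.1 h4
    obtain rfl := c3 _ _ _ h6 h8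
    exact mem_biUnion (x := k) ⟨h5, h7⟩ h6

theorem exists_tree [Countable G] (h1 : SeparableSpace (Ends G)) (h2 : ¬ MetrizableSpace (Ends G)) :
    ∃ T : TreeStr G, ∀ A, T.Good A ↔ A ∈ Com G := by
  have h3 : ¬ (Com G).Countable := fun h => h2 (metr h)
  have : Infinite G := not_finite_iff_infinite.1 fun _ => h3 (to_countable _)
  by_contra h4
  refine lf_not_sep (fun S hS => ?_) h1
  by_contra h5
  exact h4 (group_tree h3 hS h5)

theorem tree_sep [Countable G] (T : TreeStr G) (hT : ∀ A, T.Good A ↔ A ∈ Com G) :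
    SeparableSpace (Ends G) := by
  have e : ∀ n w, (T.child 0)^[n] (T.ofList w) = T.ofList (List.replicate n 0 ++ w) := by
    intro n w
    induction n with
    | zero => rfl
    | succ n ih =>
      rw [iterate_succ_apply', ih]
      rfl
  refine sep (fun x n => (T.child 0)^[n] x) (fun x m n h => ?_) fun A hA hI => ?_
  · obtain ⟨w, rfl⟩ := T.ofList_surjective x
    simp only [e] at h
    simpa using congrArg List.length (T.ofList_injective h)
  · by_contra h1
    push Not at h1
    have h2 := ((hT A).2 hA 0).preimage T.ofList_injective.injOn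
    refine hI (((h2.biUnion (t := fun v => {w | w ∈ v.tails}) fun v _ =>
      List.finite_toSet _).image T.ofList).subset fun x hx => ?_)
    obtain ⟨w, rfl⟩ := T.ofList_surjective x
    refine mem_image_of_mem _ ?_
    by_contra h3
    obtain ⟨n, hn⟩ := h1 (T.ofList w)
    refine hn ?_
    clear hn
    induction n with
    | zero => exact hx
    | succ n ih =>
      rw [iterate_succ_apply']
      by_contra h4
      refine h3 (mem_biUnion (x := List.replicate n 0 ++ w) (fun h5 => h4 ?_) ?_)
      · rw [e] at ih ⊢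
        exact h5.2 ih
      · exact (List.mem_tails _ _).2 (List.suffix_append _ _)

theorem tree_not_metr (T : TreeStr G) (hT : ∀ A, T.Good A ↔ A ∈ Com G) :
    ¬ MetrizableSpace (Ends G) := by
  have e : ∀ (I : Set ℕ) w, T.ofList w ∈ T.ofList '' {w | ∃ k ∈ I, w.getLast? = some k} ↔
      ∃ k ∈ I, w.getLast? = some k := fun I w => T.ofList_injective.mem_set_image
  refine not_metr (fun I => T.ofList '' {w | ∃ k ∈ I, w.getLast? = some k})
    (fun I => (hT _).1 fun c => (finite_singleton T.root).subset fun x hx => ?_) fun I J h => ?_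
  · obtain ⟨w, rfl⟩ := T.ofList_surjective x
    cases w with
    | nil => rfl
    | cons a w =>
      refine absurd ((e I (c :: a :: w)).trans (Iff.trans ?_ (e I _).symm)) hx
      rw [List.getLast?_cons_cons]
  · by_contra h1
    obtain ⟨m, hm⟩ : ∃ m, ¬ (m ∈ I ↔ m ∈ J) := not_forall.1 fun h' => h1 (Set.ext h')
    refine infinite_of_injective_forall_mem (f := fun a => T.ofList [a, m])
      (fun a b hab => (List.cons.inj (T.ofList_injective hab)).1) (fun a => ?_) h
    rw [mem_symmDiff, e, e]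
    simp only [List.getLast?_cons_cons, List.getLast?_singleton, Option.some.injEq,
      exists_eq_right']
    tauto

theorem free_iff (A : Set (FreeGroup ℕ)) : freeTree.Good A ↔ A ∈ Com (FreeGroup ℕ) :=
  (free_good_iff A).trans mem_Com.symm

theorem classification (G : Type) [Group G] [Countable G] :
    Nonempty (Ends G ≃ₜ Ends (FreeGroup ℕ)) ↔
      SeparableSpace (Ends G) ∧ ¬ MetrizableSpace (Ends G) := by
  constructor
  · rintro ⟨e⟩
    have := tree_sep freeTree free_iff
    exact ⟨e.symm.surjective.denseRange.separableSpace e.symm.continuous,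
      fun _ => tree_not_metr freeTree free_iff e.symm.isEmbedding.metrizableSpace⟩
  · rintro ⟨h1, h2⟩
    obtain ⟨T, hT⟩ := exists_tree h1 h2
    obtain ⟨e, he⟩ := T.exists_equiv_good freeTree
    exact homeo_of_equiv e fun B => (hT _).symm.trans ((he B).trans (free_iff B))

end

end Pool.Agent.P.MP_3ac48a_al.Cl
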