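import Pool.Agent.P.MP_3ac48a_al.ClMain

/-!
A free product of a sequence of nontrivial countable groups has a separable, non-metrizable space
of ends.
-/

namespace Pool.Agent.P.MP_3ac48a_al.Cl

open Set Function Classical TopologicalSpace Monoid Monoid.CoprodI

noncomputable section

variable {H : ℕ → Type} [∀ i, Group (H i)]

/-- The reduced word of an element, as a list. -/
def wd (x : CoprodI H) : List (Σ i, H i) := (Word.equiv x).toList

theorem wd_inj : Injective (wd (H := H)) := fun _ _ h => Word.equiv.injective (Word.ext h)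

theorem equiv_mul (g x : CoprodI H) : Word.equiv (g * x) = g • Word.equiv x :=
  mul_smul g x (Word.empty : Word H)

theorem equiv_one : Word.equiv (1 : CoprodI H) = Word.empty :=
  one_smul (CoprodI H) Word.empty

theorem wd_cons {i : ℕ} {m : H i} (hm : m ≠ 1) {x : CoprodI H}
    (hx : (Word.equiv x).fstIdx ≠ some i) : wd (of m * x) = ⟨i, m⟩ :: wd x := by
  rw [wd, equiv_mul, ← Word.cons_eq_smul (h1 := hx) (h2 := hm)]
  rfl

theorem wd_of {i : ℕ} {m : H i} (hm : m ≠ 1) : wd (of m) = [⟨i, m⟩] := by
  have := wd_cons hm (x := 1) (by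
    rw [equiv_one]
    simp [Word.fstIdx, Word.empty])
  rw [mul_one] at this
  rw [this, wd, equiv_one]
  rfl

theorem countable_coprod [∀ i, Countable (H i)] : Countable (CoprodI H) := wd_inj.countable

theorem last_com (I : Set ℕ) :
    {x : CoprodI H | ∃ l ∈ (wd x).getLast?, l.1 ∈ I} ∈ Com (CoprodI H) := by
  refine mem_Com.2 fun g => ?_
  change g ∈ almStab (CoprodI H) {x : CoprodI H | ∃ l ∈ (wd x).getLast?, l.1 ∈ I}
  induction g using CoprodI.induction_on with
  | one => exact one_mem _
  | mul x y hx hy => exact mul_mem hx hy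
  | of i m =>
    refine (toFinite {1, of m⁻¹}).subset fun x hx => ?_
    by_contra h
    simp only [mem_insert_iff, mem_singleton_iff, not_or] at h
    refine hx ?_
    obtain ⟨a, y, hy, rfl⟩ : ∃ (a : H i) (y : CoprodI H), (Word.equiv y).fstIdx ≠ some i ∧
        x = of a * y := by
      refine ⟨(Word.equivPair i (Word.equiv x)).head,
        Word.equiv.symm (Word.equivPair i (Word.equiv x)).tail, ?_, Word.equiv.injective ?_⟩
      · rw [Equiv.apply_symm_apply]
        exact Word.Pair.fstIdx_ne _
      · rw [equiv_mul, Equiv.apply_symm_apply, Word.equivPair_head_smul_equivPair_tail]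
    simp only [smul_eq_mul, mem_ofPred_eq, ← mul_assoc, ← map_mul]
    by_cases h1 : y = 1
    · subst h1
      rw [mul_one] at h ⊢
      rw [mul_one, wd_of (m := a) fun e => h.1 (by rw [e, map_one]),
        wd_of (m := m * a) fun e => h.2 (by rw [eq_inv_of_mul_eq_one_right e])]
      simp
    · have h2 : wd y ≠ [] := fun e => h1 (Word.equiv.injective
        (equiv_one (H := H) ▸ Word.ext e))
      have key : ∀ b : H i, (wd (of b * y)).getLast? = (wd y).getLast? := fun b => by
        by_cases hb : b = 1
        · rw [hb, map_one, one_mul]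
        · rw [wd_cons hb hy, List.getLast?_cons_of_ne_nil h2]
      rw [key, key]

theorem coprod_hyp [∀ i, Countable (H i)] [∀ i, Nontrivial (H i)] :
    SeparableSpace (Ends (CoprodI H)) ∧ ¬ MetrizableSpace (Ends (CoprodI H)) := by
  have := countable_coprod (H := H)
  choose a ha using fun i => exists_ne (1 : H i)
  have h1 : ¬ MetrizableSpace (Ends (CoprodI H)) := by
    refine not_metr _ last_com fun I J h => ?_
    by_contra h1
    obtain ⟨m, hm⟩ : ∃ m, ¬ (m ∈ I ↔ m ∈ J) := not_forall.1 fun h' => h1 (Set.ext h')
    have e : ∀ n, wd (of (a (m + 1 + n)) * of (a m)) = [⟨_, a (m + 1 + n)⟩, ⟨_, a m⟩] := by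
      intro n
      rw [wd_cons (ha _), wd_of (ha m)]
      change Option.map _ (wd _).head? ≠ _
      rw [wd_of (ha m)]
      simp only [List.head?_cons, Option.map_some, ne_eq, Option.some.injEq]
      omega
    refine infinite_of_injective_forall_mem (f := fun n => of (a (m + 1 + n)) * of (a m))
      (fun k n hkn => ?_) (fun n => ?_) h
    · have h2 := congrArg wd hkn
      simp only [e] at h2
      have h3 := congrArg Sigma.fst (List.cons.inj h2).1
      simpa using h3
    · simp only [mem_symmDiff, mem_ofPred_eq, e, List.getLast?_cons_cons, List.getLast?_singleton,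
        Option.mem_def, Option.some.injEq, exists_eq_left']
      tauto
  obtain ⟨T, hT⟩ := group_tree (fun h => h1 (metr h)) (toFinite {of (a 0), of (a 1)}) fun h => by
    obtain ⟨x, hx, h2⟩ := exists_max_image _ (fun x => (wd x).length) h ⟨1, (rel_eqv _).refl _⟩
    have key : ∀ i, of (a i) ∈ ({of (a 0), of (a 1)} : Set (CoprodI H)) →
        (Word.equiv x).fstIdx = some i := fun i hi => by
      by_contra h3
      have h4 := h2 _ ((rel_eqv _).trans hx (rel_mul hi x))
      rw [wd_cons (ha i) h3] at h4
      simp at h4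
    simpa using (key 0 (Or.inl rfl)).symm.trans (key 1 (Or.inr rfl))
  exact ⟨tree_sep T hT, h1⟩

end

end Pool.Agent.P.MP_3ac48a_al.Cl
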