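import Pool.Agent.P.MP_3ac48a_al.ClBuild

/-!
The inductive level: every point of a piece gets exactly one new child piece.
-/

namespace Pool.Agent.P.MP_3ac48a_al.Cl

open Set Function Classical

set_option linter.unusedSectionVars false

noncomputable section

variable {X : Type} [Nonempty X]

/-- The data of two consecutive levels: the pieces are the `r`-classes inside `W`. -/
structure Pair (B : Set (Set X)) (r : X → X → Prop) (W : Set X) (A : ℕ → Set X) : Prop where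
  alg : IsAlg B
  eqv : Equivalence r
  memW : W ∈ B
  satW : Sat r W
  neW : W.Nonempty
  memA : ∀ k, A k ∈ B
  enum : ∀ D ∈ B, D ⊆ W → ∃ k, A k = D
  e1 : ∀ D ∈ B, ∃ F : Set X, F.Finite ∧ ∀ x ∈ W, ∀ y, r x y → x ∈ D → y ∉ D → ∃ f ∈ F, r x f
  e2 : ∀ x ∈ W, ∀ y ∈ W, ¬ r x y → ∃ C ∈ B, Sat r C ∧ x ∈ C ∧ y ∉ C
  e5 : ∀ D ∈ B, ∀ p ∈ W, (∀ z ∈ D, r p z) → D.Finite
  e6 : ∀ x ∈ W, {y | r x y}.Infinite

theorem lt_of_not {ι : X → ℕ} (hι : Injective ι) {r : X → X → Prop} (hr : Equivalence r)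
    {D : Set X} {z : X} (hz : z ∈ D) (h : ¬ r (mn ι D) z) : ι (mn ι D) < ι z := by
  refine lt_of_le_of_ne (mn_le ι hz) fun e => h ?_
  rw [hι e]
  exact hr.refl _

theorem le_branch {f : ℕ → ℕ} (h : ∀ j, f j < f (j + 1)) (j : ℕ) : j ≤ f j :=
  (strictMono_nat_of_lt_succ h).id_le j

namespace Pair

variable {B : Set (Set X)} {r : X → X → Prop} {W : Set X} {A : ℕ → Set X} (H : Pair B r W A)
  {ι : X → ℕ} (hι : Injective ι)
include H hι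

theorem one {D : Set X} (hs : Sat r D) (hB : D ∈ B) (hW : D ⊆ W) {p : X} (hp : p ∈ D) (m : ℕ) :
    ∃ E : X → Set X, (∀ y, r p y → (E y).Nonempty ∧ Sat r (E y) ∧ E y ∈ B ∧
        (∀ z ∈ E y, z ∈ D ∧ ¬ r p z) ∧ ∀ k ≤ m, Sat r (A k ∩ D) → NS (A k) (E y)) ∧
      (∀ y y' z, r p y → r p y' → z ∈ E y → z ∈ E y' → y = y') ∧
      (∀ z ∈ D, ¬ r p z → ∃ y, r p y ∧ z ∈ E y) ∧
      ∀ C ∈ B, {y | r p y ∧ ¬ NS C (insert y (E y))}.Finite := by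
  have hr := H.eqv
  have hA := H.alg
  obtain ⟨V, hV⟩ : ∃ V : Set X, ∀ z, z ∈ V ↔ z ∈ D ∧ ¬ r p z := ⟨{z | _}, fun _ => Iff.rfl⟩
  have sV : Sat r V := fun x y h hx =>
    (hV y).2 ⟨hs h ((hV x).1 hx).1, fun h' => ((hV x).1 hx).2 (hr.trans h' (hr.symm h))⟩
  have VW : V ⊆ W := fun z hz => hW ((hV z).1 hz).1
  obtain ⟨good, hg⟩ : ∃ good : ℕ → Prop, ∀ k, good k ↔ A k ⊆ V ∧ Sat r (A k) :=
    ⟨_, fun _ => Iff.rfl⟩
  obtain ⟨s, s1, s2, s3⟩ : ∃ s : X → ℕ, (∀ z ∈ V, good (s z) ∧ z ∈ A (s z)) ∧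
      (∀ z k, good k → z ∈ A k → s z ≤ k) ∧ ∀ z z', r z z' → s z = s z' := by
    refine ⟨fun z => sInf {k | good k ∧ z ∈ A k}, fun z hz => ?_,
      fun z k h1 h2 => Nat.sInf_le ⟨h1, h2⟩, fun z z' h => ?_⟩
    · refine Nat.sInf_mem (s := {k | good k ∧ z ∈ A k}) ?_
      obtain ⟨C, hC, h1, h2, h3⟩ := H.e2 z (VW hz) p (hW hp) fun h => ((hV z).1 hz).2 (hr.symm h)
      obtain ⟨k, hk⟩ := H.enum _ (hA.inter hC hB) (inter_subset_right.trans hW)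
      refine ⟨k, (hg k).2 ?_, hk ▸ ⟨h2, ((hV z).1 hz).1⟩⟩
      rw [hk]
      exact ⟨fun x hx => (hV x).2 ⟨hx.2, fun h => h3 (h1 (hr.symm h) hx.1)⟩,
        fun x y h hx => ⟨h1 h hx.1, hs h hx.2⟩⟩
    · exact congrArg sInf (Set.ext fun k =>
        and_congr_right fun h1 => ⟨((hg k).1 h1).2 h, ((hg k).1 h1).2 (hr.symm h)⟩)
  obtain ⟨U, hU⟩ : ∃ U : ℕ → Set X, ∀ i z, z ∈ U i ↔ z ∈ V ∧ s z = i :=
    ⟨fun i => {z | _}, fun _ _ => Iff.rfl⟩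
  have sU : ∀ i, Sat r (U i) := fun i x y h hx =>
    (hU i y).2 ⟨sV h ((hU i x).1 hx).1, (s3 x y h).symm.trans ((hU i x).1 hx).2⟩
  have bU : ∀ i, U i ∈ B := fun i => by
    have h1 := hA.all (finite_Iic i)
      (p := fun k z => (k < i → good k → z ∉ A k) ∧ (k = i → good k ∧ z ∈ A k))
      fun k _ => hA.fn (H.memA k) fun q => (k < i → good k → ¬ q) ∧ (k = i → good k ∧ q)
    refine (?_ : _ = U i) ▸ h1
    ext z
    rw [hU]
    constructor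
    · intro h
      obtain ⟨h2, h3⟩ := (h i (le_refl i)).2 rfl
      have h4 := ((hg i).1 h2).1 h3
      refine ⟨h4, le_antisymm (s2 z i h2 h3) (not_lt.1 fun h5 => ?_)⟩
      exact (h _ h5.le).1 h5 (s1 z h4).1 (s1 z h4).2
    · rintro ⟨h2, rfl⟩ k _
      exact ⟨fun h3 h4 h5 => absurd (s2 z k h4 h5) (not_le.2 h3), fun h => h ▸ s1 z h2⟩
  obtain ⟨cl, hc⟩ : ∃ cl : X → Set X, ∀ z w, w ∈ cl z ↔ w ∈ U (s z) ∧
      ∀ k ∈ Iic (s z + m), Sat r (A k ∩ U (s z)) → (w ∈ A k ↔ z ∈ A k) :=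
    ⟨fun z => {w | _}, fun _ _ => Iff.rfl⟩
  have c1 : ∀ z ∈ V, z ∈ cl z := fun z hz => (hc z z).2 ⟨(hU _ _).2 ⟨hz, rfl⟩, fun _ _ _ => Iff.rfl⟩
  have c2 : ∀ z w, w ∈ cl z → w ∈ V ∧ s w = s z := fun z w h => (hU _ _).1 ((hc z w).1 h).1
  have c3 : ∀ z w, w ∈ cl z → cl w = cl z := fun z w h => by
    ext v
    rw [hc, hc, (c2 z w h).2]
    exact and_congr_right fun _ => forall₃_congr fun k h1 h2 => by rw [((hc z w).1 h).2 k h1 h2]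
  have c4 : ∀ z, Sat r (cl z) := fun z x y h hx => by
    obtain ⟨h1, h2⟩ := (hc z x).1 hx
    refine (hc z y).2 ⟨sU _ h h1, fun k hk h3 => Iff.trans ?_ (h2 k hk h3)⟩
    exact ⟨fun h4 => (h3 (hr.symm h) ⟨h4, sU _ h h1⟩).1, fun h4 => (h3 h ⟨h4, h1⟩).1⟩
  have c5 : ∀ z, cl z ∈ B := fun z => by
    have h1 := hA.inter (bU (s z)) (hA.all (finite_Iic (s z + m))
      (p := fun k w => Sat r (A k ∩ U (s z)) → (w ∈ A k ↔ z ∈ A k))
      fun k _ => hA.fn (H.memA k) fun q => Sat r (A k ∩ U (s z)) → (q ↔ z ∈ A k))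
    refine (?_ : _ = cl z) ▸ h1
    ext w
    exact (hc z w).symm
  have c6 : ∀ z k, k ≤ s z + m → Sat r (A k ∩ U (s z)) → NS (A k) (cl z) :=
    fun z k h1 h2 x hx y hy h3 => (((hc z y).1 hy).2 k h1 h2).2 ((((hc z x).1 hx).2 k h1 h2).1 h3)
  obtain ⟨Y, hY⟩ : ∃ Y : Set X, ∀ z, z ∈ Y ↔ z ∈ V ∧ mn ι (cl z) = z := ⟨{z | _}, fun _ => Iff.rfl⟩
  have y1 : ∀ z ∈ V, mn ι (cl z) ∈ cl z := fun z hz => mn_mem ι ⟨z, c1 z hz⟩
  have y2 : ∀ z ∈ V, mn ι (cl z) ∈ Y := fun z hz =>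
    (hY _).2 ⟨(c2 _ _ (y1 z hz)).1, by rw [c3 _ _ (y1 z hz)]⟩
  have y3 : ∀ z ∈ Y, ∀ w ∈ Y, cl z = cl w → z = w := fun z hz w hw h => by
    rw [← ((hY z).1 hz).2, h, ((hY w).1 hw).2]
  have b1 : ∀ i, {z ∈ Y | s z ≤ i}.Finite := fun i => by
    refine Set.Finite.of_finite_image (f := fun z => (s z, fun k : Fin (i + m + 1) => z ∈ A k))
      (((finite_Iic i).prod finite_univ).subset ?_) fun z hz w hw h => ?_
    · rintro _ ⟨z, hz, rfl⟩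
      exact ⟨hz.2, trivial⟩
    · obtain ⟨h1, h2⟩ := Prod.mk.inj h
      refine y3 z hz.1 w hw.1 (c3 _ _ ((hc w z).2 ⟨(hU _ _).2 ⟨((hY z).1 hz.1).1, h1⟩, ?_⟩))
      intro k hk _
      have h3 : k ≤ s w + m := hk
      have h4 : s w ≤ i := hw.2
      exact (congrFun h2 ⟨k, by omega⟩).to_iff
  have b2 : ∀ k, ∃ i, ∀ z, i < s z → NS (A k) (cl z) := fun k => by
    obtain ⟨F, hF, h1⟩ := H.e1 _ (H.memA k)
    obtain ⟨n, hn⟩ := exists_bound s hF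
    refine ⟨k + n, fun z hz => c6 z k (by omega) fun x y h hx => ⟨?_, sU _ h hx.2⟩⟩
    by_contra h2
    obtain ⟨f, h3, h4⟩ := h1 x (VW ((hU _ _).1 hx.2).1) y h hx.1 h2
    have h5 := hn f h3
    rw [← s3 x f h4, ((hU _ _).1 hx.2).2] at h5
    omega
  have b3 : ∀ C ∈ B, (C ∩ {y | r p y}).Finite ↔ (C ∩ Y).Finite := fun C hC => by
    constructor
    · intro h
      have h1 := hA.diff (hA.inter hC hB) (hA.fin h)
      have h2 : (C ∩ D) \ (C ∩ {y | r p y}) ⊆ V := fun z hz =>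
        (hV z).2 ⟨hz.1.2, fun h => hz.2 ⟨hz.1.1, h⟩⟩
      obtain ⟨F, hF, h3⟩ := H.e1 _ h1
      have h4 := hA.union h1 (hA.biUnion (hF.inter_of_left V) (f := fun f => A (s f))
        fun f _ => H.memA _)
      have h5 : ((C ∩ D) \ (C ∩ {y | r p y})) ∪ ⋃ f ∈ F ∩ V, A (s f) ⊆ V :=
        union_subset h2 (iUnion₂_subset fun f hf => ((hg _).1 (s1 f hf.2).1).1)
      obtain ⟨k, hk⟩ := H.enum _ h4 (h5.trans VW)
      have h6 : good k := by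
        refine (hg k).2 ⟨hk ▸ h5, hk ▸ ?_⟩
        rintro x y hxy (hx | hx)
        · by_contra h7
          rw [mem_union, not_or] at h7
          obtain ⟨f, h8, h9⟩ := h3 x (VW (h2 hx)) y hxy hx h7.1
          have h10 := sV h9 (h2 hx)
          exact h7.2 (mem_biUnion (x := f) ⟨h8, h10⟩ (((hg _).1 (s1 f h10).1).2
            (hr.trans (hr.symm h9) hxy) (s1 f h10).2))
        · obtain ⟨f, hf, h7⟩ := mem_iUnion₂.1 hx
          exact Or.inr (mem_biUnion hf (((hg _).1 (s1 f hf.2).1).2 hxy h7))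
      refine (b1 k).subset fun z hz => ⟨hz.2, s2 z k h6 ?_⟩
      have h7 := (hV z).1 ((hY z).1 hz.2).1
      rw [hk]
      exact Or.inl ⟨⟨hz.1, h7.1⟩, fun h => h7.2 h.2⟩
    · intro h
      obtain ⟨k, hk⟩ := H.enum _ (hA.inter hC H.memW) inter_subset_right
      obtain ⟨i, hi⟩ := b2 k
      obtain ⟨n, hn⟩ := exists_bound s h
      have h1 : ∀ z ∈ V, z ∈ C → s z ≤ i + n := fun z hz hzC => by
        by_contra h1
        have h2 := hi z (by omega) (c1 z hz) (y1 z hz) (hk ▸ ⟨hzC, VW hz⟩)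
        rw [hk] at h2
        have h3 := hn _ ⟨h2.1, y2 z hz⟩
        rw [(c2 _ _ (y1 z hz)).2] at h3
        omega
      have h2 := hA.diff (hA.inter hC hB) (hA.biUnion (finite_Iic (i + n)) fun j _ => bU j)
      refine (H.e5 _ h2 p (hW hp) fun z hz => ?_).subset fun z hz => ⟨⟨hz.1, hs hz.2 hp⟩, ?_⟩
      · by_contra h3
        have h4 := (hV z).2 ⟨hz.1.2, h3⟩
        exact hz.2 (mem_biUnion (h1 z h4 hz.1.1) ((hU _ _).2 ⟨h4, rfl⟩))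
      · intro h3
        obtain ⟨j, _, h4⟩ := mem_iUnion₂.1 h3
        exact ((hV z).1 ((hU _ _).1 h4).1).2 hz.2
  obtain ⟨β, hβ, hβ'⟩ := exists_match hι hA A H.memA (H.e6 p (hW hp)) b3
  have βV : ∀ y, r p y → β y ∈ V := fun y hy => ((hY _).1 (hβ.mapsTo hy)).1
  refine ⟨fun y => cl (β y), fun y hy => ⟨⟨_, c1 _ (βV y hy)⟩, c4 _, c5 _,
    fun z hz => (hV z).1 (c2 _ _ hz).1, fun k hk h => c6 _ k (by omega) ?_⟩,
    fun y y' z hy hy' h h' => ?_, fun z hz h => ?_, fun C hC => ?_⟩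
  · exact fun x z h1 hx => ⟨(h h1 ⟨hx.1, ((hV x).1 ((hU _ _).1 hx.2).1).1⟩).1, sU _ h1 hx.2⟩
  · exact hβ.injOn hy hy' (y3 _ (hβ.mapsTo hy) _ (hβ.mapsTo hy')
      ((c3 _ _ h).symm.trans (c3 _ _ h')))
  · have h1 := (hV z).2 ⟨hz, h⟩
    obtain ⟨y, hy, h2⟩ := hβ.surjOn (y2 z h1)
    refine ⟨y, hy, ?_⟩
    simp only [h2, c3 _ _ (y1 z h1)]
    exact c1 z h1
  · obtain ⟨k, hk⟩ := H.enum _ (hA.inter hC H.memW) inter_subset_right
    obtain ⟨i, hi⟩ := b2 k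
    have f1 : {y | r p y ∧ s (β y) ≤ i}.Finite :=
      Set.Finite.of_finite_image (f := β) ((b1 i).subset (by
        rintro _ ⟨y, hy, rfl⟩
        exact ⟨hβ.mapsTo hy.1, hy.2⟩)) (hβ.injOn.mono fun y hy => hy.1)
    refine ((hβ' k).union f1).subset ?_
    rintro y ⟨hy, h⟩
    by_contra h1
    simp only [mem_union, mem_ofPred_eq, not_or, not_and, not_not, not_le] at h1
    have h2 : ∀ z ∈ insert y (cl (β y)), z ∈ W ∧ (z ∈ A k ↔ β y ∈ A k) := by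
      rintro z (rfl | hz)
      · exact ⟨hW (hs hy hp), h1.1 hy⟩
      · exact ⟨VW (c2 _ _ hz).1, (hi _ (h1.2 hy)).iff hz (c1 _ (βV y hy))⟩
    refine h fun x hx z hz h3 => ?_
    have h4 := (h2 z hz).2.2 ((h2 x hx).2.1 (hk ▸ ⟨h3, (h2 x hx).1⟩))
    rw [hk] at h4
    exact h4.1

theorem step : ∃ ch : Unit → X → X, Lvl ι B r W ch := by
  let Adm : Set X → Prop := fun D => D.Nonempty ∧ Sat r D ∧ D ∈ B ∧ D ⊆ W
  have h1 := fun (D : Set X) (hD : Adm D) =>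
    H.one hι hD.2.1 hD.2.2.1 hD.2.2.2 (mn_mem ι hD.1) (ι (mn ι D))
  choose! E e1 e2 e3 e4 using h1
  refine Dec.lvl (Adm := Adm) (E := fun D y _ => E D y) ⟨fun h => h.1, fun h => h.2.1,
    fun h => h.2.2.1, fun _ hD hy => ?_, fun hD hy hz => (e1 _ hD _ hy).2.2.2.1 _ hz,
    fun hD hy hy' h h' => ⟨e2 _ hD _ _ _ hy hy' h h', rfl⟩, fun hD hz h => ?_, fun hD hC => ?_,
    fun d hd C hC => ?_⟩ hι H.eqv H.alg ⟨H.neW, H.satW, H.memW, Subset.rfl⟩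
  · obtain ⟨h1, h2, h3, h4, -⟩ := e1 _ hD _ hy
    exact ⟨h1, h2, h3, fun z hz => hD.2.2.2 (h4 z hz).1⟩
  · obtain ⟨y, hy, h1⟩ := e3 _ hD _ hz h
    exact ⟨y, (), hy, h1⟩
  · exact (e4 _ hD _ hC).subset fun y hy => ⟨hy.1, hy.2.choose_spec⟩
  · obtain ⟨k, hk⟩ := H.enum _ (H.alg.inter hC H.memW) inter_subset_right
    obtain ⟨F, hF, h1⟩ := H.e1 _ (H.memA k)
    obtain ⟨n, hn⟩ := exists_bound ι hF
    have h2 := le_branch (f := fun j => ι (mn ι (d j))) (fun j => by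
      obtain ⟨a, y, _, hy, h⟩ := hd j
      have h3 := mn_mem ι (hd (j + 1)).1.1
      have h4 := (e1 _ a _ hy).2.2.2.1 (mn ι (d (j + 1))) (by rw [h] at h3 ⊢; exact h3)
      exact lt_of_not hι H.eqv h4.1 h4.2) (k + n)
    obtain ⟨a, y, _, hy, h⟩ := hd (k + n)
    have h3 := (e1 _ a _ hy).2.2.2.2 k (by omega) fun x z hxz hx => ⟨by
      by_contra h3
      obtain ⟨f, h4, h5⟩ := h1 x (a.2.2.2 hx.2) z hxz hx.1 h3
      have h6 := mn_le ι (a.2.1 h5 hx.2)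
      have h7 := hn f h4
      omega, a.2.1 hxz hx.2⟩
    refine ⟨k + n + 1, fun x hx z hz h4 => ?_⟩
    have h5 := h3 (h ▸ hx) (h ▸ hz) (hk ▸ ⟨h4, (hd (k + n + 1)).1.2.2.2 hx⟩)
    rw [hk] at h5
    exact h5.1

end Pair

end

end Pool.Agent.P.MP_3ac48a_al.Cl
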