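import Pool.Agent.P.MP_3ac48a_al.ClGroup

/-!
Criteria for separability and metrizability of the space of ends.
-/

namespace Pool.Agent.P.MP_3ac48a_al.Cl

open Set Function Classical TopologicalSpace PrimeSpectrum

noncomputable section

variable {G : Type} [Group G] {A B : Set G}

/-- The class of a commensurated set modulo finite sets. -/
def cls (A : Set G) (hA : A ∈ Com G) : AsBoolRing (commAlg G) ⧸ finIdeal G :=
  Ideal.Quotient.mk _ (toBoolRing ⟨A, hA⟩)

theorem cls_surj (q : AsBoolRing (commAlg G) ⧸ finIdeal G) : ∃ A hA, cls A hA = q := by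
  obtain ⟨a, rfl⟩ := Ideal.Quotient.mk_surjective q
  exact ⟨_, (ofBoolRing a).2, rfl⟩

theorem cls_idem (q : AsBoolRing (commAlg G) ⧸ finIdeal G) : IsIdempotentElem q := by
  obtain ⟨a, rfl⟩ := Ideal.Quotient.mk_surjective q
  exact (BooleanRing.isIdempotentElem a).map _

theorem cls_eq_zero (hA : A ∈ Com G) : cls A hA = 0 ↔ A.Finite :=
  Ideal.Quotient.eq_zero_iff_mem

theorem cls_mul (hA : A ∈ Com G) (hB : B ∈ Com G) :
    cls A hA * cls B hB = cls (A ∩ B) (com_alg.inter hA hB) := by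
  unfold cls
  rw [← map_mul, ← toBoolRing_inf]
  rfl

theorem cls_eq (hA : A ∈ Com G) (hB : B ∈ Com G) (h : cls A hA = cls B hB) :
    (symmDiff A B).Finite := by
  have h1 : ((ofBoolRing (toBoolRing (⟨A, hA⟩ : commAlg G) - toBoolRing ⟨B, hB⟩) : commAlg G) :
    Set G).Finite := Ideal.Quotient.eq.1 h
  rwa [ofBoolRing_sub, coe_symmDiff] at h1

theorem metr (h : (Com G).Countable) : MetrizableSpace (Ends G) := by
  change MetrizableSpace (PrimeSpectrum (AsBoolRing (commAlg G) ⧸ finIdeal G))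
  have := h.to_subtype
  have : Countable (AsBoolRing (commAlg G) ⧸ finIdeal G) :=
    Surjective.countable (f := fun A : Com G => cls A.1 A.2) fun q => by
      obtain ⟨A, hA, rfl⟩ := cls_surj q
      exact ⟨⟨A, hA⟩, rfl⟩
  have := (isTopologicalBasis_basic_opens
    (R := AsBoolRing (commAlg G) ⧸ finIdeal G)).secondCountableTopology (countable_range _)
  have : T2Space (PrimeSpectrum (AsBoolRing (commAlg G) ⧸ finIdeal G)) := by
    have key : ∀ p q : PrimeSpectrum (AsBoolRing (commAlg G) ⧸ finIdeal G),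
        ¬ p.asIdeal ≤ q.asIdeal → ∃ U, IsClopen U ∧ q ∈ U ∧ p ∉ U := fun p q h => by
      obtain ⟨a, h1, h2⟩ := SetLike.not_le_iff_exists.1 h
      exact ⟨_, isClopen_basicOpen_of_mul_add a (1 - a) (cls_idem a).mul_one_sub_self
        (add_sub_cancel _ _), h2, fun h3 => h3 h1⟩
    have : TotallySeparatedSpace (PrimeSpectrum (AsBoolRing (commAlg G) ⧸ finIdeal G)) := by
      refine totallySeparatedSpace_iff_exists_isClopen.2 fun p q hpq => ?_
      by_cases h1 : p.asIdeal ≤ q.asIdeal
      · obtain ⟨U, h2, h3, h4⟩ := key q p fun h2 => hpq (PrimeSpectrum.ext (le_antisymm h1 h2))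
        exact ⟨U, h2, h3, h4⟩
      · obtain ⟨U, h2, h3, h4⟩ := key p q h1
        exact ⟨Uᶜ, h2.compl, h4, not_not.2 h3⟩
    infer_instance
  infer_instance

theorem uncountable_set : Uncountable (Set ℕ) := by
  refine ⟨fun h => ?_⟩
  obtain ⟨f, hf⟩ := exists_surjective_nat (Set ℕ)
  exact cantor_surjective f hf

theorem not_metr (D : Set ℕ → Set G) (hD : ∀ I, D I ∈ Com G)
    (h : ∀ I J, (symmDiff (D I) (D J)).Finite → I = J) : ¬ MetrizableSpace (Ends G) := by
  change ¬ MetrizableSpace (PrimeSpectrum (AsBoolRing (commAlg G) ⧸ finIdeal G))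
  intro hm
  have h1 := fun I => eq_sUnion_finset_of_isTopologicalBasis_of_isCompact_open _
    (isBasis_countableBasis _) _ (isCompact_basicOpen (cls _ (hD I))) (basicOpen _).2
  choose t ht using h1
  refine uncountable_set.1 (Injective.countable (f := t) fun I J e => h I J (cls_eq (hD I) (hD J)
    (basicOpen_injOn_isIdempotentElem (cls_idem _) (cls_idem _) (Opens.ext ?_))))
  rw [ht I, ht J, e]

theorem open_nonempty (hA : A ∈ Com G) (h : A.Infinite) :
    (SetLike.coe (basicOpen (cls A hA))).Nonempty := by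
  rw [← Opens.ne_bot_iff_nonempty, Ne, basicOpen_eq_bot_iff]
  exact fun h1 => h ((cls_eq_zero hA).1 ((cls_idem _).eq_zero_of_isNilpotent h1))

theorem not_sep (D : Set ℕ → Set G) (hD : ∀ I, D I ∈ Com G) (h1 : ∀ I, (D I).Infinite)
    (h2 : ∀ I J, I ≠ J → (D I ∩ D J).Finite) : ¬ SeparableSpace (Ends G) := by
  change ¬ SeparableSpace (PrimeSpectrum (AsBoolRing (commAlg G) ⧸ finIdeal G))
  intro hs
  refine uncountable_set.1 (Pairwise.countable_of_isOpen_disjoint
    (s := fun I => SetLike.coe (basicOpen (cls _ (hD I)))) (fun I J h => ?_)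
    (fun I => (basicOpen _).2) fun I => open_nonempty _ (h1 I))
  rw [onFun, Opens.coe_disjoint, disjoint_iff, ← basicOpen_mul, cls_mul,
    (cls_eq_zero _).2 (h2 I J h), basicOpen_zero]

theorem exists_point (u : Ultrafilter G) (hu : ∀ A : Set G, A.Finite → A ∉ u) :
    ∃ p : PrimeSpectrum (AsBoolRing (commAlg G) ⧸ finIdeal G),
      ∀ A hA, A ∈ u → p ∈ basicOpen (cls A hA) := by
  let I : Ideal (AsBoolRing (commAlg G)) :=
    { carrier := {a | ((ofBoolRing a : commAlg G) : Set G) ∉ u}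
      add_mem' := fun {a b} ha hb h => by
        rw [ofBoolRing_add, coe_symmDiff] at h
        exact (Ultrafilter.union_mem_iff.1 (Filter.mem_of_superset h symmDiff_le_sup)).elim ha hb
      zero_mem' := hu _ (fin_zero G)
      smul_mem' := fun c a ha h => by
        rw [smul_eq_mul, ofBoolRing_mul] at h
        exact ha (Filter.mem_of_superset h inf_le_right) }
  have h1 : finIdeal G ≤ I := fun a ha => hu _ ha
  have : I.IsPrime := by
    refine ⟨(Ideal.ne_top_iff_one _).2 fun h => h Filter.univ_mem, fun {a b} h => ?_⟩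
    by_contra h2
    rw [not_or] at h2
    exact h (Filter.inter_mem (not_not.1 h2.1) (not_not.1 h2.2))
  exact ⟨⟨_, Ideal.isPrime_map_quotientMk_of_isPrime h1⟩,
    fun A hA h h2 => (Ideal.mem_quotient_iff_mem h1).1 h2 h⟩

theorem sep [Countable G] (f : G → ℕ → G) (hf : ∀ x, Injective (f x))
    (h : ∀ A ∈ Com G, A.Infinite → ∃ x, ∀ n, f x n ∈ A) : SeparableSpace (Ends G) := by
  change SeparableSpace (PrimeSpectrum (AsBoolRing (commAlg G) ⧸ finIdeal G))
  have h1 := fun x => exists_point ((Filter.hyperfilter ℕ).map (f x)) fun A hA =>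
    (hA.preimage (hf x).injOn).notMem_hyperfilter
  choose p hp using h1
  refine ⟨⟨range p, countable_range p, isTopologicalBasis_basic_opens.dense_iff.2 ?_⟩⟩
  rintro _ ⟨q, rfl⟩ hq
  obtain ⟨A, hA, rfl⟩ := cls_surj q
  obtain ⟨x, hx⟩ := h A hA fun h2 => by
    simp [(cls_eq_zero hA).2 h2] at hq
  exact ⟨p x, hp x A hA (Filter.mem_map.2 (Filter.univ_mem' hx)), x, rfl⟩

end

end Pool.Agent.P.MP_3ac48a_al.Cl
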