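import Mathlib

/-!
Coloured rooted trees: every vertex has exactly one child of each colour `k : ℕ`.
Any two such structures are isomorphic.
-/

namespace Pool.Agent.P.MP_3ac48a_al

open Set

/-- `A` is almost invariant under the self-map `f`. -/
def AlmInv {X : Type} (A : Set X) (f : X → X) : Prop := {x | ¬ (f x ∈ A ↔ x ∈ A)}.Finite

/-- A rooted tree structure in which each vertex has exactly one child of each colour. -/
structure TreeStr (X : Type) where
  root : X
  child : ℕ → X → X
  inj : ∀ k x k' x', child k x = child k' x' → k = k' ∧ x = x'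
  ne_root : ∀ k x, child k x ≠ root
  ind : ∀ P : X → Prop, P root → (∀ k x, P x → P (child k x)) → ∀ x, P x

namespace TreeStr

variable {X Y : Type}

def ofList (T : TreeStr X) : List ℕ → X
  | [] => T.root
  | k :: w => T.child k (ofList T w)

theorem ofList_injective (T : TreeStr X) : Function.Injective T.ofList := by
  intro w
  induction w with
  | nil =>
    intro w' h
    cases w' with
    | nil => rfl
    | cons k w' => exact absurd h.symm (T.ne_root _ _)
  | cons k w ih =>
    intro w' h
    cases w' with
    | nil => exact absurd h (T.ne_root _ _)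
    | cons k' w' =>
      obtain ⟨h1, h2⟩ := T.inj _ _ _ _ h
      rw [h1, ih h2]

theorem ofList_surjective (T : TreeStr X) : Function.Surjective T.ofList := by
  intro x
  refine T.ind (fun x => ∃ w, T.ofList w = x) ⟨[], rfl⟩ ?_ x
  rintro k x ⟨w, rfl⟩
  exact ⟨k :: w, rfl⟩

noncomputable def listEquiv (T : TreeStr X) : List ℕ ≃ X :=
  Equiv.ofBijective T.ofList ⟨T.ofList_injective, T.ofList_surjective⟩

theorem exists_equiv (T : TreeStr X) (T' : TreeStr Y) :
    ∃ e : X ≃ Y, ∀ k x, e (T.child k x) = T'.child k (e x) := by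
  refine ⟨T.listEquiv.symm.trans T'.listEquiv, fun k x => ?_⟩
  obtain ⟨w, rfl⟩ := T.listEquiv.surjective x
  have h : T.child k (T.listEquiv w) = T.listEquiv (k :: w) := rfl
  rw [h]
  simp only [Equiv.trans_apply, Equiv.symm_apply_apply]
  rfl

/-- `A` has finite boundary in every colour. -/
def Good (T : TreeStr X) (A : Set X) : Prop := ∀ k, AlmInv A (T.child k)

theorem exists_equiv_good (T : TreeStr X) (T' : TreeStr Y) :
    ∃ e : X ≃ Y, ∀ B : Set Y, T.Good (e ⁻¹' B) ↔ T'.Good B := by
  obtain ⟨e, he⟩ := exists_equiv T T'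
  refine ⟨e, fun B => forall_congr' fun k => ?_⟩
  unfold AlmInv
  have : {x | ¬ (T.child k x ∈ e ⁻¹' B ↔ x ∈ e ⁻¹' B)}
      = e ⁻¹' {y | ¬ (T'.child k y ∈ B ↔ y ∈ B)} := by
    ext x
    simp only [mem_preimage, mem_ofPred_eq, he]
  rw [this]
  constructor
  · intro h
    exact Finite.of_preimage h e.surjective
  · intro h
    exact h.preimage e.injective.injOn

end TreeStr

section Action

variable {G X : Type} [Group G] [MulAction G X]

/-- The elements of `G` that leave `A` almost invariant form a subgroup. -/
def almStab (G : Type) [Group G] [MulAction G X] (A : Set X) : Subgroup G where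
  carrier := {g | AlmInv A (fun x => g • x)}
  one_mem' := by
    simp [AlmInv]
  mul_mem' := by
    intro g h hg hh
    simp only [AlmInv, mem_ofPred_eq] at hg hh ⊢
    have h1 : ((fun x : X => h • x) ⁻¹' {x | ¬ (g • x ∈ A ↔ x ∈ A)}).Finite :=
      hg.preimage (MulAction.injective h).injOn
    refine (h1.union hh).subset ?_
    intro x hx
    simp only [mem_ofPred_eq, mem_union, mem_preimage, mul_smul] at hx ⊢
    tauto
  inv_mem' := by
    intro g hg
    simp only [AlmInv, mem_ofPred_eq] at hg ⊢
    have h1 : ((fun x : X => g⁻¹ • x) ⁻¹' {x | ¬ (g • x ∈ A ↔ x ∈ A)}).Finite :=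
      hg.preimage (MulAction.injective g⁻¹).injOn
    refine h1.subset ?_
    intro x hx
    simp only [mem_ofPred_eq, mem_preimage, smul_inv_smul] at hx ⊢
    tauto

theorem mem_almStab {A : Set X} {g : G} : g ∈ almStab G A ↔ AlmInv A (fun x => g • x) := Iff.rfl

end Action

end Pool.Agent.P.MP_3ac48a_al
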