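import Pool.Agent.P.MP_3ac48a_al.ClBase
import Pool.Agent.P.MP_3ac48a_al.Tree

/-!
Assembling the levels into one coloured tree.
-/

namespace Pool.Agent.P.MP_3ac48a_al.Cl

open Set Function Classical

set_option linter.unusedSectionVars false

noncomputable section

variable {X : Type} [Nonempty X]

/-- The sets that agree on `W` with a member of `U`. -/
def Tr (U : Set (Set X)) (W : Set X) : Set (Set X) := {D | ∃ A ∈ U, ∀ z ∈ W, z ∈ D ↔ z ∈ A}

theorem mem_Tr {U : Set (Set X)} {W A : Set X} (h : A ∈ U) : A ∈ Tr U W :=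
  ⟨A, h, fun _ _ => Iff.rfl⟩

theorem IsAlg.tr {U : Set (Set X)} (h : IsAlg U) (W : Set X) : IsAlg (Tr U W) := by
  refine ⟨?_, ?_, fun hA => mem_Tr (h.fin hA)⟩
  · rintro D ⟨A, hA, h1⟩
    exact ⟨Aᶜ, h.compl hA, fun z hz => not_congr (h1 z hz)⟩
  · rintro D D' ⟨A, hA, h1⟩ ⟨A', hA', h2⟩
    exact ⟨A ∪ A', h.union hA hA', fun z hz => or_congr (h1 z hz) (h2 z hz)⟩

/-- `A` splits only the classes of finitely many points. -/
def FinSplit (r : X → X → Prop) (A : Set X) : Prop :=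
  ∃ F : Set X, F.Finite ∧ ∀ x y, r x y → x ∈ A → y ∉ A → ∃ f ∈ F, r x f

theorem tree {U : Set (Set X)} (r : ℕ → X → X → Prop) (C : ℕ → Type) [∀ j, Finite (C j)]
    [∀ j, Nonempty (C j)] {ι : X → ℕ} (hι : Injective ι) (hU : IsAlg U)
    (eqv : ∀ n, Equivalence (r n)) (r0 : ∀ x y, r 0 x y → x = y)
    (mono : ∀ n x y, r n x y → r (n + 1) x y) (exh : ∀ x y, ∃ n, r n x y)
    (e1 : ∀ n, ∀ A ∈ U, FinSplit (r (n + 1)) A)
    (e4 : ∀ A, (∀ n, FinSplit (r n) A) →
      (∀ n x, ∃ A' ∈ U, ∀ y, r n x y → (y ∈ A ↔ y ∈ A')) → A ∈ U)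
    (hL : ∀ j x, ∃ ch : C j → X → X,
      Lvl ι (Tr U {z | r (j + 1) x z}) (r j) {z | r (j + 1) x z} ch) :
    ∃ T : TreeStr X, ∀ A, T.Good A ↔ A ∈ U := by
  have h0 : ∀ j (W : Set X), ∃ ch : C j → X → X,
      ∀ x, W = {z | r (j + 1) x z} → Lvl ι (Tr U W) (r j) W ch := fun j W => by
    by_cases h : ∃ x, W = {z | r (j + 1) x z}
    · obtain ⟨x, rfl⟩ := h
      obtain ⟨ch, h⟩ := hL j x
      exact ⟨ch, fun _ _ => h⟩
    · exact ⟨fun _ x => x, fun x hx => absurd ⟨x, hx⟩ h⟩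
  choose ch hch using h0
  have L := fun j x => hch j _ x rfl
  have cl : ∀ {j x y}, r j x y → {z | r j x z} = {z | r j y z} := fun {j x y} h =>
    Set.ext fun z => ⟨(eqv j).trans ((eqv j).symm h), (eqv j).trans h⟩
  have me : ∀ j x, x ∈ {z | r j x z} := fun j x => (eqv j).refl x
  have mono' : ∀ {j j' x y}, j ≤ j' → r j x y → r j' x y := fun {j j' x y} h h' => by
    induction h with
    | refl => exact h'
    | step _ ih => exact mono _ _ _ ih
  obtain ⟨K, hK⟩ : ∃ K : ∀ j, C j → X → X, ∀ j c x y, r (j + 1) x y →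
      K j c y = ch j {z | r (j + 1) x z} c y :=
    ⟨fun j c y => ch j {z | r (j + 1) y z} c y, fun j c x y h => by rw [cl h]⟩
  have K0 : ∀ j c y, K j c y = ch j {z | r (j + 1) y z} c y := fun j c y => hK j c y y (me _ y)
  have K1 : ∀ j c y, r (j + 1) y (K j c y) := fun j c y => by
    rw [K0]
    exact (L j y).mem c (me _ y)
  have K2 : ∀ j c y, mn ι {z | r j (K j c y) z} = K j c y := fun j c y => by
    rw [K0]
    exact (L j y).root c (me _ y)
  have K3 : ∀ j c y (D : Set X), {z | r (j + 1) (K j c y) z} ⊆ D → mn ι D ≠ K j c y := by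
    intro j c y D h e
    have h1 := mn_eq hι h (e ▸ me _ _)
    rw [← cl (K1 j c y), e, K0] at h1
    exact (L j y).nr c (me _ y) h1.symm
  have K4 : ∀ j c y j' c' y', K j c y = K j' c' y' → j' ≤ j := fun j c y j' c' y' h => by
    by_contra h1
    refine K3 j c y {z | r j' (K j c y) z} (fun z hz => mono' (not_le.1 h1) hz) ?_
    rw [h, K2]
  have ind : ∀ j x (Pr : X → Prop), (∀ y, r (j + 1) x y → Pr (mn ι {z | r j y z}) → Pr y) →
      (∀ y c, r (j + 1) x y → Pr y → Pr (K j c y)) → Pr (mn ι {z | r (j + 1) x z}) →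
      ∀ y, r (j + 1) x y → Pr y := fun j x Pr p1 p2 p3 =>
    (L j x).ind Pr p1 (fun y hy c h => hK j c x y hy ▸ p2 y c hy h) p3
  have : Infinite (Σ j, C j) := Infinite.of_surjective Sigma.fst fun j =>
    ⟨⟨j, Classical.arbitrary _⟩, rfl⟩
  obtain ⟨e⟩ : Nonempty (ℕ ≃ Σ j, C j) := nonempty_equiv_of_countable
  refine ⟨⟨mn ι univ, fun k => K (e k).1 (e k).2, fun k x k' x' h => ?_,
    fun k x h => K3 _ _ _ _ (subset_univ _) h.symm, fun P h1 h2 x => ?_⟩, fun A => ⟨?_, ?_⟩⟩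
  · have key : ∀ p q : Σ j, C j, K p.1 p.2 x = K q.1 q.2 x' → p = q ∧ x = x' := by
      rintro ⟨j, c⟩ ⟨j', c'⟩ h
      obtain rfl : j = j' := le_antisymm (K4 _ _ _ _ _ _ h.symm) (K4 _ _ _ _ _ _ h)
      have h1 : r (j + 1) x x' := (eqv _).trans (K1 j c x) (h ▸ (eqv _).symm (K1 j c' x'))
      dsimp only at h
      rw [K0, hK j c' x x' h1] at h
      obtain ⟨rfl, rfl⟩ := (L j x).inj (me _ x) h1 h
      exact ⟨rfl, rfl⟩
    exact ⟨e.injective (key _ _ h).1, (key _ _ h).2⟩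
  · have h3 : ∀ j c y, P y → P (K j c y) := fun j c y h => by
      have h4 := h2 (e.symm ⟨j, c⟩) y h
      rwa [e.apply_symm_apply] at h4
    have key : ∀ j x, P (mn ι {z | r j x z}) → P x := by
      intro j
      induction j with
      | zero => exact fun x h => r0 _ _ (mn_mem ι ⟨x, me 0 x⟩) ▸ h
      | succ j ih => exact fun x h => ind j x P (fun y _ => ih y) (fun y c _ => h3 j c y) h x (me _ x)
    obtain ⟨n, hn⟩ := exh x (mn ι univ)
    exact key n x (mn_eq hι (subset_univ _) hn ▸ h1)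
  · intro hA
    have h1 : ∀ j, {y | ∃ c, ¬ (K j c y ∈ A ↔ y ∈ A)}.Finite := fun j => by
      refine (finite_iUnion fun c : C j => hA (e.symm ⟨j, c⟩)).subset ?_
      rintro y ⟨c, hc⟩
      refine mem_iUnion.2 ⟨c, ?_⟩
      dsimp only
      rwa [e.apply_symm_apply]
    have h2 : ∀ n, FinSplit (r n) A := by
      intro n
      induction n with
      | zero => exact ⟨∅, finite_empty, fun x y h hx hy => absurd (r0 _ _ h ▸ hx) hy⟩
      | succ j ih =>
        obtain ⟨F, hF, h2⟩ := ih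
        refine ⟨_, hF.union (h1 j), fun x y h hx hy => ?_⟩
        by_contra hn'
        have hn := fun f h1 h2 => hn' ⟨f, h1, h2⟩
        have key := ind j x (fun w => w ∈ A ↔ mn ι {z | r (j + 1) x z} ∈ A) (fun w hw h3 => ?_)
          (fun w c hw h3 => ?_) Iff.rfl
        · exact hy ((key y h).2 ((key x (me _ x)).1 hx))
        · have h4 : r j w (mn ι {z | r j w z}) := mn_mem ι ⟨w, me j w⟩
          refine Iff.trans ⟨fun h5 => ?_, fun h5 => ?_⟩ h3
          · by_contra h6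
            obtain ⟨f, h7, h8⟩ := h2 _ _ h4 h5 h6
            exact hn f (Or.inl h7) ((eqv _).trans hw (mono _ _ _ h8))
          · by_contra h6
            obtain ⟨f, h7, h8⟩ := h2 _ _ ((eqv _).symm h4) h5 h6
            exact hn f (Or.inl h7) ((eqv _).trans hw (mono _ _ _ ((eqv _).trans h4 h8)))
        · refine Iff.trans ?_ h3
          by_contra h4
          exact hn w (Or.inr ⟨c, h4⟩) hw
    refine e4 A h2 fun n => ?_
    induction n with
    | zero =>
      intro x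
      by_cases h : x ∈ A
      · exact ⟨univ, hU.univ, fun y hy => by simpa [← r0 _ _ hy] using h⟩
      · exact ⟨∅, hU.empty, fun y hy => by simpa [← r0 _ _ hy] using h⟩
    | succ j ih =>
      intro x
      obtain ⟨F, hF, h3⟩ := h2 j
      obtain ⟨A', hA', h4⟩ := (L j x).tr A _ (hF.union (h1 j)) (fun w _ y h hw hy => by
          obtain ⟨f, h5, h6⟩ := h3 w y h hw hy
          exact ⟨f, Or.inl h5, h6⟩) (fun y hy h c => by
          rw [← hK j c x y hy]
          by_contra h5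
          exact h (Or.inr ⟨c, h5⟩)) fun w _ => by
        obtain ⟨A', h5, h6⟩ := ih w
        exact ⟨A', mem_Tr h5, h6⟩
      exact ⟨A', hA', fun y hy => (and_iff_left hy).symm.trans (h4 y hy)⟩
  · intro hA k
    obtain ⟨F, hF, h1⟩ := e1 (e k).1 A hA
    refine (hF.biUnion fun f _ => (L (e k).1 f).cut A (mem_Tr hA)).subset fun y hy => ?_
    have h2 := K1 (e k).1 (e k).2 y
    obtain ⟨f, h3, h4⟩ : ∃ f ∈ F, r ((e k).1 + 1) y f := by
      by_cases h : y ∈ A
      · exact h1 _ _ h2 h fun h' => hy (iff_of_true h' h)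
      · obtain ⟨f, h3, h4⟩ := h1 _ _ ((eqv _).symm h2) (by
          by_contra h'
          exact hy (iff_of_false h' h)) h
        exact ⟨f, h3, (eqv _).trans h2 h4⟩
    refine mem_biUnion h3 ⟨(eqv _).symm h4, (e k).2, ?_⟩
    rw [← hK _ _ f y ((eqv _).symm h4)]
    exact hy

/-- An exhausting chain of equivalence relations adapted to the algebra `U`. -/
structure Tower (U : Set (Set X)) (R : ℕ → X → X → Prop) : Prop where
  alg : IsAlg U
  eqv : ∀ n, Equivalence (R n)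
  mono : ∀ n x y, R n x y → R (n + 1) x y
  exh : ∀ x y, ∃ n, R n x y
  e1 : ∀ n, ∀ A ∈ U, FinSplit (R n) A
  e2 : ∀ n x y, ¬ R n x y → ∃ C ∈ U, Sat (R n) C ∧ x ∈ C ∧ y ∉ C
  e3 : ∀ n x, ((fun A => A ∩ {z | R n x z}) '' U).Countable
  e4 : ∀ A, (∀ n, FinSplit (R (n + 1)) A) →
    (∀ n x, ∃ A' ∈ U, ∀ y, R (n + 1) x y → (y ∈ A ↔ y ∈ A')) → A ∈ U
  e5 : ∀ n, ∀ A ∈ U, ∀ p, (∀ z ∈ A, R (n + 1) p z → R n p z) → {z ∈ A | R (n + 1) p z}.Finite
  e6 : ∀ n x, {y | R n x y}.Infinite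

theorem Tower.pair {U : Set (Set X)} {R : ℕ → X → X → Prop} (H : Tower U R) (n : ℕ) (x : X) :
    ∃ A, Pair (Tr U {z | R (n + 1) x z}) (R n) {z | R (n + 1) x z} A := by
  obtain ⟨A, hA⟩ := (H.e3 (n + 1) x).exists_eq_range ⟨_, univ, H.alg.univ, rfl⟩
  have sW : Sat (R n) {z | R (n + 1) x z} := fun y z h hy => (H.eqv _).trans hy (H.mono _ _ _ h)
  refine ⟨A, H.alg.tr _, H.eqv n, ⟨univ, H.alg.univ, fun z hz => iff_of_true hz trivial⟩, sW,
    ⟨x, (H.eqv _).refl x⟩, fun k => ?_, ?_, ?_, fun y _ z _ h => ?_, ?_, fun y _ => H.e6 n y⟩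
  · obtain ⟨D, h1, h2⟩ : A k ∈ (fun A => A ∩ {z | R (n + 1) x z}) '' U := hA ▸ mem_range_self k
    exact ⟨D, h1, fun z hz => h2 ▸ and_iff_left hz⟩
  · rintro D ⟨D', h1, h2⟩ h3
    have h4 : D ∈ (fun A => A ∩ {z | R (n + 1) x z}) '' U := ⟨D', h1, Set.ext fun z =>
      ⟨fun h => (h2 z h.2).2 h.1, fun h => ⟨(h2 z (h3 h)).1 h, h3 h⟩⟩⟩
    rwa [hA] at h4
  · rintro D ⟨D', h1, h2⟩
    obtain ⟨F, hF, h3⟩ := H.e1 n D' h1
    exact ⟨F, hF, fun y hy z h h4 h5 => h3 y z h ((h2 y hy).1 h4)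
      fun h6 => h5 ((h2 z (sW h hy)).2 h6)⟩
  · obtain ⟨C, h1, h2⟩ := H.e2 n y z h
    exact ⟨C, mem_Tr h1, h2⟩
  · rintro D ⟨D', h1, h2⟩ p hp h3
    refine (H.e5 n D' h1 p fun z hz h => h3 z ((h2 z ((H.eqv _).trans hp h)).2 hz)).subset
      fun z hz => ⟨(h2 z (sW (h3 z hz) hp)).1 hz, H.mono _ _ _ (h3 z hz)⟩

/-- Two colours at the first level and one at every later level. -/
def Col : ℕ → Type
  | 0 => Bool
  | _ + 1 => Unit

theorem Tower.tree [Countable X] {U : Set (Set X)} {R : ℕ → X → X → Prop} (H : Tower U R) :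
    ∃ T : TreeStr X, ∀ A, T.Good A ↔ A ∈ U := by
  obtain ⟨ι, hι⟩ := exists_injective_nat X
  have : ∀ j, Finite (Col j) := fun j => by
    cases j
    · exact inferInstanceAs (Finite Bool)
    · exact inferInstanceAs (Finite Unit)
  have : ∀ j, Nonempty (Col j) := fun j => by
    cases j
    · exact ⟨true⟩
    · exact ⟨()⟩
  refine Cl.tree (fun n => Nat.casesOn n Eq fun n => R (n + 1)) Col hι H.alg (fun n => ?_)
    (fun _ _ h => h) (fun n x y h => ?_) (fun x y => ?_) (fun n => H.e1 (n + 1))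
    (fun A h1 h2 => H.e4 A (fun n => h1 (n + 1)) fun n => h2 (n + 1)) fun j x => ?_
  · cases n
    · exact eq_equivalence
    · exact H.eqv _
  · cases n
    · exact (show x = y from h) ▸ (H.eqv 1).refl x
    · exact H.mono _ _ _ h
  · obtain ⟨n, hn⟩ := H.exh x y
    exact ⟨n + 1, H.mono _ _ _ hn⟩
  · obtain ⟨A, hA⟩ := H.pair j x
    cases j
    · exact hA.base hι
    · exact hA.step hι

end

end Pool.Agent.P.MP_3ac48a_al.Cl
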