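import Pool.Agent.P.MP_3ac48a_al.RkTree

/-!
The coloured tree on a free group of any infinite rank.
-/

namespace Pool.Agent.P.MP_3ac48a_al.Rk

open Set FreeGroup Classical Pool.Agent.P.MP_3ac48a_al.Cl

variable {I J : Type} (cd : I × Bool ≃ J × ℕ)

/-- The code of the letter of colour `k` that can be put in front of the word `L`. -/
noncomputable def shift (L : List (I × Bool)) (k : J × ℕ) : J × ℕ :=
  match L with
  | [] => k
  | l :: _ => if (cd (l.1, !l.2)).1 = k.1 ∧ (cd (l.1, !l.2)).2 ≤ k.2 then (k.1, k.2 + 1) else k

theorem shift_injective (L : List (I × Bool)) : Function.Injective (shift cd L) := by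
  rintro ⟨a, m⟩ ⟨b, n⟩ h
  cases L with
  | nil => exact h
  | cons l L =>
    simp only [shift] at h
    split_ifs at h with h1 h2 h2
    · simpa using h
    · obtain ⟨rfl, h3⟩ := Prod.mk.inj h
      exact absurd ⟨h1.1, by have := h1.2; omega⟩ h2
    · obtain ⟨rfl, h3⟩ := Prod.mk.inj h
      exact absurd ⟨h2.1, by have := h2.2; omega⟩ h1
    · exact h

theorem shift_cases (L : List (I × Bool)) (k : J × ℕ) :
    shift cd L k = k ∨ shift cd L k = (k.1, k.2 + 1) := by
  cases L with
  | nil => exact Or.inl rfl
  | cons l L =>
    simp only [shift]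
    split_ifs <;> simp

theorem isReduced_shift {L : List (I × Bool)} (hL : IsReduced L) (k : J × ℕ) :
    IsReduced (cd.symm (shift cd L k) :: L) := by
  cases L with
  | nil => exact IsReduced.singleton
  | cons l L =>
    rw [isReduced_cons_cons]
    refine ⟨fun h1 => ?_, hL⟩
    by_contra h2
    have h3 : cd.symm (shift cd (l :: L) k) = (l.1, !l.2) := by
      refine Prod.ext h1 ?_
      simp only
      revert h2
      cases (cd.symm (shift cd (l :: L) k)).2 <;> cases l.2 <;> simp
    have h4 : shift cd (l :: L) k = cd (l.1, !l.2) := by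
      rw [← h3, Equiv.apply_symm_apply]
    simp only [shift] at h4
    split_ifs at h4 with h5
    · have := h5.2
      rw [← h4] at this
      simp at this
    · exact h5 ⟨by rw [← h4], by rw [← h4]⟩

theorem exists_shift {L : List (I × Bool)} {l : I × Bool} (h : IsReduced (l :: L)) :
    ∃ k, shift cd L k = cd l := by
  cases L with
  | nil => exact ⟨_, rfl⟩
  | cons l' L =>
    rw [isReduced_cons_cons] at h
    have h1 : cd l ≠ cd (l'.1, !l'.2) := by
      intro h2
      have h3 : l = (l'.1, !l'.2) := cd.injective h2
      have h4 := h.1 (by rw [h3])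
      rw [h3] at h4
      simp at h4
    by_cases h2 : (cd (l'.1, !l'.2)).1 = (cd l).1 ∧ (cd (l'.1, !l'.2)).2 ≤ (cd l).2
    · have h3 : (cd (l'.1, !l'.2)).2 ≠ (cd l).2 := fun h3 => h1 (Prod.ext h2.1 h3).symm
      have h4 := h2.2
      refine ⟨((cd l).1, (cd l).2 - 1), ?_⟩
      simp only [shift]
      rw [if_pos ⟨h2.1, by omega⟩]
      exact Prod.ext rfl (by simp only; omega)
    · exact ⟨cd l, by simp only [shift]; rw [if_neg h2]⟩

/-- child of colour `k` in the free group -/
noncomputable def fchild (k : J × ℕ) (x : FreeGroup I) : FreeGroup I :=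
  FreeGroup.mk (cd.symm (shift cd x.toWord k) :: x.toWord)

theorem toWord_fchild (k : J × ℕ) (x : FreeGroup I) :
    (fchild cd k x).toWord = cd.symm (shift cd x.toWord k) :: x.toWord := by
  rw [fchild, toWord_mk, (isReduced_shift cd isReduced_toWord k).reduce_eq]

theorem fchild_eq (k : J × ℕ) (x : FreeGroup I) :
    fchild cd k x = FreeGroup.mk [cd.symm (shift cd x.toWord k)] * x := by
  conv_rhs => rw [← mk_toWord (x := x)]
  rw [mul_mk, toWord_mk, reduce_toWord]
  rfl

theorem exists_fchild {l : I × Bool} {x : FreeGroup I} (h : IsReduced (l :: x.toWord)) :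
    ∃ k, (k = cd l ∨ k = ((cd l).1, (cd l).2 - 1)) ∧ fchild cd k x = FreeGroup.mk [l] * x := by
  obtain ⟨k, hk⟩ := exists_shift cd h
  refine ⟨k, ?_, ?_⟩
  · rcases shift_cases cd x.toWord k with h1 | h1
    · exact Or.inl (h1.symm.trans hk)
    · right
      rw [← hk, h1]
      rfl
  · rw [fchild_eq, hk, Equiv.symm_apply_apply]

/-- The tree structure on the free group. -/
noncomputable def freeTree : KTree (J × ℕ) (FreeGroup I) where
  root := 1
  child := fchild cd
  inj := by
    intro k x k' x' h
    have h1 := congrArg toWord h
    rw [toWord_fchild, toWord_fchild] at h1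
    obtain ⟨h2, h3⟩ := List.cons.inj h1
    have h4 : x = x' := toWord_injective h3
    subst h4
    exact ⟨shift_injective cd _ (cd.symm.injective h2), rfl⟩
  ne_root := by
    intro k x h
    have h1 := congrArg toWord h
    rw [toWord_fchild, toWord_one] at h1
    exact List.cons_ne_nil _ _ h1
  ind := by
    intro P h1 h2 x
    have key : ∀ L : List (I × Bool), IsReduced L → P (FreeGroup.mk L) := by
      intro L
      induction L with
      | nil => intro _; exact h1
      | cons l L ih =>
        intro hL
        have hL' : IsReduced L := List.IsChain.tail hL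
        have h3 : (FreeGroup.mk L).toWord = L := by rw [toWord_mk, hL'.reduce_eq]
        obtain ⟨k, -, hk⟩ := exists_fchild cd (l := l) (x := FreeGroup.mk L) (by rw [h3]; exact hL)
        have h4 := h2 k _ (ih hL')
        rw [hk, mul_mk] at h4
        exact h4
    have := key x.toWord isReduced_toWord
    rwa [mk_toWord] at this

theorem free_good_iff (A : Set (FreeGroup I)) :
    (freeTree cd).Good A ↔ ∀ g : FreeGroup I, AlmInv A (fun x => g • x) := by
  constructor
  · intro hA
    have hgen : ∀ a : I, FreeGroup.of a ∈ almStab (FreeGroup I) A := by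
      intro a
      rw [mem_almStab]
      have f1 := hA (cd (a, true))
      have f2 := hA ((cd (a, true)).1, (cd (a, true)).2 - 1)
      have f3 := (hA (cd (a, false))).preimage
        (f := fun x => FreeGroup.of a * x) (mul_right_injective _).injOn
      have f4 := (hA ((cd (a, false)).1, (cd (a, false)).2 - 1)).preimage
        (f := fun x => FreeGroup.of a * x) (mul_right_injective _).injOn
      refine (((f1.union f2).union f3).union f4).subset ?_
      intro x hx
      simp only [mem_ofPred_eq, mem_union, mem_preimage, smul_eq_mul, freeTree] at hx ⊢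
      by_cases hr : IsReduced ((a, true) :: x.toWord)
      · obtain ⟨k, hk1, hk2⟩ := exists_fchild cd hr
        have h5 : FreeGroup.mk [(a, true)] = FreeGroup.of a := rfl
        rw [h5] at hk2
        rcases hk1 with hk1 | hk1
        · left; left; left
          rw [← hk1, hk2]; exact hx
        · left; left; right
          rw [← hk1, hk2]; exact hx
      · obtain ⟨L, hL⟩ : ∃ L, x.toWord = (a, false) :: L := by
          have hx' : IsReduced x.toWord := isReduced_toWord
          cases hw : x.toWord with
          | nil => rw [hw] at hr; exact absurd IsReduced.singleton hr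
          | cons l L =>
            rw [hw] at hr hx'
            rw [isReduced_cons_cons] at hr
            have h6 : ¬ (a = l.1 → true = l.2) := fun h => hr ⟨h, hx'⟩
            push Not at h6
            obtain ⟨a', b'⟩ := l
            simp only at h6
            obtain ⟨rfl, h7⟩ := h6
            cases b'
            · exact ⟨L, rfl⟩
            · exact absurd rfl h7
        have hx' : IsReduced ((a, false) :: L) := hL ▸ isReduced_toWord
        have hL' : IsReduced L := List.IsChain.tail hx'
        have h3 : (FreeGroup.mk L).toWord = L := by rw [toWord_mk, hL'.reduce_eq]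
        have h8 : x = FreeGroup.mk [(a, false)] * FreeGroup.mk L := by
          rw [mul_mk, ← mk_toWord (x := x), hL]; rfl
        have h9 : FreeGroup.mk [(a, false)] = (FreeGroup.of a)⁻¹ := rfl
        have h10 : FreeGroup.of a * x = FreeGroup.mk L := by
          rw [h8, h9, mul_inv_cancel_left]
        obtain ⟨k, hk1, hk2⟩ := exists_fchild cd (l := (a, false)) (x := FreeGroup.mk L)
          (by rw [h3]; exact hx')
        rw [← h8] at hk2
        rw [h10] at hx ⊢
        rcases hk1 with hk1 | hk1
        · left; right
          rw [← hk1, hk2]; tauto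
        · right
          rw [← hk1, hk2]; tauto
    intro g
    have : g ∈ almStab (FreeGroup I) A := by
      induction g using FreeGroup.induction_on with
      | C1 => exact one_mem _
      | of a => exact hgen a
      | inv_of a h => exact inv_mem h
      | mul x y hx hy => exact mul_mem hx hy
    exact this
  · intro hA k
    have f1 := hA (FreeGroup.mk [cd.symm k])
    have f2 := hA (FreeGroup.mk [cd.symm (k.1, k.2 + 1)])
    refine (f1.union f2).subset ?_
    intro x hx
    simp only [mem_ofPred_eq, mem_union, smul_eq_mul, freeTree, fchild_eq] at hx ⊢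
    rcases shift_cases cd x.toWord k with h | h
    · left; rwa [h] at hx
    · right; rwa [h] at hx

theorem free_tree (I : Type) [Infinite I] :
    ∃ T : KTree I (FreeGroup I), ∀ A, T.Good A ↔ A ∈ Com (FreeGroup I) := by
  have h0 := Cardinal.aleph0_le_mk I
  have h1 : Cardinal.mk (I × ℕ) = Cardinal.mk I := by
    simp [Cardinal.mul_aleph0_eq h0]
  have h2 : Cardinal.mk (I × Bool) = Cardinal.mk I := by
    simpa using Cardinal.mul_eq_left h0 ((Cardinal.natCast_lt_aleph0 (n := 2)).le.trans h0) (by simp)
  obtain ⟨cd⟩ := Cardinal.eq.1 (h2.trans h1.symm)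
  obtain ⟨e⟩ := Cardinal.eq.1 h1.symm
  exact ⟨(freeTree cd).recol e, fun A =>
    (KTree.recol_good _ e A).trans ((free_good_iff cd A).trans mem_Com.symm)⟩

end Pool.Agent.P.MP_3ac48a_al.Rk
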