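import Pool.Agent.P.MP_3ac48a_al.Tree

/-!
Almost invariance with parameters.
-/

namespace Pool.Agent.P.MP_3ac48a_al.Rk

open Set Function

variable {X Y : Type}

/-- points that no set invariant under the first maps separates from the base point -/
def Near (x0 : X) (f : ℕ → X → X) (m : ℕ) : Set X :=
  {x | ∀ B : Set X, (∀ a ≤ m, ∀ z, f a z ∈ B ↔ z ∈ B) → (x ∈ B ↔ x0 ∈ B)}

theorem Near.mono {x0 : X} {f : ℕ → X → X} {m n : ℕ} (h : m ≤ n) : Near x0 f m ⊆ Near x0 f n :=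
  fun _ hx B hB => hx B fun a ha => hB a (ha.trans h)

theorem odd_flip {S S' : Set ℕ} (hS : S.Finite) (n : ℕ) (h1 : ∀ i ≠ n, i ∈ S' ↔ i ∈ S)
    (h2 : ¬ (n ∈ S' ↔ n ∈ S)) : ¬ (Odd S'.ncard ↔ Odd S.ncard) := by
  by_cases hn : n ∈ S
  · have hn' : n ∉ S' := fun h => h2 (iff_of_true h hn)
    have e : S = insert n S' := by
      ext i
      by_cases hi : i = n
      · simp [hi, hn]
      · simp [hi, h1 i hi]
    have hS' : S'.Finite := hS.subset (e ▸ subset_insert _ _)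
    rw [e, ncard_insert_of_notMem hn' hS', Nat.odd_add_one]
    tauto
  · have hn' : n ∈ S' := by tauto
    have e : S' = insert n S := by
      ext i
      by_cases hi : i = n
      · simp [hi, hn']
      · simp [hi, h1 i hi]
    rw [e, ncard_insert_of_notMem hn hS, Nat.odd_add_one]
    tauto

theorem param (x0 : X) (f : ℕ → X → X) (g : X → X) (hx : ∀ x, ∃ m, x ∈ Near x0 f m)
    (h : ∀ B : Set X, (∀ a, AlmInv B (f a)) → AlmInv B g) (A : Set (X × Y))
    (hA : ∀ a, AlmInv A fun p => (f a p.1, p.2)) : AlmInv A fun p => (g p.1, p.2) := by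
  classical
  by_contra hE
  choose μ hμ using hx
  let E : Set (X × Y) := {p | ¬ ((g p.1, p.2) ∈ A ↔ p ∈ A)}
  have hs : ∀ y, {x | (x, y) ∈ E}.Finite := fun y =>
    h {x | (x, y) ∈ A} fun a => (hA a).preimage (f := fun x => (x, y))
      (Prod.mk_left_injective y).injOn
  let Bad : ℕ → Set Y := fun m => {y | ∃ a ≤ m, ∃ z, ¬ ((f a z, y) ∈ A ↔ (z, y) ∈ A)}
  have hBad : ∀ m, (Bad m).Finite := fun m =>
    ((finite_le_nat m).biUnion fun a _ => (hA a).image Prod.snd).subset fun y ⟨a, ha, z, hz⟩ =>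
      mem_biUnion ha ⟨(z, y), hz, rfl⟩
  have hgood : ∀ m y x, y ∉ Bad m → x ∈ Near x0 f m → ((x, y) ∈ A ↔ (x0, y) ∈ A) :=
    fun m y x hy hx => hx {x | (x, y) ∈ A} fun a ha z => by
      by_contra h1
      exact hy ⟨a, ha, z, h1⟩
  have hnew : ∀ (m : ℕ) (F : Set X), F.Finite → ∃ p ∈ E, p.1 ∉ F ∧ p.2 ∉ Bad m := by
    intro m F hF
    by_contra h1
    push Not at h1
    have h2 : ∀ k, (⋃ y ∈ Bad k, (fun x => (x, y)) '' {x | (x, y) ∈ E}).Finite := fun k =>
      (hBad k).biUnion fun y _ => (hs y).image _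
    refine hE (((h2 m).union (hF.biUnion fun x _ => h2 (max (μ x) (μ (g x))))).subset
      fun p hp => ?_)
    by_cases h3 : p.1 ∈ F
    · refine Or.inr (mem_biUnion h3 (mem_biUnion (x := p.2) ?_ ⟨p.1, hp, rfl⟩))
      by_contra h4
      exact hp ((hgood _ _ _ h4 (Near.mono (le_max_right _ _) (hμ _))).trans
        (hgood _ _ _ h4 (Near.mono (le_max_left _ _) (hμ _))).symm)
    · exact Or.inl (mem_biUnion (h1 p hp h3) ⟨p.1, hp, rfl⟩)
  choose nx hn1 hn2 hn3 using hnew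
  let nxt : ℕ × {F : Set X // F.Finite} → X × Y := fun s => nx s.1 s.2.1 s.2.2
  let st : ℕ → ℕ × {F : Set X // F.Finite} := fun n => Nat.rec (0, ⟨∅, finite_empty⟩)
    (fun _ s => (s.1 + μ (nxt s).1 + μ (g (nxt s).1) + 1,
      ⟨insert (nxt s).1 (s.2.1 ∪ {x | (x, (nxt s).2) ∈ E}), (s.2.2.union (hs _)).insert _⟩)) n
  let p : ℕ → X × Y := fun n => nxt (st n)
  have s1 : ∀ n, (st (n + 1)).1 = (st n).1 + μ (p n).1 + μ (g (p n).1) + 1 := fun _ => rfl
  have s2 : ∀ n, (st (n + 1)).2.1 = insert (p n).1 ((st n).2.1 ∪ {x | (x, (p n).2) ∈ E}) :=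
    fun _ => rfl
  have m1 : StrictMono fun n => (st n).1 := strictMono_nat_of_lt_succ fun n => by
    rw [s1]; omega
  have m2 : Monotone fun n => (st n).2.1 := monotone_nat_of_le_succ fun n => by
    rw [s2]; exact subset_union_left.trans (subset_insert _ _)
  have p1 : ∀ n, p n ∈ E := fun n => hn1 _ _ _
  have p2 : ∀ i n, i < n → (p n).1 ≠ (p i).1 ∧ ((p n).1, (p i).2) ∉ E := fun i n hin => by
    have h1 : (p n).1 ∉ (st (i + 1)).2.1 := fun h2 => hn2 _ _ _ (m2 hin h2)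
    rw [s2] at h1
    exact ⟨fun h2 => h1 (Or.inl h2), fun h2 => h1 (Or.inr (Or.inr h2))⟩
  have p3 : ∀ n x, μ x ≤ (st n).1 → ((x, (p n).2) ∈ A ↔ (x0, (p n).2) ∈ A) := fun n x hx =>
    hgood _ _ _ (hn3 _ _ _) (Near.mono hx (hμ x))
  let S : X → Set ℕ := fun x => {n | ¬ ((x, (p n).2) ∈ A ↔ (x0, (p n).2) ∈ A)}
  have hS : ∀ x, (S x).Finite := fun x => (finite_lt_nat (μ x)).subset fun n hn => by
    by_contra h1
    exact hn (p3 n x ((not_lt.1 h1).trans m1.le_apply))
  have hB := h {x | Odd (S x).ncard} fun a => ((hA a).image Prod.fst).subset fun x hx => by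
    by_contra h1
    refine hx ?_
    have : S (f a x) = S x := by
      ext n
      have h2 : (f a x, (p n).2) ∈ A ↔ (x, (p n).2) ∈ A := by
        by_contra h2
        exact h1 ⟨(x, (p n).2), h2, rfl⟩
      simp only [S, mem_ofPred_eq, h2]
    simp only [mem_ofPred_eq, this]
  refine infinite_of_injective_forall_mem (f := fun n => (p n).1) (fun i n hin => ?_)
    (fun n => ?_) hB
  · rcases lt_trichotomy i n with h1 | h1 | h1
    · exact absurd hin.symm (p2 i n h1).1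
    · exact h1
    · exact absurd hin (p2 n i h1).1
  · refine odd_flip (hS _) n (fun i hi => ?_) ?_
    · rcases lt_or_gt_of_ne hi with h1 | h1
      · have h2 := not_not.1 (p2 i n h1).2
        simp only [S, mem_ofPred_eq, h2]
      · have h2 : (st (n + 1)).1 ≤ (st i).1 := m1.monotone h1
        rw [s1] at h2
        simp only [S, mem_ofPred_eq, p3 i (p n).1 (by omega), p3 i (g (p n).1) (by omega)]
    · have h2 : ¬ ((g (p n).1, (p n).2) ∈ A ↔ ((p n).1, (p n).2) ∈ A) := p1 n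
      simp only [S, mem_ofPred_eq]
      tauto

end Pool.Agent.P.MP_3ac48a_al.Rk
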