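import Pool.Agent.P.MP_3ac48a_al.RkFree
import Pool.Agent.P.MP_3ac48a_al.RkParam
import Pool.Agent.P.MP_3ac48a_al.ClProd

/-!
The coloured tree on a free product of infinitely many nontrivial countable groups.
-/

namespace Pool.Agent.P.MP_3ac48a_al.Rk

open Set Function Monoid Monoid.CoprodI Classical Pool.Agent.P.MP_3ac48a_al.Cl

section
variable {G : Type} [Group G]

theorem tree_one (T : TreeStr G) (hT : ∀ A, T.Good A ↔ A ∈ Com G) :
    ∃ T : KTree ℕ G, T.root = 1 ∧ ∀ A, T.Good A ↔ A ∈ Com G := by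
  let T' : KTree ℕ G := ⟨T.root, T.child, T.inj, T.ne_root, T.ind⟩
  let e : G ≃ G := Equiv.mulRight T.root⁻¹
  refine ⟨T'.map e, mul_inv_cancel _, fun A => ?_⟩
  refine Iff.trans (forall_congr' fun k => ?_) ((hT (e ⁻¹' A)).trans ?_)
  · exact (AlmInv.equiv_iff e fun x => by simp [KTree.map, T']).symm
  · rw [mem_Com, mem_Com]
    exact forall_congr' fun g => AlmInv.equiv_iff e (f := fun x => g * x) (g := fun x => g * x)
      fun x => mul_assoc _ _ _

theorem param_iff [Countable G] (T : KTree ℕ G) (hT : ∀ A, T.Good A ↔ A ∈ Com G) {Y : Type}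
    (A : Set (G × Y)) : (∀ k, AlmInv A fun p => (T.child k p.1, p.2)) ↔
      ∀ h : G, AlmInv A fun p => (h * p.1, p.2) := by
  constructor
  · intro hA h
    refine param T.root T.child (fun x => h * x) (fun x => ?_)
      (fun B hB => mem_Com.1 ((hT B).1 hB) h) A hA
    refine T.ind (fun x => ∃ m, x ∈ Near T.root T.child m) ⟨0, fun _ _ => Iff.rfl⟩ ?_ x
    rintro k x ⟨m, hm⟩
    exact ⟨max k m, fun B hB => (hB k (le_max_left _ _) x).trans
      (Near.mono (le_max_right k m) hm B hB)⟩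
  · intro hA k
    obtain ⟨u, hu⟩ := exists_surjective_nat G
    refine param 1 (fun a x => u a * x) (T.child k) (fun x => ?_)
      (fun B hB => (hT B).2 (mem_Com.2 fun g => ?_) k) A fun a => hA (u a)
    · obtain ⟨a, rfl⟩ := hu x
      exact ⟨a, fun B hB => by simpa using hB a le_rfl 1⟩
    · obtain ⟨a, rfl⟩ := hu g
      exact hB a

end

section
variable {J : Type} {H : J → Type} [∀ j, Group (H j)]

/-- the index of the first letter -/
noncomputable def fi (g : CoprodI H) : Option J := (Word.equiv g).fstIdx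

theorem fi_one : fi (1 : CoprodI H) = none := by
  have : Word.equiv (1 : CoprodI H) = Word.empty := one_smul (CoprodI H) Word.empty
  simp [fi, this, Word.fstIdx, Word.empty]

theorem fi_of_mul {i : J} {m : H i} (hm : m ≠ 1) {x : CoprodI H} (hx : fi x ≠ some i) :
    fi (of m * x) = some i := by
  have : Word.equiv (of m * x) = of m • Word.equiv x := mul_smul _ x (Word.empty : Word H)
  rw [fi, this, ← Word.cons_eq_smul (h1 := hx) (h2 := hm)]
  exact Word.fstIdx_cons _ _ _ _

theorem word_ind (P : CoprodI H → Prop) (h1 : P 1)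
    (hs : ∀ i (m : H i) x, m ≠ 1 → fi x ≠ some i → P x → P (of m * x)) (g : CoprodI H) : P g := by
  obtain ⟨w, rfl⟩ := (Word.equiv (M := H)).symm.surjective g
  induction w using Word.consRecOn with
  | empty => exact h1
  | cons i m w hw hm ih =>
    change P (Word.prod _)
    rw [Word.prod_cons]
    refine hs i m _ hm ?_ ih
    rwa [← (Word.equiv (M := H)).apply_symm_apply w] at hw

end

variable {J : Type} {H : J → Type} [∀ j, Group (H j)] (e : J × ℕ ≃ J)

/-- the free product of one block -/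
abbrev Blk (H : J → Type) [∀ j, Group (H j)] (e : J × ℕ ≃ J) (j : J) : Type :=
  CoprodI fun n : ℕ => H (e (j, n))

/-- the inclusion of a block -/
def φ (j : J) : Blk H e j →* CoprodI H := CoprodI.lift fun _ => of

/-- elements that do not start with a letter of the block -/
abbrev Tl (H : J → Type) [∀ j, Group (H j)] (e : J × ℕ ≃ J) (j : J) : Type :=
  {t : CoprodI H // ∀ n, fi t ≠ some (e (j, n))}

theorem fi_blk (j : J) (t : Tl H e j) (y : Blk H e j) :
    y ≠ 1 → ∃ n, fi y = some n ∧ fi (φ e j y * t.1) = some (e (j, n)) := by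
  refine word_ind (fun y => y ≠ 1 → ∃ n, fi y = some n ∧ fi (φ e j y * t.1) = some (e (j, n)))
    (fun h => absurd rfl h) (fun n m x hm hx ih _ =>
      ⟨n, fi_of_mul (H := fun n : ℕ => H (e (j, n))) hm hx, ?_⟩) y
  rw [map_mul, mul_assoc, φ, lift_of]
  refine fi_of_mul hm ?_
  by_cases h1 : x = 1
  · rw [h1, map_one, one_mul]
    exact t.2 n
  · obtain ⟨n', h2, h3⟩ := ih h1
    rw [φ] at h3
    rw [h3]
    intro h4
    rw [h2] at hx
    exact hx (congrArg some (Prod.mk.inj (e.injective (Option.some.inj h4))).2)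

theorem cover (P : CoprodI H → Prop) (h1 : P 1)
    (hs : ∀ j (t : Tl H e j), P t.1 → ∀ x, P (φ e j x * t.1)) (g : CoprodI H) :
    ∀ j, ∃ (x : Blk H e j) (t : Tl H e j), g = φ e j x * t.1 ∧ P t.1 := by
  refine word_ind (fun g => ∀ j, ∃ (x : Blk H e j) (t : Tl H e j), g = φ e j x * t.1 ∧ P t.1)
    (fun j => ⟨1, ⟨1, fun n => by simp [fi_one]⟩, by simp, h1⟩) (fun i m g hm hg ih j => ?_) g
  obtain ⟨⟨j0, n⟩, rfl⟩ := e.surjective i
  obtain ⟨x, t, h2, h3⟩ := ih j0
  have h4 : of m * g = φ e j0 (of (M := fun n : ℕ => H (e (j0, n))) m * x) * t.1 := by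
    rw [map_mul, mul_assoc, ← h2, φ, lift_of]
  by_cases hj : j0 = j
  · subst hj
    exact ⟨_, t, h4, h3⟩
  · refine ⟨1, ⟨of m * g, fun n' h5 => hj ?_⟩, by simp, ?_⟩
    · rw [fi_of_mul hm hg] at h5
      exact (Prod.mk.inj (e.injective (Option.some.inj h5))).1
    · change P (of m * g)
      rw [h4]
      exact hs j0 t h3 _

/-- normal form relative to a block -/
noncomputable def nf (j : J) : Blk H e j × Tl H e j ≃ CoprodI H :=
  Equiv.ofBijective (fun p => φ e j p.1 * p.2.1) ⟨by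
    rintro ⟨x, t⟩ ⟨x', t'⟩ h
    have h1 : φ e j (x'⁻¹ * x) * t.1 = t'.1 := by
      simp only at h
      rw [map_mul, map_inv, mul_assoc, h, inv_mul_cancel_left]
    have h2 : x'⁻¹ * x = 1 := by
      by_contra h2
      obtain ⟨n, -, h3⟩ := fi_blk e j t _ h2
      exact t'.2 n (h1 ▸ h3)
    rw [h2, map_one, one_mul] at h1
    exact Prod.ext (inv_mul_eq_one.1 h2).symm (Subtype.ext h1), fun g => by
    obtain ⟨x, t, h, -⟩ := cover e (fun _ => True) trivial (fun _ _ _ _ => trivial) g j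
    exact ⟨(x, t), h.symm⟩⟩

theorem nf_apply (j : J) (p : Blk H e j × Tl H e j) : nf e j p = φ e j p.1 * p.2.1 := rfl

theorem glue [Nonempty J] [∀ j, Countable (Blk H e j)] (T : ∀ j, KTree ℕ (Blk H e j))
    (h1 : ∀ j, (T j).root = 1) (hT : ∀ j A, (T j).Good A ↔ A ∈ Com (Blk H e j)) :
    ∃ S : KTree (J × ℕ) (CoprodI H), ∀ A, S.Good A ↔ A ∈ Com (CoprodI H) := by
  let ch : J × ℕ → CoprodI H → CoprodI H := fun k g =>
    nf e k.1 ((T k.1).child k.2 ((nf e k.1).symm g).1, ((nf e k.1).symm g).2)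
  have hfi : ∀ k g, ∃ n, fi (ch k g) = some (e (k.1, n)) := fun k g => by
    obtain ⟨n, -, h⟩ := fi_blk e k.1 ((nf e k.1).symm g).2 _
      (h1 k.1 ▸ (T k.1).ne_root k.2 ((nf e k.1).symm g).1)
    exact ⟨n, h⟩
  have hch : ∀ j k p, ch (j, k) (nf e j p) = nf e j ((T j).child k p.1, p.2) := fun j k p => by
    simp only [ch, Equiv.symm_apply_apply]
  refine ⟨⟨1, ch, ?_, fun k g h => ?_, fun P p1 ps g => ?_⟩, fun A => ?_⟩
  · rintro ⟨j, k⟩ g ⟨j', k'⟩ g' h
    obtain ⟨n, h2⟩ := hfi (j, k) g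
    obtain ⟨n', h3⟩ := hfi (j', k') g'
    rw [h, h3] at h2
    obtain rfl : j' = j := (Prod.mk.inj (e.injective (Option.some.inj h2))).1
    obtain ⟨h4, h5⟩ := Prod.mk.inj ((nf e j').injective h)
    obtain ⟨h6, h7⟩ := (T j').inj _ _ _ _ h4
    exact ⟨congrArg _ h6, (nf e j').symm.injective (Prod.ext h7 h5)⟩
  · obtain ⟨n, h2⟩ := hfi k g
    rw [h, fi_one] at h2
    exact absurd h2 (by simp)
  · have hs : ∀ j (t : Tl H e j), P t.1 → ∀ x, P (φ e j x * t.1) := fun j t ht x => by
      refine (T j).ind (fun x => P (nf e j (x, t))) ?_ (fun k x hx => ?_) x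
      · rwa [nf_apply, h1, map_one, one_mul]
      · have := ps (j, k) _ hx
        rwa [hch] at this
    obtain ⟨j⟩ := ‹Nonempty J›
    obtain ⟨x, t, rfl, h2⟩ := cover e P p1 hs g j
    exact hs j t h2 x
  · have key : ∀ j, (∀ k, AlmInv A (ch (j, k))) ↔ ∀ h, AlmInv A fun g => φ e j h * g := fun j => by
      refine Iff.trans (forall_congr' fun k => ?_)
        ((param_iff (T j) (hT j) (nf e j ⁻¹' A)).trans (forall_congr' fun h => ?_))
      · exact (AlmInv.equiv_iff (nf e j) fun p => (hch j k p).symm).symm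
      · exact AlmInv.equiv_iff (nf e j) fun p => by
          simp only [nf_apply, map_mul, mul_assoc]
    rw [mem_Com]
    constructor
    · intro hA g
      change g ∈ almStab (CoprodI H) A
      induction g using CoprodI.induction_on with
      | one => exact one_mem _
      | mul x y hx hy => exact mul_mem hx hy
      | of i m =>
        obtain ⟨⟨j, n⟩, rfl⟩ := e.surjective i
        have := (key j).1 (fun k => hA (j, k)) (of (M := fun n : ℕ => H (e (j, n))) m)
        rwa [φ, lift_of] at this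
    · rintro hA ⟨j, k⟩
      exact (key j).2 (fun h => hA _) k

theorem gen_tree (J : Type) [Infinite J] (H : J → Type) [∀ j, Group (H j)] [∀ j, Countable (H j)]
    [∀ j, Nontrivial (H j)] :
    ∃ S : KTree J (CoprodI H), ∀ A, S.Good A ↔ A ∈ Com (CoprodI H) := by
  have h1 : Cardinal.mk (J × ℕ) = Cardinal.mk J := by
    simp [Cardinal.mul_aleph0_eq (Cardinal.aleph0_le_mk J)]
  obtain ⟨e⟩ := Cardinal.eq.1 h1
  have : ∀ j, Countable (Blk H e j) := fun j => countable_coprod
  have h2 : ∀ j, ∃ T : KTree ℕ (Blk H e j), T.root = 1 ∧ ∀ A, T.Good A ↔ A ∈ Com (Blk H e j) :=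
    fun j => by
      obtain ⟨T, hT⟩ := exists_tree (G := Blk H e j) coprod_hyp.1 coprod_hyp.2
      exact tree_one T hT
  choose T h3 h4 using h2
  obtain ⟨S, hS⟩ := glue e T h3 h4
  exact ⟨S.recol e.symm, fun A => (S.recol_good _ A).trans (hS A)⟩

theorem main_gen (I J : Type) [Infinite I] [Infinite J] (H : J → Type) [∀ j, Group (H j)]
    [∀ j, Countable (H j)] [∀ j, Nontrivial (H j)] :
    Nonempty (Ends (FreeGroup I) ≃ₜ Ends (CoprodI H)) ↔ Nonempty (I ≃ J) := by
  obtain ⟨T, hT⟩ := free_tree I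
  obtain ⟨T', hT'⟩ := gen_tree J H
  exact homeo_iff T hT T' hT'

end Pool.Agent.P.MP_3ac48a_al.Rk
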