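import Pool.Agent.P.MP_3ac48a_al.ClTop
import Pool.Agent.P.MP_3ac48a_al.Main

/-!
Rooted trees with an arbitrary set of colours; the space of ends detects the number of colours.
-/

namespace Pool.Agent.P.MP_3ac48a_al.Rk

open Set Function TopologicalSpace PrimeSpectrum Pool.Agent.P.MP_3ac48a_al.Cl

/-- A rooted tree structure in which each vertex has exactly one child of each colour. -/
structure KTree (K X : Type) where
  root : X
  child : K → X → X
  inj : ∀ k x k' x', child k x = child k' x' → k = k' ∧ x = x'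
  ne_root : ∀ k x, child k x ≠ root
  ind : ∀ P : X → Prop, P root → (∀ k x, P x → P (child k x)) → ∀ x, P x

namespace KTree

variable {K K' X Y : Type}

def ofList (T : KTree K X) : List K → X
  | [] => T.root
  | k :: w => T.child k (ofList T w)

theorem ofList_injective (T : KTree K X) : Function.Injective T.ofList := by
  intro w
  induction w with
  | nil =>
    intro w' h
    cases w' with
    | nil => rfl
    | cons k w' => exact absurd h.symm (T.ne_root _ _)
  | cons k w ih =>
    intro w' h
    cases w' with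
    | nil => exact absurd h (T.ne_root _ _)
    | cons k' w' =>
      obtain ⟨h1, h2⟩ := T.inj _ _ _ _ h
      rw [h1, ih h2]

theorem ofList_surjective (T : KTree K X) : Function.Surjective T.ofList := by
  intro x
  refine T.ind (fun x => ∃ w, T.ofList w = x) ⟨[], rfl⟩ ?_ x
  rintro k x ⟨w, rfl⟩
  exact ⟨k :: w, rfl⟩

noncomputable def listEquiv (T : KTree K X) : List K ≃ X :=
  Equiv.ofBijective T.ofList ⟨T.ofList_injective, T.ofList_surjective⟩

theorem exists_equiv (T : KTree K X) (T' : KTree K Y) :
    ∃ e : X ≃ Y, ∀ k x, e (T.child k x) = T'.child k (e x) := by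
  refine ⟨T.listEquiv.symm.trans T'.listEquiv, fun k x => ?_⟩
  obtain ⟨w, rfl⟩ := T.listEquiv.surjective x
  have h : T.child k (T.listEquiv w) = T.listEquiv (k :: w) := rfl
  rw [h]
  simp only [Equiv.trans_apply, Equiv.symm_apply_apply]
  rfl

/-- `A` has finite boundary in every colour. -/
def Good (T : KTree K X) (A : Set X) : Prop := ∀ k, AlmInv A (T.child k)

theorem exists_equiv_good (T : KTree K X) (T' : KTree K Y) :
    ∃ e : X ≃ Y, ∀ B : Set Y, T.Good (e ⁻¹' B) ↔ T'.Good B := by
  obtain ⟨e, he⟩ := exists_equiv T T'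
  refine ⟨e, fun B => forall_congr' fun k => ?_⟩
  unfold AlmInv
  have : {x | ¬ (T.child k x ∈ e ⁻¹' B ↔ x ∈ e ⁻¹' B)}
      = e ⁻¹' {y | ¬ (T'.child k y ∈ B ↔ y ∈ B)} := by
    ext x
    simp only [mem_preimage, mem_ofPred_eq, he]
  rw [this]
  constructor
  · intro h
    exact Finite.of_preimage h e.surjective
  · intro h
    exact h.preimage e.injective.injOn

/-- renaming the colours -/
def recol (T : KTree K X) (e : K' ≃ K) : KTree K' X where
  root := T.root
  child k := T.child (e k)
  inj k x k' x' h := ⟨e.injective (T.inj _ _ _ _ h).1, (T.inj _ _ _ _ h).2⟩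
  ne_root _ _ := T.ne_root _ _
  ind P h0 h1 := T.ind P h0 fun k x hx => by simpa using h1 (e.symm k) x hx

theorem recol_good (T : KTree K X) (e : K' ≃ K) (A : Set X) : (T.recol e).Good A ↔ T.Good A :=
  e.forall_congr_right (q := fun k => AlmInv A (T.child k))

/-- transport of a tree along a bijection -/
def map (T : KTree K X) (e : X ≃ Y) : KTree K Y where
  root := e T.root
  child k y := e (T.child k (e.symm y))
  inj k x k' x' h := ⟨(T.inj _ _ _ _ (e.injective h)).1,
    e.symm.injective (T.inj _ _ _ _ (e.injective h)).2⟩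
  ne_root _ _ h := T.ne_root _ _ (e.injective h)
  ind P h0 h1 y := by
    have := T.ind (fun x => P (e x)) h0 (fun k x hx => by simpa using h1 k _ hx) (e.symm y)
    simpa using this

end KTree

variable {K K' G H : Type} [Group G] [Group H]

theorem homeo (T : KTree K G) (hT : ∀ A, T.Good A ↔ A ∈ Com G) (T' : KTree K' H)
    (hT' : ∀ A, T'.Good A ↔ A ∈ Com H) (e : K ≃ K') : Nonempty (Ends G ≃ₜ Ends H) := by
  obtain ⟨f, hf⟩ := T.exists_equiv_good (T'.recol e)
  exact homeo_of_equiv f fun B =>
    (hT _).symm.trans ((hf B).trans ((T'.recol_good e B).trans (hT' B)))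

theorem dense_pts [Nonempty K] (T : KTree K G) (hT : ∀ A, T.Good A ↔ A ∈ Com G) :
    ∃ p : G → Ends G, DenseRange p := by
  classical
  obtain ⟨c⟩ := ‹Nonempty K›
  have e : ∀ n w, (T.child c)^[n] (T.ofList w) = T.ofList (List.replicate n c ++ w) := by
    intro n w
    induction n with
    | zero => rfl
    | succ n ih =>
      rw [iterate_succ_apply', ih]
      rfl
  have hf : ∀ x, Injective fun n => (T.child c)^[n] x := fun x m n h => by
    obtain ⟨w, rfl⟩ := T.ofList_surjective x
    simp only [e] at h
    simpa using congrArg List.length (T.ofList_injective h)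
  have h : ∀ A ∈ Com G, A.Infinite → ∃ x, ∀ n, (T.child c)^[n] x ∈ A := fun A hA hI => by
    by_contra h1
    push Not at h1
    have h2 := ((hT A).2 hA c).preimage T.ofList_injective.injOn
    refine hI (((h2.biUnion (t := fun v => {w | w ∈ v.tails}) fun v _ =>
      List.finite_toSet _).image T.ofList).subset fun x hx => ?_)
    obtain ⟨w, rfl⟩ := T.ofList_surjective x
    refine mem_image_of_mem _ ?_
    by_contra h3
    obtain ⟨n, hn⟩ := h1 (T.ofList w)
    refine hn ?_
    clear hn
    induction n with
    | zero => exact hx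
    | succ n ih =>
      rw [iterate_succ_apply']
      by_contra h4
      refine h3 (mem_biUnion (x := List.replicate n c ++ w) (fun h5 => h4 ?_) ?_)
      · rw [e] at ih ⊢
        exact h5.2 ih
      · exact (List.mem_tails _ _).2 (List.suffix_append _ _)
  have h1 := fun x => exists_point ((Filter.hyperfilter ℕ).map fun n => (T.child c)^[n] x)
    fun A hA => (hA.preimage (hf x).injOn).notMem_hyperfilter
  choose p hp using h1
  refine ⟨p, (isTopologicalBasis_basic_opens
    (R := AsBoolRing (commAlg G) ⧸ finIdeal G)).dense_iff.2 ?_⟩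
  rintro _ ⟨q, rfl⟩ hq
  obtain ⟨A, hA, rfl⟩ := cls_surj q
  obtain ⟨x, hx⟩ := h A hA fun h2 => by
    simp [(cls_eq_zero hA).2 h2] at hq
  exact ⟨p x, hp x A hA (Filter.mem_map.2 (Filter.univ_mem' hx)), x, rfl⟩

theorem cells (T : KTree K G) (hT : ∀ A, T.Good A ↔ A ∈ Com G) :
    ∃ U : K → Set (Ends G), (∀ k, IsOpen (U k)) ∧ (∀ k, (U k).Nonempty) ∧
      Pairwise (Disjoint on U) := by
  have e : ∀ (k : K) w, T.ofList w ∈ T.ofList '' {w | w.getLast? = some k} ↔
      w.getLast? = some k := fun k w => T.ofList_injective.mem_set_image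
  have hD : ∀ k, T.ofList '' {w | w.getLast? = some k} ∈ Com G := fun k =>
    (hT _).1 fun c => (finite_singleton T.root).subset fun x hx => by
      obtain ⟨w, rfl⟩ := T.ofList_surjective x
      cases w with
      | nil => rfl
      | cons a w =>
        refine absurd ((e k (c :: a :: w)).trans (Iff.trans ?_ (e k _).symm)) hx
        rw [List.getLast?_cons_cons]
  refine ⟨fun k => SetLike.coe (basicOpen (cls _ (hD k))), fun k => (basicOpen _).2,
    fun k => open_nonempty _ ?_, fun k l h => ?_⟩
  · refine infinite_of_injective_forall_mem (f := fun n => T.ofList (List.replicate n k ++ [k]))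
      (fun a b hab => by simpa using congrArg List.length (T.ofList_injective hab)) fun n => ?_
    rw [e]
    simp
  · have h2 : (T.ofList '' {w | w.getLast? = some k} ∩
        T.ofList '' {w | w.getLast? = some l}).Finite := by
      refine finite_empty.subset fun x hx => ?_
      obtain ⟨w, rfl⟩ := T.ofList_surjective x
      exact h (Option.some.inj (((e k w).1 hx.1).symm.trans ((e l w).1 hx.2)))
    change Disjoint (SetLike.coe (basicOpen (cls _ (hD k)))) (SetLike.coe (basicOpen (cls _ (hD l))))
    rw [Opens.coe_disjoint, disjoint_iff, ← basicOpen_mul, cls_mul, (cls_eq_zero _).2 h2,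
      basicOpen_zero]

theorem card_le [Infinite K'] (T : KTree K G) (hT : ∀ A, T.Good A ↔ A ∈ Com G) (T' : KTree K' H)
    (hT' : ∀ A, T'.Good A ↔ A ∈ Com H) (f : Ends G ≃ₜ Ends H) :
    Cardinal.mk K ≤ Cardinal.mk K' := by
  obtain ⟨U, h1, h2, h3⟩ := cells T hT
  obtain ⟨p, hp⟩ := dense_pts T' hT'
  have h4 : DenseRange (f.symm ∘ p) := f.symm.surjective.denseRange.comp hp f.symm.continuous
  choose x hx using fun k => h4.exists_mem_open (h1 k) (h2 k)
  have h5 : Injective x := fun k l h => by
    by_contra h6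
    exact Set.disjoint_left.1 (h3 h6) (hx k) (h ▸ hx l)
  refine (Cardinal.mk_le_of_injective h5).trans (le_of_eq ?_)
  rw [← T'.listEquiv.cardinal_eq, Cardinal.mk_list_eq_mk]

theorem homeo_iff [Infinite K] [Infinite K'] (T : KTree K G) (hT : ∀ A, T.Good A ↔ A ∈ Com G)
    (T' : KTree K' H) (hT' : ∀ A, T'.Good A ↔ A ∈ Com H) :
    Nonempty (Ends G ≃ₜ Ends H) ↔ Nonempty (K ≃ K') :=
  ⟨fun ⟨f⟩ => Cardinal.eq.1 (le_antisymm (card_le T hT T' hT' f) (card_le T' hT' T hT f.symm)),
    fun ⟨e⟩ => homeo T hT T' hT' e⟩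

end Pool.Agent.P.MP_3ac48a_al.Rk
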