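import Pool.Agent.P.MP_3ac48a_al.Main

namespace Pool.Agent.P.MP_3ac48a_al.VariantEndsHomeo

open Pool.Agent.P.MP_3ac48a_al

theorem result :
    Nonempty (Ends (FreeGroup ℕ) ≃ₜ Ends (Monoid.CoprodI fun _ : ℕ => Multiplicative (ℤ × ℤ))) :=
  Pool.Agent.P.MP_3ac48a_al.main

end Pool.Agent.P.MP_3ac48a_al.VariantEndsHomeo
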